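import Mathlib

/-!
# Division rings of fractions of `Λ[θ][x; θ ↦ θ + π]`
-/

namespace Pool.Agent.WeylSub

open Polynomial

/-- The data of a division ring `E` of left fractions of the skew polynomial ring
`Λ[θ][x; θ ↦ θ + π]`. -/
structure Core (Λ : Type) [CommRing Λ] (π : Λ) (E : Type) [DivisionRing E] where
  ι : Λ[X] →+* E
  x : E
  x_ne : x ≠ 0
  x_mul : ∀ r, x * ι r = ι (taylor π r) * x
  indep : ∀ p : Λ[X][X], p.eval₂ ι x = 0 → p = 0
  frac : ∀ e : E, ∃ p q : Λ[X][X], q ≠ 0 ∧ q.eval₂ ι x * e = p.eval₂ ι x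

end Pool.Agent.WeylSub
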