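import Mathlib

/-!
# Discrete places with a central uniformiser, on division rings

A `Place E K` is a discrete valuation on the division ring `E` with a central uniformiser `t`,
together with its residue map to a commutative field `K`, given as the graph `Res e c`
meaning that `e` is integral with residue `c`.
-/

namespace Pool.Agent.WeylSub

open Polynomial

/-- A discrete place on a division ring with a central uniformiser `t` and residues in `K`. -/
structure Place (E K : Type*) [DivisionRing E] [Field K] where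
  Res : E → K → Prop
  t : E
  t_ne : t ≠ 0
  t_comm : ∀ e, t * e = e * t
  res_t : Res t 0
  res_one : Res 1 1
  res_add : ∀ {a b c d}, Res a c → Res b d → Res (a + b) (c + d)
  res_neg : ∀ {a c}, Res a c → Res (-a) (-c)
  res_mul : ∀ {a b c d}, Res a c → Res b d → Res (a * b) (c * d)
  uniq : ∀ {a c d}, Res a c → Res a d → c = d
  norm : ∀ e, e ≠ 0 → ∃ n : ℤ, ∃ c, c ≠ 0 ∧ Res (t ^ n * e) c

namespace Place

variable {E K : Type*} [DivisionRing E] [Field K] (P : Place E K)

lemma res_zero : P.Res 0 0 := by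
  have h := P.res_add P.res_one (P.res_neg P.res_one)
  simpa using h

lemma res_sub {a b c d} (h1 : P.Res a c) (h2 : P.Res b d) : P.Res (a - b) (c - d) := by
  rw [sub_eq_add_neg, sub_eq_add_neg]
  exact P.res_add h1 (P.res_neg h2)

lemma res_pow {a c} (h : P.Res a c) (n : ℕ) : P.Res (a ^ n) (c ^ n) := by
  induction n with
  | zero => simpa using P.res_one
  | succ n ih => rw [pow_succ, pow_succ]; exact P.res_mul ih h

lemma res_sum {ι : Type*} (s : Finset ι) (f : ι → E) (g : ι → K)
    (h : ∀ i ∈ s, P.Res (f i) (g i)) : P.Res (∑ i ∈ s, f i) (∑ i ∈ s, g i) := by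
  classical
  induction s using Finset.induction_on with
  | empty => simpa using P.res_zero
  | insert a s ha ih =>
    rw [Finset.sum_insert ha, Finset.sum_insert ha]
    exact P.res_add (h a (by simp)) (ih fun i hi => h i (by simp [hi]))

lemma res_t_pow {n : ℕ} (hn : n ≠ 0) : P.Res (P.t ^ n) 0 := by
  have := P.res_pow P.res_t n
  rwa [zero_pow hn] at this

lemma t_zpow_comm (n : ℤ) (e : E) : P.t ^ n * e = e * P.t ^ n :=
  (Commute.zpow_left₀ (show Commute P.t e from P.t_comm e) n)

lemma ne_zero_of_res {e c} (h : P.Res e c) (hc : c ≠ 0) : e ≠ 0 := by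
  rintro rfl
  exact hc (P.uniq h P.res_zero)

/-- nonnegative powers of `t` times an integral element of residue `c`. -/
lemma res_t_zpow_mul {e c} (h : P.Res e c) {n : ℤ} (hn : 0 ≤ n) :
    P.Res (P.t ^ n * e) (if n = 0 then c else 0) := by
  obtain ⟨m, rfl⟩ := Int.eq_ofNat_of_zero_le hn
  by_cases hm : m = 0
  · subst hm; simpa using h
  · have h1 := P.res_mul (P.res_t_pow hm) h
    rw [zero_mul] at h1
    have : ((m : ℤ) = 0) = False := by simpa using hm
    simp only [this, if_false]
    simpa using h1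

lemma norm_unique {e : E} {n m : ℤ} {c d : K} (h1 : P.Res (P.t ^ n * e) c) (hc : c ≠ 0)
    (h2 : P.Res (P.t ^ m * e) d) (hd : d ≠ 0) : n = m := by
  have key : ∀ {n m : ℤ} {c d : K}, P.Res (P.t ^ n * e) c → P.Res (P.t ^ m * e) d → d ≠ 0 →
      m ≤ n := by
    intro n m c d h1 h2 hd
    by_contra hlt
    push Not at hlt
    have h3 := P.res_t_zpow_mul h1 (n := m - n) (by omega)
    rw [← mul_assoc, ← zpow_add₀ P.t_ne, sub_add_cancel, if_neg (by omega)] at h3
    exact hd (P.uniq h2 h3)
  exact le_antisymm (key h2 h1 hc) (key h1 h2 hd)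

lemma res_inv {e c} (h : P.Res e c) (hc : c ≠ 0) : P.Res e⁻¹ c⁻¹ := by
  have he := P.ne_zero_of_res h hc
  obtain ⟨n, d, hd, h2⟩ := P.norm e⁻¹ (inv_ne_zero he)
  have h3 := P.res_mul h2 h
  rw [mul_assoc, inv_mul_cancel₀ he] at h3
  have hn : n = 0 := P.norm_unique h3 (mul_ne_zero hd hc)
    (by simpa using P.res_one : P.Res (P.t ^ (0 : ℤ) * 1) 1) one_ne_zero
  subst hn
  simp only [zpow_zero, one_mul] at h2 h3
  have h4 : d * c = 1 := P.uniq h3 P.res_one
  have : d = c⁻¹ := eq_inv_of_mul_eq_one_left h4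
  rwa [← this]

lemma res_div {a b c d} (h1 : P.Res a c) (h2 : P.Res b d) (hd : d ≠ 0) :
    P.Res (b⁻¹ * a) (c / d) := by
  rw [div_eq_inv_mul]
  exact P.res_mul (P.res_inv h2 hd) h1

/-- simultaneous normalisation of a finite family which is not identically zero. -/
lemma simnorm {ι : Type*} (s : Finset ι) (e : ι → E) (h : ∃ i ∈ s, e i ≠ 0) :
    ∃ J : ℤ, ∃ l : ι → K, (∀ i ∈ s, P.Res (P.t ^ J * e i) (l i)) ∧ ∃ i ∈ s, l i ≠ 0 := by
  classical
  have hn : ∀ i, ∃ n : ℤ, ∃ c : K, e i ≠ 0 → (c ≠ 0 ∧ P.Res (P.t ^ n * e i) c) := by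
    intro i
    by_cases hi : e i = 0
    · exact ⟨0, 0, fun h => absurd hi h⟩
    · obtain ⟨n, c, h1, h2⟩ := P.norm (e i) hi
      exact ⟨n, c, fun _ => ⟨h1, h2⟩⟩
  choose n c hnc using hn
  obtain ⟨i₀, hi₀, hi₀'⟩ := h
  obtain ⟨j, hj, hjmax⟩ := Finset.exists_max_image (s.filter fun i => e i ≠ 0) n
    ⟨i₀, by simp [hi₀, hi₀']⟩
  simp only [Finset.mem_filter] at hj hjmax
  refine ⟨n j, fun i => if e i = 0 then 0 else if n j - n i = 0 then c i else 0, ?_, j, hj.1, ?_⟩
  · intro i hi
    by_cases hei : e i = 0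
    · simp only [hei, mul_zero, if_true]
      exact P.res_zero
    · simp only [hei, if_false]
      have h1 := P.res_t_zpow_mul (hnc i hei).2 (n := n j - n i)
        (by have := hjmax i ⟨hi, hei⟩; omega)
      rwa [← mul_assoc, ← zpow_add₀ P.t_ne, sub_add_cancel] at h1
  · simp only [hj.2, if_false, sub_self, if_true]
    exact (hnc j hj.2).1

end Place

end Pool.Agent.WeylSub
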