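import Mathlib
import Pool.Agent.WeylSub.Place

/-!
# The ruled residue theorem for places of a division ring generated by a skew polynomial ring
-/

namespace Pool.Agent.WeylSub

open Polynomial

namespace Place

variable {E K F : Type*} [DivisionRing E] [Field K] [Field F] (P : Place E K)

/-- The residue field of a commutative subfield `γ : F → E`. -/
def resField (γ : F →+* E) : Subfield K where
  carrier := {c | ∃ f, P.Res (γ f) c}
  mul_mem' := by
    rintro a b ⟨f, hf⟩ ⟨g, hg⟩
    exact ⟨f * g, by rw [map_mul]; exact P.res_mul hf hg⟩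
  one_mem' := ⟨1, by rw [map_one]; exact P.res_one⟩
  add_mem' := by
    rintro a b ⟨f, hf⟩ ⟨g, hg⟩
    exact ⟨f + g, by rw [map_add]; exact P.res_add hf hg⟩
  zero_mem' := ⟨0, by rw [map_zero]; exact P.res_zero⟩
  neg_mem' := by
    rintro a ⟨f, hf⟩
    exact ⟨-f, by rw [map_neg]; exact P.res_neg hf⟩
  inv_mem' := by
    rintro a ⟨f, hf⟩
    by_cases ha : a = 0
    · exact ⟨0, by rw [ha, inv_zero, map_zero]; exact P.res_zero⟩
    · exact ⟨f⁻¹, by rw [map_inv₀]; exact P.res_inv hf ha⟩

lemma mem_resField {γ : F →+* E} {c : K} : c ∈ P.resField γ ↔ ∃ f, P.Res (γ f) c := Iff.rfl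

section

variable (γ : F →+* E) (σ : F →+* F) (x : E) (hx : ∀ f, x * γ f = γ (σ f) * x)

include hx in
lemma x_pow_mul (n : ℕ) (f : F) : x ^ n * γ f = γ ((σ ^ n) f) * x ^ n := by
  induction n generalizing f with
  | zero => simp
  | succ n ih =>
    rw [pow_succ, mul_assoc, hx, ← mul_assoc, ih, mul_assoc, ← pow_succ]
    congr 2

lemma eval₂_C_mul' (a : F) (p : F[X]) : (C a * p).eval₂ γ x = γ a * p.eval₂ γ x := by
  induction p using Polynomial.induction_on' with
  | add p q hp hq => rw [mul_add, eval₂_add, eval₂_add, hp, hq, mul_add]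
  | monomial n b => rw [C_mul_monomial, eval₂_monomial, eval₂_monomial, map_mul, mul_assoc]

include hx in
lemma x_pow_mul_eval₂ (n : ℕ) (p : F[X]) :
    x ^ n * p.eval₂ γ x = (X ^ n * p.map (σ ^ n)).eval₂ γ x := by
  induction p using Polynomial.induction_on' with
  | add p q hp hq => rw [eval₂_add, mul_add, hp, hq, Polynomial.map_add, mul_add, eval₂_add]
  | monomial m b =>
    rw [eval₂_monomial, ← mul_assoc, x_pow_mul γ σ x hx, map_monomial, X_pow_mul_monomial,
      eval₂_monomial, mul_assoc, ← pow_add, add_comm]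

include hx in
/-- Division with remainder by `p` of degree `n` in the skew polynomial ring. -/
lemma exists_div (n : ℕ) (p : F[X]) (hp : p.degree = n) (N : ℕ) (f : F[X])
    (hf : f.degree < N) :
    ∃ q r : F[X], r.degree < n ∧ q.degree < ((N - n : ℕ) : WithBot ℕ) ∧
      f.eval₂ γ x = q.eval₂ γ x * p.eval₂ γ x + r.eval₂ γ x := by
  induction N generalizing f with
  | zero =>
    have : f = 0 := by
      by_contra h
      exact absurd hf (not_lt.mpr (by simpa using zero_le_degree_iff.mpr h))
    subst this
    exact ⟨0, 0, by simp, by simp, by simp⟩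
  | succ N ih =>
    by_cases hNn : N < n
    · exact ⟨0, f, lt_of_lt_of_le hf (by exact_mod_cast hNn), by simp, by simp⟩
    · push Not at hNn
      set a := f.coeff N
      set b := a / (σ ^ (N - n)) (p.coeff n) with hb
      have hpn : p.coeff n ≠ 0 := by
        have : p.natDegree = n := natDegree_eq_of_degree_eq_some hp
        rw [← this]
        intro h0
        have h1 : p = 0 := leadingCoeff_eq_zero.mp h0
        rw [h1, degree_zero] at hp
        exact absurd hp.symm (WithBot.coe_ne_bot)
      have hσ : (σ ^ (N - n)) (p.coeff n) ≠ 0 := by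
        intro h0
        exact hpn ((map_eq_zero (σ ^ (N - n))).mp h0)
      set h : F[X] := C b * (X ^ (N - n) * p.map (σ ^ (N - n))) with hh
      have hdeg : h.degree ≤ N := by
        rw [hh]
        refine (degree_mul_le _ _).trans ?_
        have h0 : (C b : F[X]).degree ≤ 0 := degree_C_le
        refine (add_le_add_left h0 _).trans ?_
        rw [zero_add, degree_mul, degree_X_pow]
        have : (p.map (σ ^ (N - n))).degree ≤ n := by
          rw [degree_map, hp]
        calc ((N - n : ℕ) : WithBot ℕ) + (p.map (σ ^ (N - n))).degree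
            ≤ ((N - n : ℕ) : WithBot ℕ) + (n : WithBot ℕ) := by gcongr
          _ = (N : WithBot ℕ) := by
            rw [← Nat.cast_add]; congr 1; omega
      have hcoeff : h.coeff N = a := by
        rw [hh, coeff_C_mul]
        have h1 : (X ^ (N - n) * p.map (σ ^ (N - n))).coeff N = (σ ^ (N - n)) (p.coeff n) := by
          have h2 := coeff_X_pow_mul (p.map (σ ^ (N - n))) (N - n) n
          rwa [Nat.add_sub_cancel' hNn, coeff_map] at h2
        rw [h1, hb]
        field_simp
      have hlt : (f - h).degree < N := by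
        rw [degree_lt_iff_coeff_zero]
        intro m hm
        rw [coeff_sub]
        rcases Nat.lt_or_ge N m with h1 | h1
        · have h2 : f.coeff m = 0 := coeff_eq_zero_of_degree_lt
            (lt_of_lt_of_le hf (by exact_mod_cast h1))
          have h3 : h.coeff m = 0 := coeff_eq_zero_of_degree_lt
            (lt_of_le_of_lt hdeg (by exact_mod_cast h1))
          rw [h2, h3, sub_zero]
        · have : m = N := le_antisymm h1 hm
          subst this
          rw [hcoeff, sub_self]
      obtain ⟨q, r, hr, hq, heq⟩ := ih (f - h) hlt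
      refine ⟨q + C b * X ^ (N - n), r, hr, ?_, ?_⟩
      · refine lt_of_le_of_lt (degree_add_le _ _) (max_lt ?_ ?_)
        · refine lt_of_lt_of_le hq ?_
          exact_mod_cast (by omega : N - n ≤ N + 1 - n)
        · refine lt_of_le_of_lt (degree_C_mul_X_pow_le _ _) ?_
          exact_mod_cast (by omega : N - n < N + 1 - n)
      · have h1 : f.eval₂ γ x = (f - h).eval₂ γ x + h.eval₂ γ x := by
          rw [← eval₂_add, sub_add_cancel]
        rw [h1, heq, hh, eval₂_C_mul', ← x_pow_mul_eval₂ γ σ x hx, eval₂_add, add_mul,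
          eval₂_C_mul', eval₂_X_pow, mul_assoc]
        abel

include hx in
/-- `p`-adic expansions. -/
lemma exists_expansion (n : ℕ) (hn : n ≠ 0) (p : F[X]) (hp : p.degree = n) (N : ℕ) (f : F[X])
    (hf : f.degree < N) :
    ∃ m : ℕ, ∃ c : ℕ → F[X], (∀ i, (c i).degree < n) ∧
      f.eval₂ γ x = ∑ i ∈ Finset.range m, (c i).eval₂ γ x * (p.eval₂ γ x) ^ i := by
  induction N using Nat.strong_induction_on generalizing f with
  | _ N ih =>
    by_cases hNn : N ≤ n
    · refine ⟨1, fun _ => f, fun _ => lt_of_lt_of_le hf (by exact_mod_cast hNn), by simp⟩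
    · push Not at hNn
      obtain ⟨q, r, hr, hq, heq⟩ := exists_div γ σ x hx n p hp N f hf
      obtain ⟨m, c, hc, hsum⟩ := ih (N - n) (by omega) q hq
      refine ⟨m + 1, fun i => if i = 0 then r else c (i - 1), ?_, ?_⟩
      · intro i
        dsimp only
        split_ifs
        · exact hr
        · exact hc _
      · rw [heq, Finset.sum_range_succ', hsum, Finset.sum_mul]
        simp [pow_succ, mul_assoc]


/-- Every normalised element of a subfield containing the uniformiser has residue in the
residue field of the subfield. -/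
lemma isAlgebraic_resField_of_mem {γ : F →+* E} {f : F} {c : K} (h : P.Res (γ f) c) :
    IsAlgebraic (P.resField γ) c :=
  isAlgebraic_algebraMap (⟨c, f, h⟩ : P.resField γ)

include hx in
/-- **Ruled residue theorem.**  Let `E` be a division ring with a discrete place `P` with central
uniformiser, generated as a ring of fractions by skew polynomials `∑ γ(aᵢ) xⁱ` over a commutative
field `F` containing the uniformiser.  If the (surjective) residue field `K` is not algebraic over
the residue field `κ` of `F`, then `K = L(z)` with `L` the algebraic closure of `κ` in `K` and `z`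
transcendental over `κ`. -/
theorem ruled (τ : F) (hτ : γ τ = P.t)
    (hfrac : ∀ e : E, ∃ p q : F[X], q.eval₂ γ x ≠ 0 ∧ q.eval₂ γ x * e = p.eval₂ γ x)
    (hsurj : ∀ c : K, ∃ e, P.Res e c)
    (hna : ¬ ∀ c : K, IsAlgebraic (P.resField γ) c) :
    ∃ z : K, Transcendental (P.resField γ) z ∧
      ∀ c : K, ∃ H₁ H₂ : (algebraicClosure (P.resField γ) K)[X],
        aeval z H₂ ≠ 0 ∧ c * aeval z H₂ = aeval z H₁ := by
  classical
  have hτzpow : ∀ (n : ℤ) (p : F[X]), P.t ^ n * p.eval₂ γ x = (C (τ ^ n) * p).eval₂ γ x := by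
    intro n p
    rw [eval₂_C_mul', map_zpow₀, hτ]
  set κ := P.resField γ with hκ
  -- the property that all residues of polynomials of degree `< n` are algebraic
  let A : ℕ → Prop := fun n => ∀ p : F[X], p.degree < n → ∀ c, P.Res (p.eval₂ γ x) c →
    IsAlgebraic κ c
  have hA0 : A 0 := by
    intro p hp c hc
    have : p = 0 := by
      by_contra h
      exact absurd hp (not_lt.mpr (by simpa using zero_le_degree_iff.mpr h))
    subst this
    rw [eval₂_zero] at hc
    rw [P.uniq hc P.res_zero]
    exact isAlgebraic_zero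
  have hAex : ∃ n, ¬ A n := by
    by_contra hall
    push Not at hall
    apply hna
    intro c
    obtain ⟨e, he⟩ := hsurj c
    by_cases hc : c = 0
    · rw [hc]; exact isAlgebraic_zero
    obtain ⟨p, q, hq, heq⟩ := hfrac e
    obtain ⟨n, d, hd, hnd⟩ := P.norm _ hq
    have h1 := P.res_mul hnd he
    rw [mul_assoc, heq, hτzpow] at h1
    rw [hτzpow] at hnd
    have h2 := hall ((C (τ ^ n) * p).natDegree + 1) _
      (by
        rcases eq_or_ne (C (τ ^ n) * p) 0 with h0 | h0
        · rw [h0]; simp
        · exact (natDegree_lt_iff_degree_lt h0).mp (by omega)) _ h1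
    have h3 := hall ((C (τ ^ n) * q).natDegree + 1) _
      (by
        rcases eq_or_ne (C (τ ^ n) * q) 0 with h0 | h0
        · rw [h0]; simp
        · exact (natDegree_lt_iff_degree_lt h0).mp (by omega)) _ hnd
    have h4 := h3.inv.mul h2
    rwa [← mul_assoc, inv_mul_cancel₀ hd, one_mul] at h4
  obtain ⟨n, hn, hAn, hAn'⟩ : ∃ n, n ≠ 0 ∧ A n ∧ ¬ A (n + 1) := by
    have h1 := Nat.find_spec hAex
    set m := Nat.find hAex with hm
    have hm0 : m ≠ 0 := fun h0 => h1 (by rw [h0]; exact hA0)
    have h2 : A (m - 1) := by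
      by_contra hcon
      exact absurd (Nat.find_min' hAex hcon) (by omega)
    refine ⟨m - 1, ?_, h2, by rwa [Nat.sub_add_cancel (Nat.one_le_iff_ne_zero.mpr hm0)]⟩
    intro h3
    have h4 : m = 1 := by omega
    rw [h4] at h1
    apply h1
    intro p hp c hc
    have h5 : p = C (p.coeff 0) := eq_C_of_degree_le_zero (Nat.WithBot.lt_one_iff_le_zero.mp (by simpa using hp))
    rw [h5, eval₂_C] at hc
    exact P.isAlgebraic_resField_of_mem hc
  have hex : ∃ p : F[X], p.degree < (n + 1 : ℕ) ∧ ∃ z, P.Res (p.eval₂ γ x) z ∧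
      Transcendental κ z := by
    by_contra hcon
    apply hAn'
    intro p hp c hc
    by_contra hna2
    exact hcon ⟨p, hp, c, hc, hna2⟩
  obtain ⟨p, hpdeg, z, hz, hztr⟩ := hex
  have hpn : p.degree = n := by
    have hle : p.degree ≤ n := by
      rw [degree_le_iff_coeff_zero]
      intro m hm
      exact coeff_eq_zero_of_degree_lt (lt_of_lt_of_le hpdeg (by exact_mod_cast hm))
    refine le_antisymm hle ?_
    by_contra hlt
    push Not at hlt
    exact hztr (hAn p hlt z hz)
  have hztr' : Transcendental (algebraicClosure κ K) z := hztr.algebraicClosure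
  -- residues of normalised polynomials
  have main : ∀ f : F[X], f.eval₂ γ x ≠ 0 → ∃ J : ℤ, ∃ H : (algebraicClosure κ K)[X],
      H ≠ 0 ∧ P.Res (P.t ^ J * f.eval₂ γ x) (aeval z H) := by
    intro f hf
    obtain ⟨m, c, hc, hsum⟩ := exists_expansion γ σ x hx n hn p hpn (f.natDegree + 1) f
      (by
        rcases eq_or_ne f 0 with h0 | h0
        · rw [h0]; simp
        · exact (natDegree_lt_iff_degree_lt h0).mp (by omega))
    have hne : ∃ i ∈ Finset.range m, (c i).eval₂ γ x ≠ 0 := by
      by_contra hcon
      push Not at hcon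
      apply hf
      rw [hsum]
      exact Finset.sum_eq_zero fun i hi => by rw [hcon i hi, zero_mul]
    obtain ⟨J, l, hl, i₀, hi₀, hli₀⟩ := P.simnorm (Finset.range m) (fun i => (c i).eval₂ γ x) hne
    have hlalg : ∀ i ∈ Finset.range m, l i ∈ algebraicClosure κ K := by
      intro i hi
      rw [mem_algebraicClosure_iff]
      have h1 := hl i hi
      rw [hτzpow] at h1
      refine hAn _ ?_ _ h1
      refine lt_of_le_of_lt (degree_mul_le _ _) ?_
      have h0 : (C (τ ^ J) : F[X]).degree ≤ 0 := degree_C_le
      refine lt_of_le_of_lt (add_le_add_left h0 _) ?_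
      rw [zero_add]
      exact hc i
    let H : (algebraicClosure κ K)[X] := ∑ i ∈ (Finset.range m).attach,
      monomial i.1 (⟨l i.1, hlalg i.1 i.2⟩ : algebraicClosure κ K)
    refine ⟨J, H, ?_, ?_⟩
    · intro h0
      have h1 : H.coeff i₀ = (⟨l i₀, hlalg i₀ hi₀⟩ : algebraicClosure κ K) := by
        simp only [H, finsetSum_coeff, coeff_monomial]
        rw [Finset.sum_eq_single (⟨i₀, hi₀⟩ : {x // x ∈ Finset.range m})]
        · simp
        · intro b _ hb
          rw [if_neg]
          intro h2
          exact hb (Subtype.ext h2)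
        · intro h2
          exact absurd (Finset.mem_attach _ _) h2
      rw [h0, coeff_zero] at h1
      exact hli₀ (congrArg Subtype.val h1).symm
    · have h1 : aeval z H = ∑ i ∈ Finset.range m, l i * z ^ i := by
        simp only [H, map_sum, aeval_monomial]
        rw [← Finset.sum_attach (Finset.range m)]
        rfl
      rw [h1, hsum, Finset.mul_sum]
      refine P.res_sum _ _ _ fun i hi => ?_
      rw [← mul_assoc]
      exact P.res_mul (hl i hi) (P.res_pow hz i)
  refine ⟨z, hztr, fun c => ?_⟩
  by_cases hc : c = 0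
  · exact ⟨0, 1, by simp, by simp [hc]⟩
  obtain ⟨e, he⟩ := hsurj c
  have he0 := P.ne_zero_of_res he hc
  obtain ⟨a, b, hb, hab⟩ := hfrac e
  have ha : a.eval₂ γ x ≠ 0 := by
    rw [← hab]
    exact mul_ne_zero hb he0
  obtain ⟨J₁, H₁, hH₁, hr₁⟩ := main a ha
  obtain ⟨J₂, H₂, hH₂, hr₂⟩ := main b hb
  have hz1 : aeval z H₁ ≠ 0 := fun h => hztr' ⟨H₁, hH₁, h⟩
  have hz2 : aeval z H₂ ≠ 0 := fun h => hztr' ⟨H₂, hH₂, h⟩
  have h5 := P.res_mul hr₂ he
  rw [mul_assoc, hab] at h5
  have hJ : J₂ = J₁ := P.norm_unique h5 (mul_ne_zero hz2 hc) hr₁ hz1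
  subst hJ
  refine ⟨H₁, H₂, hz2, ?_⟩
  rw [mul_comm]
  exact P.uniq h5 hr₁

end

end Place

end Pool.Agent.WeylSub
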