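import Mathlib
import Pool.Agent.WeylSub.Core
import Pool.Agent.WeylSub.Ruled

/-!
# The subfield `F₀ = Frac Λ[θ]` of `E`, centralisers and centres
-/

set_option linter.unusedSectionVars false
set_option linter.style.haveILetI false

namespace Pool.Agent.WeylSub

open Polynomial

section ext

variable {R : Type} [CommRing R] [IsDomain R] {E : Type} [DivisionRing E]

/-- An injective ring homomorphism from a commutative domain to a division ring extends to the
field of fractions. -/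
theorem exists_ext (ι : R →+* E) (h : ∀ r, r ≠ 0 → ι r ≠ 0) :
    ∃ γ : FractionRing R →+* E, ∀ r, γ (algebraMap R _ r) = ι r := by
  let fS : nonZeroDivisors R →* Units E :=
    { toFun := fun s => Units.mk0 (ι s) (h s (nonZeroDivisors.ne_zero s.2))
      map_one' := by ext; simp
      map_mul' := fun a b => by ext; simp }
  refine ⟨OreLocalization.universalHom ι fS (fun s => rfl), fun r => ?_⟩
  exact OreLocalization.universalHom_commutes (f := ι) (fS := fS) (hf := fun s => rfl)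

end ext

namespace Core

variable {Λ : Type} [CommRing Λ] [IsDomain Λ] {π : Λ} {E : Type} [DivisionRing E]
variable (S : Core Λ π E)

lemma ι_ne {r : Λ[X]} (hr : r ≠ 0) : S.ι r ≠ 0 := by
  intro h
  have := S.indep (C r) (by rw [eval₂_C, h])
  exact hr (C_eq_zero.mp this)

/-- The embedding of `F₀ = Frac Λ[θ]` in `E`. -/
noncomputable def γ : FractionRing Λ[X] →+* E :=
  (exists_ext S.ι fun _ hr => S.ι_ne hr).choose

lemma γ_algebraMap (r : Λ[X]) : S.γ (algebraMap _ _ r) = S.ι r :=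
  (exists_ext S.ι fun _ hr => S.ι_ne hr).choose_spec r

variable (Λ π) in
/-- The shift of `F₀`. -/
noncomputable def σ : FractionRing Λ[X] ≃+* FractionRing Λ[X] :=
  IsFractionRing.ringEquivOfRingEquiv (taylorEquiv π).toRingEquiv

variable (Λ π) in
lemma σ_algebraMap (r : Λ[X]) :
    σ Λ π (algebraMap Λ[X] _ r) = algebraMap _ _ (taylor π r) := by
  rw [σ, IsFractionRing.ringEquivOfRingEquiv_algebraMap]
  rfl

lemma x_mul_γ (f : FractionRing Λ[X]) : S.x * S.γ f = S.γ (σ Λ π f) * S.x := by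
  obtain ⟨a, b, hb, rfl⟩ := IsFractionRing.div_surjective (A := Λ[X]) f
  have hb0 : b ≠ 0 := nonZeroDivisors.ne_zero hb
  have hb1 : taylor π b ≠ 0 := by
    intro h
    exact hb0 (taylor_injective π (by rw [h, map_zero]))
  rw [map_div₀, map_div₀, map_div₀, γ_algebraMap, γ_algebraMap, σ_algebraMap, σ_algebraMap,
    γ_algebraMap, γ_algebraMap]
  have h1 : S.x * (S.ι b)⁻¹ = (S.ι (taylor π b))⁻¹ * S.x := by
    have h2 := S.x_mul b
    have hb2 := S.ι_ne hb0
    have hb3 := S.ι_ne hb1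
    calc S.x * (S.ι b)⁻¹ = (S.ι (taylor π b))⁻¹ * (S.ι (taylor π b) * S.x) * (S.ι b)⁻¹ := by
          rw [← mul_assoc (S.ι (taylor π b))⁻¹, inv_mul_cancel₀ hb3, one_mul]
      _ = _ := by rw [← h2, mul_assoc, mul_assoc, mul_inv_cancel₀ hb2, mul_one]
  have h3 : S.ι a / S.ι b = (S.ι b)⁻¹ * S.ι a := by
    rw [div_eq_mul_inv]
    have h4 : S.ι a * S.ι b = S.ι b * S.ι a := by rw [← map_mul, ← map_mul, mul_comm]
    have hb2 := S.ι_ne hb0
    calc S.ι a * (S.ι b)⁻¹ = (S.ι b)⁻¹ * (S.ι b * S.ι a) * (S.ι b)⁻¹ := by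
          rw [← mul_assoc, inv_mul_cancel₀ hb2, one_mul]
      _ = _ := by rw [← h4, mul_assoc, mul_assoc, mul_inv_cancel₀ hb2, mul_one]
  have h5 : S.ι (taylor π a) / S.ι (taylor π b) = (S.ι (taylor π b))⁻¹ * S.ι (taylor π a) := by
    rw [div_eq_mul_inv]
    have h4 : S.ι (taylor π a) * S.ι (taylor π b) = S.ι (taylor π b) * S.ι (taylor π a) := by
      rw [← map_mul S.ι, ← map_mul S.ι, mul_comm (taylor π a)]
    have hb2 := S.ι_ne hb1
    calc S.ι (taylor π a) * (S.ι (taylor π b))⁻¹ =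
        (S.ι (taylor π b))⁻¹ * (S.ι (taylor π b) * S.ι (taylor π a)) * (S.ι (taylor π b))⁻¹ := by
          rw [← mul_assoc, inv_mul_cancel₀ hb2, one_mul]
      _ = _ := by rw [← h4, mul_assoc, mul_assoc, mul_inv_cancel₀ hb2, mul_one]
  rw [h3, h5, ← mul_assoc, h1, mul_assoc, S.x_mul, ← mul_assoc]

/-- clearing denominators in a finite family of elements of `F₀` -/
lemma clear (p : (FractionRing Λ[X])[X]) :
    ∃ b : Λ[X], b ≠ 0 ∧ ∃ P : Λ[X][X], P.map (algebraMap Λ[X] (FractionRing Λ[X])) =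
      C (algebraMap _ _ b) * p := by
  obtain ⟨b, hb, h⟩ := IsLocalization.integerNormalization_spec (nonZeroDivisors Λ[X]) p
  refine ⟨b, nonZeroDivisors.ne_zero hb, _, h.trans ?_⟩
  ext n : 1
  rw [coeff_smul, coeff_C_mul, Algebra.smul_def]

lemma eval₂_map_ι (P : Λ[X][X]) :
    (P.map (algebraMap Λ[X] (FractionRing Λ[X]))).eval₂ S.γ S.x = P.eval₂ S.ι S.x := by
  rw [eval₂_map]
  congr 1
  exact RingHom.ext fun r => S.γ_algebraMap r

lemma indep₀ (p : (FractionRing Λ[X])[X]) (hp : p.eval₂ S.γ S.x = 0) : p = 0 := by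
  obtain ⟨b, hb, P, hP⟩ := clear p
  have h1 : P.eval₂ S.ι S.x = 0 := by
    rw [← eval₂_map_ι, hP, Place.eval₂_C_mul', hp, mul_zero]
  have h2 := S.indep P h1
  rw [h2, Polynomial.map_zero] at hP
  have h3 := mul_eq_zero.mp hP.symm
  rcases h3 with h3 | h3
  · rw [C_eq_zero, IsFractionRing.to_map_eq_zero_iff] at h3
    exact absurd h3 hb
  · exact h3

lemma frac₀ (e : E) : ∃ p q : (FractionRing Λ[X])[X], q.eval₂ S.γ S.x ≠ 0 ∧
    q.eval₂ S.γ S.x * e = p.eval₂ S.γ S.x := by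
  obtain ⟨p, q, hq, h⟩ := S.frac e
  refine ⟨p.map (algebraMap _ _), q.map (algebraMap _ _), ?_, ?_⟩
  · rw [eval₂_map_ι]
    exact fun h0 => hq (S.indep q h0)
  · rw [eval₂_map_ι, eval₂_map_ι, h]

variable (Λ π) in
/-- the shift as a ring homomorphism -/
noncomputable def σh : FractionRing Λ[X] →+* FractionRing Λ[X] := (σ Λ π).toRingHom

lemma x_mul_γh (f : FractionRing Λ[X]) : S.x * S.γ f = S.γ (σh Λ π f) * S.x := S.x_mul_γ f

lemma x_pow_mul_γ (n : ℕ) (f : FractionRing Λ[X]) :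
    S.x ^ n * S.γ f = S.γ ((σh Λ π ^ n) f) * S.x ^ n := by
  induction n generalizing f with
  | zero => simp
  | succ n ih =>
    rw [pow_succ, mul_assoc, x_mul_γh, ← mul_assoc, ih, mul_assoc, ← pow_succ]
    congr 2

lemma σh_pow_surjective (n : ℕ) : Function.Surjective ((σh Λ π ^ n)) := by
  rw [RingHom.coe_pow]
  exact Function.Surjective.iterate (σ Λ π).surjective n

lemma σh_pow_algebraMap (n : ℕ) (r : Λ[X]) :
    (σh Λ π ^ n) (algebraMap _ _ r) = algebraMap _ _ (taylor (n * π) r) := by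
  induction n with
  | zero => simp
  | succ n ih =>
    rw [pow_succ', RingHom.mul_def, RingHom.comp_apply, ih]
    change σ Λ π _ = _
    rw [σ_algebraMap, taylor_taylor]
    congr 2
    push_cast
    ring_nf

/-- twisting a polynomial by `q₀` -/
noncomputable def tw (q₀ : FractionRing Λ[X]) (p : (FractionRing Λ[X])[X]) :
    (FractionRing Λ[X])[X] :=
  ∑ i ∈ Finset.range (p.natDegree + 1), monomial i (p.coeff i * (σh Λ π ^ i) q₀)

lemma coeff_tw (q₀ : FractionRing Λ[X]) (p : (FractionRing Λ[X])[X]) (i : ℕ) :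
    (tw (π := π) q₀ p).coeff i = p.coeff i * (σh Λ π ^ i) q₀ := by
  rw [tw, finsetSum_coeff]
  simp only [coeff_monomial]
  rw [Finset.sum_ite_eq' (Finset.range (p.natDegree + 1)) i]
  split_ifs with h
  · rfl
  · rw [Finset.mem_range, not_lt] at h
    rw [coeff_eq_zero_of_natDegree_lt (by omega), zero_mul]

lemma eval₂_tw (q₀ : FractionRing Λ[X]) (p : (FractionRing Λ[X])[X]) :
    (tw (π := π) q₀ p).eval₂ S.γ S.x = p.eval₂ S.γ S.x * S.γ q₀ := by
  rw [tw, eval₂_finsetSum, eval₂_eq_sum_range, Finset.sum_mul]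
  refine Finset.sum_congr rfl fun i _ => ?_
  rw [eval₂_monomial, map_mul, mul_assoc, ← x_pow_mul_γ, mul_assoc]

theorem mem_range_γ_of_comm (q₀ : FractionRing Λ[X])
    (hq₀ : ∀ i j : ℕ, i ≠ j → (σh Λ π ^ i) q₀ ≠ (σh Λ π ^ j) q₀) (e : E)
    (he : e * S.γ q₀ = S.γ q₀ * e) : ∃ f, S.γ f = e := by
  classical
  have hex : ∃ n : ℕ, ∃ p q : (FractionRing Λ[X])[X], q ≠ 0 ∧ q.natDegree = n ∧
      q.eval₂ S.γ S.x * e = p.eval₂ S.γ S.x := by
    obtain ⟨p, q, hq, h⟩ := S.frac₀ e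
    exact ⟨q.natDegree, p, q, by rintro rfl; simp at hq, rfl, h⟩
  obtain ⟨p, q, hq0, hqn, h⟩ := Nat.find_spec hex
  have hmin : ∀ p' q' : (FractionRing Λ[X])[X], q' ≠ 0 →
      q'.eval₂ S.γ S.x * e = p'.eval₂ S.γ S.x → q.natDegree ≤ q'.natDegree := by
    intro p' q' h1 h2
    rw [hqn]
    exact Nat.find_min' hex ⟨p', q', h1, rfl, h2⟩
  set n := q.natDegree with hn
  set s := (σh Λ π ^ n) q₀ with hs
  have key : (C s * q - tw (π := π) q₀ q).eval₂ S.γ S.x * e =
      (C s * p - tw (π := π) q₀ p).eval₂ S.γ S.x := by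
    rw [eval₂_sub, eval₂_sub, eval₂_tw, eval₂_tw, Place.eval₂_C_mul', Place.eval₂_C_mul', sub_mul,
      mul_assoc, h, mul_assoc, ← he, ← mul_assoc, h]
  have hcf : ∀ (r : (FractionRing Λ[X])[X]) (i : ℕ),
      (C s * r - tw (π := π) q₀ r).coeff i = r.coeff i * (s - (σh Λ π ^ i) q₀) := by
    intro r i
    rw [coeff_sub, coeff_C_mul, coeff_tw]
    ring
  have hq' : C s * q - tw (π := π) q₀ q = 0 := by
    by_contra hne
    have h1 := hmin _ _ hne key
    have h2 : (C s * q - tw (π := π) q₀ q).leadingCoeff ≠ 0 := leadingCoeff_ne_zero.mpr hne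
    rw [leadingCoeff, hcf] at h2
    rcases h1.lt_or_eq with h3 | h3
    · rw [coeff_eq_zero_of_natDegree_lt h3, zero_mul] at h2
      exact h2 rfl
    · rw [← h3, ← hs, sub_self, mul_zero] at h2
      exact h2 rfl
  have hp' : C s * p - tw (π := π) q₀ p = 0 := by
    refine S.indep₀ _ ?_
    rw [← key, hq', eval₂_zero, zero_mul]
  have hmono : ∀ r : (FractionRing Λ[X])[X], C s * r - tw (π := π) q₀ r = 0 →
      r = monomial n (r.coeff n) := by
    intro r hr
    ext i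
    rw [coeff_monomial]
    split_ifs with hi
    · rw [hi]
    · have h1 := hcf r i
      rw [hr, coeff_zero] at h1
      rcases mul_eq_zero.mp h1.symm with h2 | h2
      · exact h2
      · exact absurd (sub_eq_zero.mp h2) (hq₀ n i hi)
  have hq1 := hmono q hq'
  have hp1 := hmono p hp'
  have hqc : q.coeff n ≠ 0 := by
    intro h0
    rw [h0, monomial_zero_right] at hq1
    exact hq0 hq1
  obtain ⟨f, hf⟩ := σh_pow_surjective (Λ := Λ) (π := π) n ((q.coeff n)⁻¹ * p.coeff n)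
  refine ⟨f, ?_⟩
  have hxn : S.x ^ n ≠ 0 := pow_ne_zero _ S.x_ne
  have hqγ : S.γ (q.coeff n) ≠ 0 := by rwa [Ne, map_eq_zero]
  refine mul_left_cancel₀ hxn (mul_left_cancel₀ hqγ ?_)
  rw [x_pow_mul_γ, hf, ← mul_assoc, ← map_mul, ← mul_assoc, mul_inv_cancel₀ hqc, one_mul]
  rw [hq1, hp1, eval₂_monomial, eval₂_monomial] at h
  rw [← mul_assoc, h]

lemma fixed_of_σh [CharZero Λ] (hπ0 : π ≠ 0) (f : FractionRing Λ[X]) (hf : σh Λ π f = f) :
    ∃ a b : Λ, b ≠ 0 ∧ f = algebraMap Λ[X] _ (C a) / algebraMap Λ[X] _ (C b) := by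
  obtain ⟨r, s, hs, rfl⟩ := IsFractionRing.div_surjective (A := Λ[X]) f
  have hs0 : s ≠ 0 := nonZeroDivisors.ne_zero hs
  have h1 : ∀ n : ℕ, (σh Λ π ^ n) (algebraMap Λ[X] _ r / algebraMap Λ[X] _ s) =
      algebraMap Λ[X] _ r / algebraMap Λ[X] _ s := by
    intro n
    induction n with
    | zero => simp
    | succ n ih => rw [pow_succ', RingHom.mul_def, RingHom.comp_apply, ih, hf]
  have halg : ∀ u : Λ[X], u ≠ 0 → algebraMap Λ[X] (FractionRing Λ[X]) u ≠ 0 := fun u hu => by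
    rwa [Ne, IsFractionRing.to_map_eq_zero_iff]
  have h2 : ∀ n : ℕ, taylor (n * π) r * s = r * taylor (n * π) s := by
    intro n
    have h3 := h1 n
    rw [map_div₀, σh_pow_algebraMap, σh_pow_algebraMap, div_eq_div_iff, ← map_mul, ← map_mul] at h3
    · exact IsFractionRing.injective Λ[X] (FractionRing Λ[X]) h3
    · refine halg _ fun h0 => hs0 (taylor_injective _ (by rw [h0, map_zero]))
    · exact halg _ hs0
  obtain ⟨m, hm⟩ : ∃ m : Λ, s.eval m ≠ 0 := by
    by_contra! h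
    exact hs0 (Polynomial.funext fun r => by rw [h r, eval_zero])
  have h4 : C (s.eval m) * r - C (r.eval m) * s = 0 := by
    refine eq_zero_of_infinite_isRoot _ ?_
    refine Set.infinite_of_injective_forall_mem (f := fun n : ℕ => m + n * π) ?_ ?_
    · intro i j hij
      have h5 : (i : Λ) * π = j * π := add_left_cancel hij
      exact_mod_cast mul_right_cancel₀ hπ0 h5
    · intro n
      have h5 := congrArg (eval m) (h2 n)
      rw [eval_mul, eval_mul, taylor_eval, taylor_eval] at h5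
      change eval _ _ = 0
      rw [eval_sub, eval_mul, eval_mul, eval_C, eval_C]
      rw [sub_eq_zero, mul_comm (s.eval m), h5]
  refine ⟨r.eval m, s.eval m, hm, ?_⟩
  rw [div_eq_div_iff (halg _ hs0) (halg _ (by rwa [Ne, C_eq_zero])), ← map_mul, ← map_mul]
  congr 1
  rw [mul_comm r]
  exact sub_eq_zero.mp h4

/-- `(2θ + π)²` -/
noncomputable def q₀ (Λ : Type) [CommRing Λ] (π : Λ) : Λ[X] := (2 * X + C π) ^ 2

lemma q₀_shift [CharZero Λ] (hπ0 : π ≠ 0) (i j : ℕ) (hij : i ≠ j) :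
    (σh Λ π ^ i) (algebraMap Λ[X] _ (q₀ Λ π)) ≠ (σh Λ π ^ j) (algebraMap Λ[X] _ (q₀ Λ π)) := by
  rw [σh_pow_algebraMap, σh_pow_algebraMap]
  intro h
  have h1 := IsFractionRing.injective Λ[X] (FractionRing Λ[X]) h
  simp only [taylor_apply, q₀, pow_comp, add_comp, mul_comp, ofNat_comp, X_comp, C_comp,
    Nat.cast_ofNat] at h1
  have h2 := congrArg (fun p => coeff p 1) h1
  have h3 : ∀ m : ℕ, (((2 : Λ[X]) * (X + C ((m : Λ) * π)) + C π) ^ 2) =
      C 4 * X ^ 2 + C (4 * (2 * m + 1) * π) * X + C ((2 * m + 1) ^ 2 * π ^ 2) := by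
    intro m
    simp only [map_add, map_mul, map_pow, map_natCast, map_ofNat, map_one]
    ring

  simp only [h3, coeff_add, coeff_C_mul, coeff_X_pow, coeff_X, coeff_C] at h2
  norm_num at h2
  rcases h2 with h2 | h2
  · exact hij (by exact_mod_cast h2)
  · exact hπ0 h2

/-- An element commuting with `(2θ+π)²` and with `x + g x⁻¹` is a constant. -/
theorem const_of_comm [CharZero Λ] (hπ0 : π ≠ 0) (g : Λ[X]) (e : E)
    (h1 : e * S.ι (q₀ Λ π) = S.ι (q₀ Λ π) * e)
    (h2 : e * (S.x + S.ι g * S.x⁻¹) = (S.x + S.ι g * S.x⁻¹) * e) :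
    ∃ a b : Λ, b ≠ 0 ∧ S.ι (C b) * e = S.ι (C a) := by
  obtain ⟨f, rfl⟩ := S.mem_range_γ_of_comm (algebraMap _ _ (q₀ Λ π)) (q₀_shift hπ0) e
    (by rw [γ_algebraMap]; exact h1)
  have hσ : σh Λ π f = f := by
    obtain ⟨f', hf'⟩ := (σ Λ π).surjective f
    have hxf : S.γ f * S.x = S.x * S.γ f' := by rw [x_mul_γ, hf']
    have h3 := congrArg (fun z => z * S.x) h2
    simp only [mul_add, add_mul] at h3
    have h4 : S.γ f * (S.ι g * S.x⁻¹) * S.x = S.γ (f * algebraMap _ _ g) := by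
      rw [map_mul, γ_algebraMap, mul_assoc, mul_assoc, inv_mul_cancel₀ S.x_ne, mul_one]
    have h5 : S.ι g * S.x⁻¹ * S.γ f * S.x = S.γ (algebraMap _ _ g * f') := by
      rw [map_mul, γ_algebraMap, mul_assoc, mul_assoc, hxf, ← mul_assoc S.x⁻¹,
        inv_mul_cancel₀ S.x_ne, one_mul]
    have h6 : S.x * S.γ f * S.x = S.γ (σh Λ π f) * S.x ^ 2 := by
      rw [x_mul_γh, mul_assoc, sq]
    have h7 : S.γ f * S.x * S.x = S.γ f * S.x ^ 2 := by rw [mul_assoc, sq]
    rw [h4, h5, h6, h7] at h3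
    have h8 : (C (f - σh Λ π f) * X ^ 2 + C (f * algebraMap _ _ g - algebraMap _ _ g * f') :
        (FractionRing Λ[X])[X]).eval₂ S.γ S.x = 0 := by
      rw [eval₂_add, Place.eval₂_C_mul', eval₂_X_pow, eval₂_C, map_sub, map_sub, sub_mul]
      rw [sub_add_sub_comm, h3, sub_self]
    have h9 := S.indep₀ _ h8
    have h10 := congrArg (fun p => coeff p 2) h9
    simp only [coeff_add, coeff_C_mul, coeff_X_pow, coeff_C, coeff_zero] at h10
    norm_num at h10
    exact (sub_eq_zero.mp h10).symm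
  obtain ⟨a, b, hb, rfl⟩ := fixed_of_σh hπ0 f hσ
  refine ⟨a, b, hb, ?_⟩
  rw [← γ_algebraMap, ← γ_algebraMap, ← map_mul, mul_div_cancel₀]
  rw [Ne, IsFractionRing.to_map_eq_zero_iff, C_eq_zero]
  exact hb

end Core

end Pool.Agent.WeylSub
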