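import Mathlib

/-!
# The first Weyl algebra, quotient division rings, PI division rings
-/

namespace Pool.Agent.WeylSub

/-- The defining relation `x y = y x + 1` of the first Weyl algebra; `x` and `y` are the
generators with index `0` and `1` of the free algebra. -/
inductive WeylRel (k : Type) [Field k] :
    FreeAlgebra k (Fin 2) → FreeAlgebra k (Fin 2) → Prop
  | comm : WeylRel k (FreeAlgebra.ι k 0 * FreeAlgebra.ι k 1)
      (FreeAlgebra.ι k 1 * FreeAlgebra.ι k 0 + 1)

/-- The first Weyl algebra over `k`. -/
abbrev WeylAlg (k : Type) [Field k] : Type := RingQuot (WeylRel k)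

/-- The ring homomorphism `f` makes `Q` a quotient division ring (of left fractions) of `A`. -/
structure IsQuotDiv {A Q : Type} [Ring A] [DivisionRing Q] (f : A →+* Q) : Prop where
  inj : Function.Injective f
  frac : ∀ q : Q, ∃ a s : A, s ≠ 0 ∧ q = (f s)⁻¹ * f a

/-- A division ring is PI if it satisfies a nonzero polynomial identity, with coefficients in
its centre. -/
def IsPI (D : Type) [DivisionRing D] : Prop :=
  ∃ f : FreeAlgebra (Subring.center D) ℕ, f ≠ 0 ∧
    ∀ v : ℕ → D, FreeAlgebra.lift (Subring.center D) v f = 0

/-- The field `k` is the fraction field of a discrete valuation ring whose residue field has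
characteristic different from two, has at least nine elements and contains a nonsquare. -/
def HasGoodDVR (k : Type) [Field k] : Prop :=
  ∃ (O : Type) (_ : CommRing O) (_ : IsDomain O) (_ : IsDiscreteValuationRing O)
    (_ : Algebra O k) (_ : IsFractionRing O k),
    (2 : IsLocalRing.ResidueField O) ≠ 0 ∧ (∃ a : IsLocalRing.ResidueField O, ¬ IsSquare a) ∧
      9 ≤ ENat.card (IsLocalRing.ResidueField O)

end Pool.Agent.WeylSub
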