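import Mathlib
import Pool.Agent.WeylSub.Center
import Pool.Agent.WeylSub.Defs

/-!
# Division rings without polynomial identity
-/

set_option linter.unusedSectionVars false

namespace Pool.Agent.WeylSub

open Polynomial

namespace Core

variable {Λ : Type} [CommRing Λ] [IsDomain Λ] {π : Λ} {E : Type} [DivisionRing E]
variable (S : Core Λ π E)

/-- `e = γ(c) xⁿ +` terms of lower degree. -/
def Lead (n : ℕ) (e : E) (c : FractionRing Λ[X]) : Prop :=
  ∃ N : ℕ, ∃ p : (FractionRing Λ[X])[X], S.x ^ N * e = p.eval₂ S.γ S.x ∧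
    p.natDegree ≤ n + N ∧ p.coeff (n + N) = (σh Λ π ^ N) c

lemma eval₂_X_pow_mul' (p : (FractionRing Λ[X])[X]) (n : ℕ) :
    (X ^ n * p).eval₂ S.γ S.x = p.eval₂ S.γ S.x * S.x ^ n := by
  induction p using Polynomial.induction_on' with
  | add p q hp hq => rw [mul_add, eval₂_add, eval₂_add, hp, hq, add_mul]
  | monomial m a =>
    rw [X_pow_mul_monomial, eval₂_monomial, eval₂_monomial, mul_assoc, ← pow_add]

variable {S}

lemma Lead.shift {n : ℕ} {e : E} {c : FractionRing Λ[X]} {N : ℕ} {p : (FractionRing Λ[X])[X]}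
    (h : S.x ^ N * e = p.eval₂ S.γ S.x ∧ p.natDegree ≤ n + N ∧
      p.coeff (n + N) = (σh Λ π ^ N) c) (M : ℕ) :
    S.x ^ (M + N) * e = (X ^ M * p.map (σh Λ π ^ M)).eval₂ S.γ S.x ∧
    (X ^ M * p.map (σh Λ π ^ M)).natDegree ≤ n + (M + N) ∧
      (X ^ M * p.map (σh Λ π ^ M)).coeff (n + (M + N)) = (σh Λ π ^ (M + N)) c := by
  obtain ⟨h1, h2, h3⟩ := h
  refine ⟨?_, ?_, ?_⟩
  · rw [pow_add, mul_assoc, h1, Place.x_pow_mul_eval₂ S.γ (σh Λ π) S.x S.x_mul_γh]
  · refine (natDegree_mul_le).trans ?_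
    have := natDegree_map_le (f := σh Λ π ^ M) (p := p)
    rw [natDegree_X_pow]
    omega
  · have : n + (M + N) = (n + N) + M := by ring
    rw [this, coeff_X_pow_mul, coeff_map, h3, pow_add]
    rfl

lemma Lead.add {n : ℕ} {e e' : E} {c c' : FractionRing Λ[X]} (h : S.Lead n e c)
    (h' : S.Lead n e' c') : S.Lead n (e + e') (c + c') := by
  obtain ⟨N, p, h1⟩ := h
  obtain ⟨M, q, h2⟩ := h'
  obtain ⟨a1, a2, a3⟩ := Lead.shift h1 M
  obtain ⟨b1, b2, b3⟩ := Lead.shift h2 N
  rw [add_comm N M] at b1 b2 b3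
  refine ⟨M + N, _, ?_, (natDegree_add_le _ _).trans (max_le a2 b2), ?_⟩
  · rw [eval₂_add, mul_add, a1, b1]
  · rw [coeff_add, a3, b3, map_add]

lemma Lead.zero (n : ℕ) : S.Lead n 0 0 := ⟨0, 0, by simp, by simp, by simp⟩

lemma Lead.sum {ι : Type} (s : Finset ι) (n : ℕ) (e : ι → E) (c : ι → FractionRing Λ[X])
    (h : ∀ i ∈ s, S.Lead n (e i) (c i)) : S.Lead n (∑ i ∈ s, e i) (∑ i ∈ s, c i) := by
  classical
  induction s using Finset.induction_on with
  | empty => simpa using Lead.zero n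
  | insert a s ha ih =>
    rw [Finset.sum_insert ha, Finset.sum_insert ha]
    exact (h a (by simp)).add (ih fun i hi => h i (by simp [hi]))

lemma Lead.uniq {n : ℕ} {c : FractionRing Λ[X]} (h : S.Lead n 0 c) : c = 0 := by
  obtain ⟨N, p, h1, h2, h3⟩ := h
  rw [mul_zero] at h1
  rw [S.indep₀ p h1.symm, coeff_zero] at h3
  exact (map_eq_zero _).mp h3.symm

lemma Lead.lower {n m : ℕ} {e : E} {c : FractionRing Λ[X]} (h : S.Lead m e c) (hmn : m < n) :
    S.Lead n e 0 := by
  obtain ⟨N, p, h1, h2, h3⟩ := h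
  refine ⟨N, p, h1, by omega, ?_⟩
  rw [coeff_eq_zero_of_natDegree_lt (by omega), map_zero]

lemma lead_γ (f : FractionRing Λ[X]) : S.Lead 0 (S.γ f) f :=
  ⟨0, C f, by simp, by simp, by simp⟩

lemma skew_mul (p q : (FractionRing Λ[X])[X]) (a b : ℕ) (hp : p.natDegree ≤ a)
    (hq : q.natDegree ≤ b) : ∃ r : (FractionRing Λ[X])[X],
      r.eval₂ S.γ S.x = p.eval₂ S.γ S.x * q.eval₂ S.γ S.x ∧ r.natDegree ≤ a + b ∧
      r.coeff (a + b) = p.coeff a * (σh Λ π ^ a) (q.coeff b) := by
  refine ⟨∑ i ∈ Finset.range (a + 1), C (p.coeff i) * (X ^ i * q.map (σh Λ π ^ i)), ?_, ?_, ?_⟩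
  · rw [eval₂_finsetSum, eval₂_eq_sum_range' _ (lt_of_le_of_lt hp (Nat.lt_succ_self a)),
      Finset.sum_mul]
    refine Finset.sum_congr rfl fun i _ => ?_
    rw [Place.eval₂_C_mul', ← Place.x_pow_mul_eval₂ S.γ (σh Λ π) S.x S.x_mul_γh, mul_assoc]
  · refine natDegree_sum_le_of_forall_le _ _ fun i hi => ?_
    rw [Finset.mem_range] at hi
    refine (natDegree_C_mul_le _ _).trans ((natDegree_mul_le).trans ?_)
    have := natDegree_map_le (f := σh Λ π ^ i) (p := q)
    rw [natDegree_X_pow]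
    omega
  · rw [finsetSum_coeff, Finset.sum_eq_single a]
    · rw [coeff_C_mul, add_comm a b, coeff_X_pow_mul, coeff_map]
    · intro i hi hia
      rw [Finset.mem_range] at hi
      have h1 : a + b = (a - i + b) + i := by omega
      rw [coeff_C_mul, h1, coeff_X_pow_mul, coeff_map,
        coeff_eq_zero_of_natDegree_lt (p := q) (n := a - i + b) (by omega), map_zero, mul_zero]
    · intro h
      exact absurd (Finset.mem_range.mpr (Nat.lt_succ_self a)) h

lemma Lead.mul {n m : ℕ} {e e' : E} {c c' : FractionRing Λ[X]} (h : S.Lead n e c)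
    (h' : S.Lead m e' c') : S.Lead (n + m) (e * e') (c * (σh Λ π ^ n) c') := by
  obtain ⟨N, p, h1, h2, h3⟩ := h
  obtain ⟨M, q, h1', h2', h3'⟩ := h'
  obtain ⟨r, r1, r2, r3⟩ := skew_mul (S := S) (p.map (σh Λ π ^ M)) q (n + N) (m + M)
    ((natDegree_map_le).trans h2) h2'
  refine ⟨M + N, r, ?_, by omega, ?_⟩
  · have h4 : S.x ^ M * p.eval₂ S.γ S.x = (p.map (σh Λ π ^ M)).eval₂ S.γ S.x * S.x ^ M := by
      rw [Place.x_pow_mul_eval₂ S.γ (σh Λ π) S.x S.x_mul_γh, eval₂_X_pow_mul']
    calc S.x ^ (M + N) * (e * e') = S.x ^ M * (S.x ^ N * e) * e' := by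
          rw [pow_add]; simp only [mul_assoc]
      _ = (p.map (σh Λ π ^ M)).eval₂ S.γ S.x * (S.x ^ M * e') := by
          rw [h1, h4, mul_assoc]
      _ = r.eval₂ S.γ S.x := by rw [h1', r1]
  · have h5 : n + m + (M + N) = n + N + (m + M) := by ring
    rw [h5, r3, coeff_map, h3, h3', map_mul]
    congr 1
    · rw [pow_add]; rfl
    · have h6 : ∀ (a b : ℕ) (f : FractionRing Λ[X]),
          (σh Λ π ^ a) ((σh Λ π ^ b) f) = (σh Λ π ^ (a + b)) f := by
        intro a b f; rw [pow_add]; rfl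
      rw [h6, h6]
      congr 2
      omega

lemma lead_gen (f : FractionRing Λ[X]) (g : Λ[X]) :
    S.Lead 1 (S.γ f * (S.x + S.ι g * S.x⁻¹)) f := by
  refine ⟨1, C (σh Λ π f) * (X ^ 2 + C (algebraMap _ _ (taylor π g))), ?_, ?_, ?_⟩
  · rw [Place.eval₂_C_mul', eval₂_add, eval₂_X_pow, eval₂_C, γ_algebraMap, pow_one, ← mul_assoc,
      S.x_mul_γh, mul_assoc, mul_add, ← mul_assoc S.x (S.ι g), S.x_mul, mul_assoc,
      mul_inv_cancel₀ S.x_ne, mul_one, ← sq]
  · refine (natDegree_C_mul_le _ _).trans ?_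
    rw [natDegree_X_pow_add_C]
  · rw [coeff_C_mul, coeff_add, coeff_X_pow, coeff_C]
    norm_num

variable (Λ π) in
/-- the character of a word -/
noncomputable def chiP : List ℕ → (ℕ → ℕ) → Λ[X]
  | [], _ => 1
  | a :: w, e => q₀ Λ π ^ e a * taylor π (chiP w e)

lemma lead_word (g : Λ[X]) (e : ℕ → ℕ) (w : List ℕ) :
    S.Lead w.length ((w.map fun a => S.γ (algebraMap _ _ (q₀ Λ π)) ^ e a *
      (S.x + S.ι g * S.x⁻¹)).prod) (algebraMap _ _ (chiP Λ π w e)) := by
  induction w with
  | nil =>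
    simp only [List.map_nil, List.prod_nil, List.length_nil, chiP, map_one]
    simpa using lead_γ (S := S) 1
  | cons a w ih =>
    rw [List.map_cons, List.prod_cons, List.length_cons, chiP, map_mul, map_pow,
      add_comm w.length 1]
    have h1 := (lead_gen (S := S) (algebraMap _ _ (q₀ Λ π) ^ e a) g).mul ih
    rw [pow_one, map_pow] at h1
    have h2 : σh Λ π (algebraMap _ _ (chiP Λ π w e)) =
        algebraMap _ _ (taylor π (chiP Λ π w e)) := σ_algebraMap Λ π _
    rwa [h2] at h1

section chars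

variable (Λ π) in
lemma chiP_add (w : List ℕ) (e e' : ℕ → ℕ) :
    chiP Λ π w (e + e') = chiP Λ π w e * chiP Λ π w e' := by
  induction w with
  | nil => simp [chiP]
  | cons a w ih =>
    rw [chiP, chiP, chiP, ih, taylor_mul, Pi.add_apply, pow_add]
    ring

variable (Λ π) in
lemma chiP_zero (w : List ℕ) : chiP Λ π w 0 = 1 := by
  induction w with
  | nil => simp [chiP]
  | cons a w ih => rw [chiP, ih]; simp

variable (Λ π) in
/-- the character of a word as a monoid homomorphism -/
noncomputable def chiH (w : List ℕ) : Multiplicative (ℕ → ℕ) →* FractionRing Λ[X] where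
  toFun e := algebraMap _ _ (chiP Λ π w (Multiplicative.toAdd e))
  map_one' := by rw [toAdd_one, chiP_zero, map_one]
  map_mul' a b := by rw [toAdd_mul, chiP_add, map_mul]

variable (Λ π) in
/-- the evaluation points -/
noncomputable def rt (t : ℤ) : FractionRing Λ :=
  -((2 * t + 1) * algebraMap Λ _ π) / 2

lemma eval_chiP [CharZero Λ] (hπ0 : π ≠ 0) (w : List ℕ) (e : ℕ → ℕ) (t : ℤ) :
    (chiP Λ π w e).eval₂ (algebraMap Λ (FractionRing Λ)) (rt Λ π t) = 0 ↔
      ∃ j : ℕ, ∃ h : j < w.length, t = j ∧ e (w[j]'h) ≠ 0 := by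
  have : CharZero (FractionRing Λ) :=
    charZero_of_injective_algebraMap (IsFractionRing.injective Λ (FractionRing Λ))
  have hπ' : algebraMap Λ (FractionRing Λ) π ≠ 0 := by
    rwa [Ne, IsFractionRing.to_map_eq_zero_iff]
  induction w generalizing t with
  | nil =>
    rw [chiP, eval₂_one]
    simp
  | cons a w ih =>
    have h1 : (q₀ Λ π).eval₂ (algebraMap Λ (FractionRing Λ)) (rt Λ π t) =
        4 * (t : FractionRing Λ) ^ 2 * algebraMap Λ _ π ^ 2 := by
      simp only [q₀, eval₂_pow, eval₂_add, eval₂_mul, eval₂_X, eval₂_C, rt]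
      have h2 : eval₂ (algebraMap Λ (FractionRing Λ)) (-((2 * (t : FractionRing Λ) + 1) *
          algebraMap Λ _ π) / 2) 2 = 2 := by
        exact eval₂_ofNat 2 _ _
      rw [h2]
      ring
    have h2 : (taylor π (chiP Λ π w e)).eval₂ (algebraMap Λ (FractionRing Λ)) (rt Λ π t) =
        (chiP Λ π w e).eval₂ (algebraMap Λ (FractionRing Λ)) (rt Λ π (t - 1)) := by
      rw [taylor_apply, eval₂_comp, eval₂_add, eval₂_X, eval₂_C]
      congr 1
      rw [rt, rt]
      push_cast
      ring
    rw [chiP, eval₂_mul, eval₂_pow, h1, h2, mul_eq_zero]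
    refine (or_congr Iff.rfl (ih (t - 1))).trans ?_
    constructor
    · rintro (h | ⟨j, hj, h3, h4⟩)
      · have h3 : e a ≠ 0 := by
          intro h0; rw [h0, pow_zero] at h; exact one_ne_zero h
        rw [pow_eq_zero_iff h3] at h
        refine ⟨0, by simp, ?_, by simpa using h3⟩
        have h4 : (t : FractionRing Λ) ^ 2 = 0 := by
          rcases mul_eq_zero.mp h with h5 | h5
          · rcases mul_eq_zero.mp h5 with h6 | h6
            · exact absurd h6 (by norm_num)
            · exact h6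
          · exact absurd h5 (pow_ne_zero _ hπ')
        rw [pow_eq_zero_iff two_ne_zero] at h4
        exact_mod_cast h4
      · exact ⟨j + 1, by simpa using hj, by push_cast; omega, by simpa using h4⟩
    · rintro ⟨j, hj, h3, h4⟩
      cases j with
      | zero =>
        left
        simp at h3 h4
        rw [h3]
        simp [h4]
      | succ j =>
        right
        exact ⟨j, by simpa using hj, by push_cast at h3; omega, by simpa using h4⟩

lemma chiH_inj [CharZero Λ] (hπ0 : π ≠ 0) (w w' : List ℕ) (hl : w.length = w'.length)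
    (h : chiH Λ π w = chiH Λ π w') : w = w' := by
  classical
  refine List.ext_getElem hl fun j h1 h2 => ?_
  by_contra hne
  set e : ℕ → ℕ := fun a => if a = w[j] then 1 else 0 with he
  have h3 : chiP Λ π w e = chiP Λ π w' e := by
    have := congrArg (fun φ => φ (Multiplicative.ofAdd e)) h
    exact IsFractionRing.injective Λ[X] (FractionRing Λ[X]) this
  have h4 : (chiP Λ π w e).eval₂ (algebraMap Λ (FractionRing Λ)) (rt Λ π j) = 0 :=
    (eval_chiP hπ0 w e j).mpr ⟨j, h1, rfl, by simp [he]⟩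
  rw [h3, eval_chiP hπ0] at h4
  obtain ⟨j', hj', h5, h6⟩ := h4
  have h7 : j = j' := by exact_mod_cast h5
  subst h7
  apply h6
  simp only [he]
  rw [if_neg (fun h => hne h.symm)]

end chars

/-- **Non-PI criterion.** -/
theorem not_isPI (S : Core Λ π E) [CharZero Λ] (hπ0 : π ≠ 0) (g : Λ[X]) (D : Type)
    [DivisionRing D] (s : D →+* E)
    (hs : ∀ n : ℕ, ∃ u : D, s u = S.γ (algebraMap _ _ (q₀ Λ π)) ^ n * (S.x + S.ι g * S.x⁻¹))
    (hz : ∀ z ∈ Subring.center D, ∃ f, S.γ f = s z) : ¬ IsPI D := by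
  classical
  rintro ⟨f, hf, hv⟩
  set R := Subring.center D with hR
  set F : MonoidAlgebra R (FreeMonoid ℕ) := FreeAlgebra.equivMonoidAlgebraFreeMonoid f with hF
  have hF0 : F ≠ 0 := by
    rw [hF, Ne, EmbeddingLike.map_eq_zero_iff]
    exact hf
  have hlift : ∀ v : ℕ → D, FreeAlgebra.lift R v f =
      F.coeff.sum fun a b => b • ((FreeMonoid.toList a).map v).prod := by
    intro v
    have h1 : FreeAlgebra.lift R v =
        (MonoidAlgebra.lift R D (FreeMonoid ℕ) (FreeMonoid.lift v)).comp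
          (FreeAlgebra.equivMonoidAlgebraFreeMonoid (R := R) (X := ℕ)).toAlgHom := by
      apply FreeAlgebra.hom_ext
      funext a
      simp [FreeAlgebra.equivMonoidAlgebraFreeMonoid]
    rw [h1]
    change (MonoidAlgebra.lift R D (FreeMonoid ℕ) (FreeMonoid.lift v)) F = _
    rw [MonoidAlgebra.lift_apply]
    simp only [FreeMonoid.lift_apply]
  have hcoeff0 : F.coeff ≠ 0 := by
    intro h0
    apply hF0
    ext a
    rw [h0]
    rfl
  have hsupp : F.coeff.support.Nonempty := Finsupp.support_nonempty_iff.mpr hcoeff0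
  obtain ⟨w₀, hw₀, hmax⟩ := Finset.exists_max_image F.coeff.support
    (fun w => (FreeMonoid.toList w).length) hsupp
  set n := (FreeMonoid.toList w₀).length with hn
  choose u hu using hs
  choose! fz hfz using hz
  have key : ∀ e : ℕ → ℕ, ∑ w ∈ F.coeff.support.filter
      (fun w => (FreeMonoid.toList w).length = n),
      fz (F.coeff w : R) * algebraMap _ _ (chiP Λ π (FreeMonoid.toList w) e) = 0 := by
    intro e
    have h1 := congrArg s (hv fun a => u (e a))
    rw [hlift, map_zero, Finsupp.sum, map_sum] at h1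
    have h2 : ∀ w ∈ F.coeff.support, S.Lead n
        (s (F.coeff w • ((FreeMonoid.toList w).map fun a => u (e a)).prod))
        (if (FreeMonoid.toList w).length = n then
          fz (F.coeff w : R) * algebraMap _ _ (chiP Λ π (FreeMonoid.toList w) e) else 0) := by
      intro w hw
      have h3 : s (F.coeff w • ((FreeMonoid.toList w).map fun a => u (e a)).prod) =
          S.γ (fz (F.coeff w : R)) * ((FreeMonoid.toList w).map fun a =>
            S.γ (algebraMap _ _ (q₀ Λ π)) ^ e a * (S.x + S.ι g * S.x⁻¹)).prod := by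
        have h4 : F.coeff w • ((FreeMonoid.toList w).map fun a => u (e a)).prod =
            ((F.coeff w : R) : D) * ((FreeMonoid.toList w).map fun a => u (e a)).prod := rfl
        rw [h4, map_mul, hfz _ (F.coeff w).2, map_list_prod, List.map_map]
        congr 2
        refine List.map_congr_left fun a _ => ?_
        rw [Function.comp_apply, hu]
      rw [h3]
      have h5 := (lead_γ (S := S) (fz (F.coeff w : R))).mul
        (lead_word (S := S) g e (FreeMonoid.toList w))
      rw [zero_add] at h5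
      have h6 : (σh Λ π ^ 0) (algebraMap _ _ (chiP Λ π (FreeMonoid.toList w) e)) =
        algebraMap _ _ (chiP Λ π (FreeMonoid.toList w) e) := rfl
      rw [h6] at h5
      split_ifs with h7
      · rwa [h7] at h5
      · exact h5.lower (lt_of_le_of_ne (hmax w hw) h7)
    have h3 := Lead.sum F.coeff.support n _ _ h2
    rw [h1] at h3
    have h4 := h3.uniq
    rw [Finset.sum_filter]
    exact h4
  set T := F.coeff.support.filter (fun w => (FreeMonoid.toList w).length = n) with hT
  have hli := (linearIndependent_monoidHom (Multiplicative (ℕ → ℕ)) (FractionRing Λ[X])).comp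
    (fun w : T => chiH Λ π (FreeMonoid.toList (w : FreeMonoid ℕ))) (by
      intro w w' hww'
      have h1 := (Finset.mem_filter.mp w.2).2
      have h2 := (Finset.mem_filter.mp w'.2).2
      have h3 := chiH_inj hπ0 _ _ (h1.trans h2.symm) hww'
      exact Subtype.ext (FreeMonoid.toList.injective h3))
  rw [linearIndependent_iff'] at hli
  have hw₀T : w₀ ∈ T := Finset.mem_filter.mpr ⟨hw₀, hn.symm⟩
  have h1 := hli Finset.univ (fun w : T => fz (F.coeff (w : FreeMonoid ℕ) : R)) (by
    funext e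
    rw [Finset.sum_apply, Pi.zero_apply]
    have h2 := key (Multiplicative.toAdd e)
    rw [← Finset.sum_coe_sort T (fun w => fz (F.coeff w : R) *
      algebraMap _ _ (chiP Λ π (FreeMonoid.toList w) (Multiplicative.toAdd e)))] at h2
    exact h2) ⟨w₀, hw₀T⟩ (Finset.mem_univ _)
  have h2 := hfz _ (F.coeff w₀).2
  have h1' : fz (F.coeff w₀ : R) = 0 := h1
  rw [h1', map_zero, eq_comm, map_eq_zero] at h2
  exact (Finsupp.mem_support_iff.mp hw₀) (Subtype.ext h2)

end Core

end Pool.Agent.WeylSub
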