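import Mathlib
import Pool.Agent.WeylSub.Place

/-!
# Places of commutative fields attached to prime elements
-/

set_option linter.unusedSectionVars false

namespace Pool.Agent.WeylSub

open Polynomial

/-- The place of `F = Frac R` attached to `p : R`, for a homomorphism `ev` to a field whose kernel
is generated by `p`. -/
theorem exists_cplace {R : Type} [CommRing R] [IsDomain R] [WfDvdMonoid R] {F : Type} [Field F]
    [Algebra R F] [IsFractionRing R F] {κ : Type} [Field κ] (ev : R →+* κ) (p : R) (hp : p ≠ 0)
    (hev : ∀ r, ev r = 0 ↔ p ∣ r) :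
    ∃ P : Place F κ, P.t = algebraMap R F p ∧ ∀ e c, P.Res e c ↔
      ∃ a b : R, ev b ≠ 0 ∧ algebraMap R F b * e = algebraMap R F a ∧ ev b * c = ev a := by
  have hinj := IsFractionRing.injective R F
  have hne : ∀ b : R, ev b ≠ 0 → algebraMap R F b ≠ 0 := by
    intro b hb h0
    rw [IsFractionRing.to_map_eq_zero_iff] at h0
    rw [h0, map_zero] at hb
    exact hb rfl
  have hpu : ¬ IsUnit p := by
    intro h
    have := (hev 1).mpr (h.dvd)
    simp at this
  have hred : ∀ a : R, a ≠ 0 → ∃ n : ℕ, ∃ a' : R, ev a' ≠ 0 ∧ a = p ^ n * a' := by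
    intro a ha
    obtain ⟨n, a', h1, h2⟩ := WfDvdMonoid.max_power_factor' ha hpu
    exact ⟨n, a', fun h => h1 ((hev a').mp h), h2⟩
  let P : Place F κ :=
    { Res := fun e c => ∃ a b : R, ev b ≠ 0 ∧ algebraMap R F b * e = algebraMap R F a ∧
        ev b * c = ev a
      t := algebraMap R F p
      t_ne := by rwa [Ne, IsFractionRing.to_map_eq_zero_iff]
      t_comm := fun e => mul_comm _ _
      res_t := ⟨p, 1, by simp, by simp, by simp [(hev p).mpr dvd_rfl]⟩
      res_one := ⟨1, 1, by simp, by simp, by simp⟩
      res_add := by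
        rintro e e' c c' ⟨a, b, hb, h1, h2⟩ ⟨a', b', hb', h1', h2'⟩
        refine ⟨b' * a + b * a', b * b', by rw [map_mul]; exact mul_ne_zero hb hb', ?_, ?_⟩
        · simp only [map_mul, map_add, ← h1, ← h1']; ring
        · simp only [map_mul, map_add, ← h2, ← h2']; ring
      res_neg := by
        rintro e c ⟨a, b, hb, h1, h2⟩
        exact ⟨-a, b, hb, by simp [h1], by simp [h2]⟩
      res_mul := by
        rintro e e' c c' ⟨a, b, hb, h1, h2⟩ ⟨a', b', hb', h1', h2'⟩
        refine ⟨a * a', b * b', by rw [map_mul]; exact mul_ne_zero hb hb', ?_, ?_⟩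
        · simp only [map_mul, ← h1, ← h1']; ring
        · simp only [map_mul, ← h2, ← h2']; ring
      uniq := by
        rintro e c c' ⟨a, b, hb, h1, h2⟩ ⟨a', b', hb', h1', h2'⟩
        have h3 : b' * a = b * a' := by
          apply hinj
          simp only [map_mul, ← h1, ← h1']; ring
        have h4 := congrArg ev h3
        simp only [map_mul, ← h2, ← h2'] at h4
        have h5 : ev b * ev b' * c = ev b * ev b' * c' := by linear_combination h4
        exact mul_left_cancel₀ (mul_ne_zero hb hb') h5
      norm := by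
        intro e he
        obtain ⟨a, b, hb, rfl⟩ := IsFractionRing.div_surjective (A := R) e
        have hb0 : b ≠ 0 := nonZeroDivisors.ne_zero hb
        have ha0 : a ≠ 0 := by rintro rfl; simp at he
        obtain ⟨n, a', ha', rfl⟩ := hred a ha0
        obtain ⟨m, b', hb', rfl⟩ := hred b hb0
        have hp' : algebraMap R F p ≠ 0 := by rwa [Ne, IsFractionRing.to_map_eq_zero_iff]
        refine ⟨m - n, ev a' / ev b', div_ne_zero ha' hb', a', b', hb', ?_, ?_⟩
        · have := hne b' hb'
          rw [zpow_sub₀ hp', zpow_natCast, zpow_natCast]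
          simp only [map_mul, map_pow]
          field_simp
        · field_simp }
  exact ⟨P, rfl, fun e c => Iff.rfl⟩

end Pool.Agent.WeylSub
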