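import Mathlib
import Pool.Agent.WeylSub.Place

/-!
# Quaternion symbols unramified at a place
-/

set_option linter.unusedSectionVars false

namespace Pool.Agent.WeylSub

open Polynomial

variable {F κ : Type} [Field F] [Field κ] (P : Place F κ)

/-- The symbol `(a, b)` is unramified at `P`: its tame symbol is a square. -/
def Unr (a b : F) : Prop :=
  ∀ (m n : ℤ) (c d : κ), c ≠ 0 → d ≠ 0 → P.Res (P.t ^ m * a) c → P.Res (P.t ^ n * b) d →
    IsSquare ((-1) ^ (m * n) * c ^ n * d ^ m)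

variable {P}

lemma Unr.symm {a b : F} (h : Unr P a b) : Unr P b a := by
  intro m n c d hc hd h1 h2
  have h3 := h n m d c hd hc h2 h1
  rwa [mul_comm n m, mul_assoc, mul_comm (d ^ m), ← mul_assoc] at h3

lemma Unr.mul {a a' b : F} (ha : a ≠ 0) (ha' : a' ≠ 0) (h : Unr P a b) (h' : Unr P a' b) :
    Unr P (a * a') b := by
  intro m n c d hc hd h1 h2
  obtain ⟨m₁, c₁, hc₁, h3⟩ := P.norm a ha
  obtain ⟨m₂, c₂, hc₂, h4⟩ := P.norm a' ha'
  have h5 := P.res_mul h3 h4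
  have h6 : P.t ^ m₁ * a * (P.t ^ m₂ * a') = P.t ^ (m₁ + m₂) * (a * a') := by
    rw [zpow_add₀ P.t_ne]; ring
  rw [h6] at h5
  have h7 := P.norm_unique h1 hc h5 (mul_ne_zero hc₁ hc₂)
  subst h7
  have h8 := P.uniq h1 h5
  subst h8
  have h9 := (h m₁ n c₁ d hc₁ hd h3 h2).mul (h' m₂ n c₂ d hc₂ hd h4 h2)
  have h10 : (-1 : κ) ^ ((m₁ + m₂) * n) * (c₁ * c₂) ^ n * d ^ (m₁ + m₂) =
      ((-1) ^ (m₁ * n) * c₁ ^ n * d ^ m₁) * ((-1) ^ (m₂ * n) * c₂ ^ n * d ^ m₂) := by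
    rw [add_mul, zpow_add₀ (by norm_num), mul_zpow, zpow_add₀ hd]
    ring
  rwa [h10]

lemma unr_formA {m n p : ℤ} {c d e : κ} (hm : m = 2 * p) (hc : c = e ^ 2) :
    IsSquare ((-1) ^ (m * n) * c ^ n * d ^ m) := by
  subst hm hc
  refine ⟨e ^ n * d ^ p, ?_⟩
  have h1 : (-1 : κ) ^ (2 * p * n) = 1 := Even.neg_one_zpow ⟨p * n, by ring⟩
  rw [h1, one_mul, ← zpow_natCast e 2, ← zpow_mul, two_mul p, zpow_add' (by simp; omega)]
  rw [show ((2 : ℕ) : ℤ) * n = n + n by push_cast; ring, zpow_add' (by simp; omega)]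
  ring

lemma unr_formB {m n q : ℤ} {c d f : κ} (hd : d ≠ 0) (hm : m = n + 2 * q)
    (hc : c = -(d * f ^ 2)) :
    IsSquare ((-1) ^ (m * n) * c ^ n * d ^ m) := by
  subst hm hc
  refine ⟨d ^ (n + q) * f ^ n, ?_⟩
  have h1 : (-1 : κ) ^ ((n + 2 * q) * n) * (-1) ^ n = 1 := by
    rw [← zpow_add₀ (by norm_num)]
    refine Even.neg_one_zpow ?_
    have h2 := Int.even_mul_succ_self n
    have h3 : (n + 2 * q) * n + n = n * (n + 1) + 2 * (q * n) := by ring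
    rw [h3]
    exact h2.add (even_two_mul _)
  have h2 : (-(d * f ^ 2)) ^ n = (-1) ^ n * (d ^ n * (f ^ n * f ^ n)) := by
    rw [neg_eq_neg_one_mul, mul_zpow, mul_zpow, ← mul_zpow f f, sq]
  rw [h2]
  calc (-1 : κ) ^ ((n + 2 * q) * n) * ((-1) ^ n * (d ^ n * (f ^ n * f ^ n))) * d ^ (n + 2 * q)
      = ((-1) ^ ((n + 2 * q) * n) * (-1) ^ n) * (d ^ n * d ^ (n + 2 * q)) * (f ^ n * f ^ n) := by
        ring
    _ = d ^ (n + q) * f ^ n * (d ^ (n + q) * f ^ n) := by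
        rw [h1, one_mul, ← zpow_add₀ hd, show n + (n + 2 * q) = (n + q) + (n + q) by ring,
          zpow_add₀ hd]
        ring

lemma unr_formC {m n k : ℤ} {c d : κ} (hc : c ≠ 0) (hd : d ≠ 0) (hn : n = 2 * k)
    (h : Even m ∨ IsSquare d) :
    IsSquare ((-1) ^ (m * n) * c ^ n * d ^ m) := by
  subst hn
  have h1 : (-1 : κ) ^ (m * (2 * k)) = 1 := Even.neg_one_zpow ⟨m * k, by ring⟩
  rw [h1, one_mul]
  refine IsSquare.mul ?_ ?_
  · exact ⟨c ^ k, by rw [← zpow_add₀ hc]; ring_nf⟩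
  · rcases h with h | h
    · obtain ⟨l, rfl⟩ := h
      exact ⟨d ^ l, by rw [← zpow_add₀ hd]⟩
    · exact h.zpow m

/-- Norms have trivial tame symbols. -/
lemma unr_norm {b x y : F} (hb : b ≠ 0) (hν : x ^ 2 - b * y ^ 2 ≠ 0) :
    Unr P (x ^ 2 - b * y ^ 2) b := by
  intro m n c d hc hd h1 h2
  have hex : ∀ z : F, z ≠ 0 → ∃ p : ℤ, ∃ e, e ≠ 0 ∧ P.Res (P.t ^ p * z) e := fun z hz => P.norm z hz
  by_cases hx : x = 0
  · subst hx
    have hy : y ≠ 0 := by rintro rfl; simp at hν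
    obtain ⟨q, f, hf, h3⟩ := hex y hy
    have h4 := P.res_neg (P.res_mul h2 (P.res_pow h3 2))
    have h5 : -(P.t ^ n * b * (P.t ^ q * y) ^ 2) = P.t ^ (n + 2 * q) * (0 ^ 2 - b * y ^ 2) := by
      rw [zpow_add₀ P.t_ne, two_mul, zpow_add₀ P.t_ne]; ring
    rw [h5] at h4
    have hne : -(d * f ^ 2) ≠ 0 := neg_ne_zero.mpr (mul_ne_zero hd (pow_ne_zero _ hf))
    have h6 := P.norm_unique h1 hc h4 hne
    rw [h6] at h1
    exact unr_formB hd h6 (P.uniq h1 h4)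
  by_cases hy : y = 0
  · subst hy
    obtain ⟨p, e, he, h3⟩ := hex x hx
    have h4 := P.res_pow h3 2
    have h5 : (P.t ^ p * x) ^ 2 = P.t ^ (2 * p) * (x ^ 2 - b * 0 ^ 2) := by
      rw [two_mul, zpow_add₀ P.t_ne]; ring
    rw [h5] at h4
    have h6 := P.norm_unique h1 hc h4 (pow_ne_zero _ he)
    rw [h6] at h1
    exact unr_formA h6 (P.uniq h1 h4)
  obtain ⟨p, e, he, h3⟩ := hex x hx
  obtain ⟨q, f, hf, h4⟩ := hex y hy
  rcases lt_trichotomy (2 * p) (n + 2 * q) with hlt | heq | hgt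
  · have h5 := P.res_sub (P.res_t_zpow_mul (P.res_pow h3 2) (n := n + 2 * q - 2 * p) (by omega))
      (P.res_mul h2 (P.res_pow h4 2))
    rw [if_neg (by omega), zero_sub] at h5
    have h6 : P.t ^ (n + 2 * q - 2 * p) * (P.t ^ p * x) ^ 2 - P.t ^ n * b * (P.t ^ q * y) ^ 2 =
        P.t ^ (n + 2 * q) * (x ^ 2 - b * y ^ 2) := by
      have h7 : P.t ^ (n + 2 * q - 2 * p) * (P.t ^ p * x) ^ 2 =
          P.t ^ (n + 2 * q) * x ^ 2 := by
        rw [zpow_sub₀ P.t_ne, two_mul p, zpow_add₀ P.t_ne p p]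
        have := P.t_ne
        field_simp
      rw [h7, zpow_add₀ P.t_ne, two_mul, zpow_add₀ P.t_ne q q]
      ring
    rw [h6] at h5
    have hne : -(d * f ^ 2) ≠ 0 := neg_ne_zero.mpr (mul_ne_zero hd (pow_ne_zero _ hf))
    have h6 := P.norm_unique h1 hc h5 hne
    rw [h6] at h1
    exact unr_formB hd h6 (P.uniq h1 h5)
  · have h5 := P.res_sub (P.res_pow h3 2) (P.res_mul h2 (P.res_pow h4 2))
    have h6 : (P.t ^ p * x) ^ 2 - P.t ^ n * b * (P.t ^ q * y) ^ 2 =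
        P.t ^ (2 * p) * (x ^ 2 - b * y ^ 2) := by
      have h7 : P.t ^ n * b * (P.t ^ q * y) ^ 2 = P.t ^ (2 * p) * (b * y ^ 2) := by
        rw [heq, zpow_add₀ P.t_ne, two_mul, zpow_add₀ P.t_ne q q]; ring
      rw [h7, two_mul, zpow_add₀ P.t_ne]; ring
    rw [h6] at h5
    by_cases hz : e ^ 2 - d * f ^ 2 = 0
    · refine unr_formC hc hd (k := p - q) (by omega) (Or.inr ⟨e / f, ?_⟩)
      field_simp
      linear_combination -hz
    · have h7 := P.norm_unique h1 hc h5 hz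
      exact unr_formC hc hd (k := p - q) (by omega) (Or.inl ⟨p, by omega⟩)
  · have h5 := P.res_sub (P.res_pow h3 2)
      (P.res_t_zpow_mul (P.res_mul h2 (P.res_pow h4 2)) (n := 2 * p - (n + 2 * q)) (by omega))
    rw [if_neg (by omega), sub_zero] at h5
    have h6 : (P.t ^ p * x) ^ 2 -
        P.t ^ (2 * p - (n + 2 * q)) * (P.t ^ n * b * (P.t ^ q * y) ^ 2) =
        P.t ^ (2 * p) * (x ^ 2 - b * y ^ 2) := by
      have h7 : P.t ^ (2 * p - (n + 2 * q)) * (P.t ^ n * b * (P.t ^ q * y) ^ 2) =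
          P.t ^ (2 * p) * (b * y ^ 2) := by
        rw [zpow_sub₀ P.t_ne, zpow_add₀ P.t_ne n, two_mul q, zpow_add₀ P.t_ne q q]
        have := P.t_ne
        field_simp
      rw [h7, two_mul, zpow_add₀ P.t_ne]; ring
    rw [h6] at h5
    have h6 := P.norm_unique h1 hc h5 (pow_ne_zero _ he)
    rw [h6] at h1
    exact unr_formA h6 (P.uniq h1 h5)

lemma Unr.norm {a b x y : F} (ha : a ≠ 0) (hb : b ≠ 0) (hν : x ^ 2 - b * y ^ 2 ≠ 0)
    (h : Unr P a b) : Unr P (a * (x ^ 2 - b * y ^ 2)) b :=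
  h.mul ha hν (unr_norm hb hν)

end Pool.Agent.WeylSub
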