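import Mathlib
import Pool.Agent.WeylSub.CPlace
import Pool.Agent.WeylSub.Unram

/-!
# Descent: unramified symbols over a rational function field are constant
-/

set_option linter.unusedSectionVars false

namespace Pool.Agent.WeylSub

open Polynomial

/-- `a` is a norm from `F(√b)`. -/
def Spl {F : Type} [Field F] (a b : F) : Prop := ∃ x y : F, a = x ^ 2 - b * y ^ 2

section Spl

variable {F : Type} [Field F]

lemma Spl.symm (h2 : (2 : F) ≠ 0) {a b : F} (ha : a ≠ 0) (h : Spl a b) : Spl b a := by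
  obtain ⟨x, y, hxy⟩ := h
  by_cases hy : y = 0
  · subst hy
    have hx : x ≠ 0 := by rintro rfl; simp at hxy; exact ha hxy
    refine ⟨(b + 1) / 2, (b - 1) / (2 * x), ?_⟩
    rw [hxy]
    field_simp
    ring
  · refine ⟨x / y, 1 / y, ?_⟩
    rw [hxy]
    field_simp
    ring

lemma Spl.mul_norm {a b : F} (x y : F) (h : Spl a b) : Spl (a * (x ^ 2 - b * y ^ 2)) b := by
  obtain ⟨z, w, rfl⟩ := h
  exact ⟨z * x + b * w * y, z * y + w * x, by ring⟩

lemma Spl.mul_norm_iff {a b : F} (x y : F) (hν : x ^ 2 - b * y ^ 2 ≠ 0) :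
    Spl (a * (x ^ 2 - b * y ^ 2)) b ↔ Spl a b := by
  refine ⟨fun h => ?_, fun h => h.mul_norm x y⟩
  have h1 := h.mul_norm (x / (x ^ 2 - b * y ^ 2)) (y / (x ^ 2 - b * y ^ 2))
  have h2 : a * (x ^ 2 - b * y ^ 2) *
      ((x / (x ^ 2 - b * y ^ 2)) ^ 2 - b * (y / (x ^ 2 - b * y ^ 2)) ^ 2) = a := by
    field_simp
  rwa [h2] at h1

lemma Spl.map {F' : Type} [Field F'] (f : F →+* F') {a b : F} (h : Spl a b) :
    Spl (f a) (f b) := by
  obtain ⟨x, y, rfl⟩ := h
  exact ⟨f x, f y, by simp⟩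

lemma spl_of_isSquare (h2 : (2 : F) ≠ 0) {a b : F} (hb : b ≠ 0) (h : IsSquare b) : Spl a b := by
  obtain ⟨s, rfl⟩ := h
  have hs : s ≠ 0 := by rintro rfl; simp at hb
  refine ⟨(a + 1) / 2, (1 - a) / (2 * s), ?_⟩
  field_simp
  ring

/-- Specialisation of a splitting at a place. -/
lemma Spl.res {κ : Type} [Field κ] (h2 : (2 : κ) ≠ 0) (P : Place F κ) {a b : F} {a' b' : κ}
    (ha' : a' ≠ 0) (hb' : b' ≠ 0) (ha : P.Res a a') (hb : P.Res b b') (h : Spl a b) :
    Spl a' b' := by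
  obtain ⟨x, y, hxy⟩ := h
  have hex : ∃ i ∈ (Finset.univ : Finset (Fin 2)), (![x, y] : Fin 2 → F) i ≠ 0 := by
    by_contra hcon
    push Not at hcon
    have h0 := hcon 0 (Finset.mem_univ _)
    have h1 := hcon 1 (Finset.mem_univ _)
    simp only [Matrix.cons_val_zero, Matrix.cons_val_one] at h0 h1
    rw [h0, h1] at hxy
    have h3 : a = 0 := by rw [hxy]; ring
    exact P.ne_zero_of_res ha ha' h3
  obtain ⟨J, l, hl, hl'⟩ := P.simnorm (Finset.univ : Finset (Fin 2)) ![x, y] hex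
  have hx := hl 0 (Finset.mem_univ _)
  have hy := hl 1 (Finset.mem_univ _)
  simp only [Matrix.cons_val_zero, Matrix.cons_val_one] at hx hy
  have hl'' : l 0 ≠ 0 ∨ l 1 ≠ 0 := by
    obtain ⟨i, -, hi⟩ := hl'
    fin_cases i
    · exact Or.inl hi
    · exact Or.inr hi
  have h3 : P.Res (P.t ^ (2 * J) * a) (l 0 ^ 2 - b' * l 1 ^ 2) := by
    have h4 := P.res_sub (P.res_pow hx 2) (P.res_mul hb (P.res_pow hy 2))
    have h5 : (P.t ^ J * x) ^ 2 - b * (P.t ^ J * y) ^ 2 = P.t ^ (2 * J) * a := by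
      rw [hxy, two_mul, zpow_add₀ P.t_ne]; ring
    rwa [h5] at h4
  rcases lt_trichotomy J 0 with hJ | hJ | hJ
  · exfalso
    have h4 := P.res_t_zpow_mul h3 (n := -(2 * J)) (by omega)
    rw [if_neg (by omega), ← mul_assoc, ← zpow_add₀ P.t_ne, neg_add_cancel, zpow_zero,
      one_mul] at h4
    exact ha' (P.uniq ha h4)
  · subst hJ
    rw [mul_zero, zpow_zero, one_mul] at h3
    exact ⟨l 0, l 1, P.uniq ha h3⟩
  · have h4 := P.res_t_zpow_mul ha (n := 2 * J) (by omega)
    rw [if_neg (by omega)] at h4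
    have h5 := P.uniq h3 h4
    have h6 : l 1 ≠ 0 := by
      intro h0
      rw [h0] at h5
      have h7 : l 0 = 0 := by
        have : l 0 ^ 2 = 0 := by linear_combination h5
        exact pow_eq_zero_iff (two_ne_zero) |>.mp this
      rcases hl'' with h | h
      · exact h h7
      · exact h h0
    refine spl_of_isSquare h2 hb' ⟨l 0 / l 1, ?_⟩
    field_simp
    linear_combination -h5

end Spl

section CRT

variable {F : Type} [Field F]

lemma exists_sq_of_squarefree (B : F[X]) (A : F[X]) (hA : A ≠ 0) (hsf : Squarefree A)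
    (h : ∀ P : F[X], Irreducible P → P ∣ A → ∃ c, P ∣ c ^ 2 - B) : ∃ c, A ∣ c ^ 2 - B := by
  induction A using WfDvdMonoid.induction_on_irreducible with
  | zero => exact absurd rfl hA
  | unit u hu => exact ⟨0, hu.dvd⟩
  | mul a i ha hi ih =>
    have hia : ¬ i ∣ a := by
      intro hd
      have h1 : i * i ∣ i * a := mul_dvd_mul_left i hd
      exact hi.not_isUnit (hsf i h1)
    obtain ⟨c₂, hc₂⟩ := ih ha (hsf.squarefree_of_dvd (dvd_mul_left a i))
      (fun P hP hPa => h P hP (hPa.mul_left i))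
    obtain ⟨c₁, hc₁⟩ := h i hi (dvd_mul_right i a)
    have hco : IsCoprime i a := (hi.coprime_iff_not_dvd).mpr hia
    have hco' := hco
    obtain ⟨u, v, huv⟩ := hco'
    refine ⟨c₁ * (v * a) + c₂ * (u * i), hco.mul_dvd ?_ ?_⟩
    · have h1 : (c₁ * (v * a) + c₂ * (u * i)) ^ 2 - B = (c₁ ^ 2 - B) +
          i * ((c₁ * (v * a) + c₂ * (u * i) + c₁) * (u * (c₂ - c₁))) := by
        have hv : v * a = 1 - u * i := by linear_combination huv
        rw [hv]; ring
      rw [h1]
      exact dvd_add hc₁ (dvd_mul_right _ _)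
    · have h1 : (c₁ * (v * a) + c₂ * (u * i)) ^ 2 - B = (c₂ ^ 2 - B) +
          a * ((c₁ * (v * a) + c₂ * (u * i) + c₂) * (v * (c₁ - c₂))) := by
        have hv : u * i = 1 - v * a := by linear_combination huv
        rw [hv]; ring
      rw [h1]
      exact dvd_add hc₂ (dvd_mul_right _ _)

end CRT

section Descent

variable {F Ω : Type} [Field F] [Field Ω] [Algebra F[X] Ω] [IsFractionRing F[X] Ω]

theorem descent (h2 : (2 : Ω) ≠ 0) (Q : Ω → Ω → Prop) (hsymm : ∀ a b, Q a b → Q b a)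
    (hne : ∀ a b, Q a b → a ≠ 0)
    (hnorm : ∀ a b x y, Q a b → x ^ 2 - b * y ^ 2 ≠ 0 → Q (a * (x ^ 2 - b * y ^ 2)) b)
    (hsq : ∀ a b P : F[X], Q (algebraMap _ Ω a) (algebraMap _ Ω b) → Irreducible P →
      (∃ a₁, a = P * a₁ ∧ ¬ P ∣ a₁) → ¬ P ∣ b → ∃ c, P ∣ c ^ 2 - b)
    (a b : Ω) (h : Q a b) :
    ∃ a₀ b₀ : F, Q (algebraMap F[X] Ω (C a₀)) (algebraMap F[X] Ω (C b₀)) := by
  have hcongr : ∀ a a' b b', Q a b → a = a' → b = b' → Q a' b' := by
    rintro a a' b b' h rfl rfl; exact h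
  -- multiplication by squares
  have hmulsq : ∀ a b x, Q a b → x ≠ 0 → Q (a * x ^ 2) b := by
    intro a b x h hx
    refine hcongr _ _ _ _ (hnorm a b x 0 h (by simpa using hx)) ?_ rfl
    ring
  have hclear : ∀ a : Ω, a ≠ 0 → ∃ A : F[X], ∃ x : Ω, x ≠ 0 ∧ a * x ^ 2 = algebraMap _ Ω A := by
    intro a ha
    obtain ⟨r, s, hs, rfl⟩ := IsFractionRing.div_surjective (A := F[X]) a
    have hs0 : algebraMap F[X] Ω s ≠ 0 := by
      rw [Ne, IsFractionRing.to_map_eq_zero_iff]
      exact nonZeroDivisors.ne_zero hs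
    exact ⟨r * s, algebraMap _ _ s, hs0, by rw [map_mul]; field_simp⟩
  have halg0 : ∀ A : F[X], algebraMap F[X] Ω A ≠ 0 → A ≠ 0 := by
    rintro A hA rfl; simp at hA
  -- removing square factors
  have hred : ∀ A B : F[X], Q (algebraMap _ Ω A) (algebraMap _ Ω B) → ¬ Squarefree A →
      ∃ A' : F[X], A'.natDegree < A.natDegree ∧
        Q (algebraMap _ Ω A') (algebraMap _ Ω B) := by
    intro A B hQ hnsf
    have hA := halg0 _ (hne _ _ hQ)
    unfold Squarefree at hnsf
    push Not at hnsf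
    obtain ⟨m, ⟨A', rfl⟩, hm⟩ := hnsf
    have hm0 : m ≠ 0 := by rintro rfl; simp at hA
    have hA'0 : A' ≠ 0 := by rintro rfl; simp at hA
    have hmd : m.natDegree ≠ 0 := by
      intro h0
      apply hm
      rw [isUnit_iff_degree_eq_zero]
      rw [degree_eq_natDegree hm0, h0]
      rfl
    refine ⟨A', ?_, ?_⟩
    · rw [natDegree_mul (mul_ne_zero hm0 hm0) hA'0, natDegree_mul hm0 hm0]
      omega
    · have hm' : algebraMap F[X] Ω m ≠ 0 := by rwa [Ne, IsFractionRing.to_map_eq_zero_iff]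
      refine hcongr _ _ _ _ (hmulsq _ _ (algebraMap _ Ω m)⁻¹ hQ (inv_ne_zero hm')) ?_ rfl
      rw [map_mul, map_mul]
      field_simp
  -- the main step
  have hstep : ∀ A B : F[X], Q (algebraMap _ Ω A) (algebraMap _ Ω B) → Squarefree A →
      A.natDegree ≠ 0 → B.natDegree ≤ A.natDegree →
      (∃ A' : F[X], A'.natDegree < A.natDegree ∧
        Q (algebraMap _ Ω A') (algebraMap _ Ω B)) ∨ Q 1 1 := by
    intro A B hQ hsf hd hle
    have hA := halg0 _ (hne _ _ hQ)
    have hB := halg0 _ (hne _ _ (hsymm _ _ hQ))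
    have hA' := hne _ _ hQ
    obtain ⟨c₀, hc₀⟩ := exists_sq_of_squarefree B A hA hsf (by
      intro P hP hPA
      by_cases hPB : P ∣ B
      · exact ⟨0, by simpa using hPB⟩
      · obtain ⟨a₁, ha₁⟩ := hPA
        refine hsq A B P hQ hP ⟨a₁, ha₁, ?_⟩ hPB
        intro hd
        rw [ha₁] at hsf
        exact hP.not_isUnit (hsf P (mul_dvd_mul_left P hd)))
    set c := c₀ % A with hc
    have hcA : A ∣ c ^ 2 - B := by
      have h1 : c ^ 2 - B = (c₀ ^ 2 - B) - A * ((c₀ / A) * (c₀ + c)) := by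
        have h2 : A * (c₀ / A) + c₀ % A = c₀ := EuclideanDomain.div_add_mod c₀ A
        rw [← hc] at h2
        have h3 : A * (c₀ / A) = c₀ - c := by linear_combination h2
        calc c ^ 2 - B = (c₀ ^ 2 - B) - (c₀ - c) * (c₀ + c) := by ring
          _ = _ := by rw [← h3]; ring
      rw [h1]
      exact dvd_sub hc₀ (dvd_mul_right _ _)
    have hcd : c.natDegree < A.natDegree := by
      have h1 : (c₀ % A).degree < A.degree := EuclideanDomain.mod_lt c₀ hA
      rw [← hc] at h1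
      by_cases hc0 : c = 0
      · rw [hc0, natDegree_zero]; omega
      · exact natDegree_lt_natDegree hc0 h1
    obtain ⟨A', hA'eq⟩ := hcA
    by_cases hA'0 : A' = 0
    · right
      rw [hA'0, mul_zero, sub_eq_zero] at hA'eq
      have hc0 : c ≠ 0 := by rintro h0; rw [h0] at hA'eq; apply hB; rw [← hA'eq]; ring
      have hc' : algebraMap F[X] Ω c ≠ 0 := by rwa [Ne, IsFractionRing.to_map_eq_zero_iff]
      have h1 := hmulsq _ _ (algebraMap _ Ω c)⁻¹ (hsymm _ _ hQ) (inv_ne_zero hc')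
      have h3 := hcongr _ 1 _ _ h1 (by rw [← hA'eq, map_pow]; field_simp) rfl
      have h4 := hsymm _ _ h3
      set α := algebraMap F[X] Ω A with hα
      have h5 : ((α⁻¹ + 1) / 2) ^ 2 - 1 * ((α⁻¹ - 1) / 2) ^ 2 = α⁻¹ := by
        field_simp; ring
      have h6 := hnorm _ _ ((α⁻¹ + 1) / 2) ((α⁻¹ - 1) / 2) h4 (by
        rw [h5]; exact inv_ne_zero hA')
      rw [h5] at h6
      exact hcongr _ _ _ _ h6 (mul_inv_cancel₀ hA') rfl
    · left
      refine ⟨A', ?_, ?_⟩
      · have h1 : (c ^ 2 - B).natDegree = A.natDegree + A'.natDegree := by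
          rw [hA'eq, natDegree_mul hA hA'0]
        have h3 := natDegree_sub_le (c ^ 2) B
        have h4 := natDegree_pow_le (p := c) (n := 2)
        rcases le_max_iff.mp h3 with h5 | h5 <;> omega
      · have h1 : (algebraMap F[X] Ω c) ^ 2 - algebraMap F[X] Ω B * 1 ^ 2 =
            algebraMap F[X] Ω A * algebraMap F[X] Ω A' := by
          rw [← map_mul, ← hA'eq, map_sub, map_pow]; ring
        have h3 : algebraMap F[X] Ω A' ≠ 0 := by rwa [Ne, IsFractionRing.to_map_eq_zero_iff]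
        have h4 := hnorm _ _ (algebraMap _ Ω c) 1 hQ (by rw [h1]; exact mul_ne_zero hA' h3)
        rw [h1] at h4
        have h5 := hmulsq _ _ (algebraMap _ Ω A)⁻¹ h4 (inv_ne_zero hA')
        refine hcongr _ _ _ _ h5 ?_ rfl
        field_simp
  have hmain : ∀ n : ℕ, ∀ A B : F[X], A.natDegree + B.natDegree = n →
      Q (algebraMap _ Ω A) (algebraMap _ Ω B) →
      ∃ a₀ b₀ : F, Q (algebraMap F[X] Ω (C a₀)) (algebraMap F[X] Ω (C b₀)) := by
    intro n
    induction n using Nat.strong_induction_on with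
    | _ n ih =>
      intro A B hn hQ
      by_cases hsA : Squarefree A
      swap
      · obtain ⟨A', h1, h3⟩ := hred A B hQ hsA
        exact ih _ (by omega) A' B rfl h3
      by_cases hsB : Squarefree B
      swap
      · obtain ⟨B', h1, h3⟩ := hred B A (hsymm _ _ hQ) hsB
        exact ih _ (by omega) B' A rfl h3
      have hone : Q 1 1 → ∃ a₀ b₀ : F, Q (algebraMap F[X] Ω (C a₀)) (algebraMap F[X] Ω (C b₀)) :=
        fun h => ⟨1, 1, by simpa using h⟩
      by_cases hn0 : A.natDegree + B.natDegree = 0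
      · refine ⟨A.coeff 0, B.coeff 0, ?_⟩
        rw [← eq_C_of_natDegree_eq_zero (p := A) (by omega),
          ← eq_C_of_natDegree_eq_zero (p := B) (by omega)]
        exact hQ
      · rcases le_total B.natDegree A.natDegree with hle | hle
        · rcases hstep A B hQ hsA (by omega) hle with ⟨A', h1, h3⟩ | h
          · exact ih _ (by omega) A' B rfl h3
          · exact hone h
        · rcases hstep B A (hsymm _ _ hQ) hsB (by omega) hle with ⟨A', h1, h3⟩ | h
          · exact ih _ (by omega) A' A rfl h3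
          · exact hone h
  obtain ⟨A, x, hx, hA⟩ := hclear a (hne _ _ h)
  obtain ⟨B, y, hy, hB⟩ := hclear b (hne _ _ (hsymm _ _ h))
  have h1 := hmulsq _ _ x h hx
  rw [hA] at h1
  have h3 := hmulsq _ _ y (hsymm _ _ h1) hy
  rw [hB] at h3
  exact hmain _ B A rfl h3

end Descent

end Pool.Agent.WeylSub
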