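import Mathlib

/-!
# The involution `θ ↦ -θ`, `x ↦ h(θ)/x` of the rational function field `κ₀(θ, x)`
-/

set_option linter.unusedSectionVars false

namespace Pool.Agent.WeylSub

open Polynomial

variable {κ₀ : Type} [Field κ₀] (h : κ₀[X])
variable (K : Type) [Field K] [Algebra κ₀[X][X] K] [IsFractionRing κ₀[X][X] K]

/-- The composite `κ₀[θ] → K`, `r ↦ r(-θ)`. -/
noncomputable def negHom : κ₀[X] →+* K :=
  ((algebraMap κ₀[X][X] K).comp C).comp (compRingHom (-X : κ₀[X]))

lemma negHom_apply (r : κ₀[X]) : negHom K r = algebraMap κ₀[X][X] K (C (r.comp (-X))) := rfl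

/-- `x ↦ h(θ)/x`, `θ ↦ -θ` on polynomials. -/
noncomputable def barPoly : κ₀[X][X] →+* K :=
  eval₂RingHom (negHom K) (algebraMap κ₀[X][X] K (C h) / algebraMap κ₀[X][X] K X)

lemma algebraMap_X_ne_zero : algebraMap κ₀[X][X] K X ≠ 0 := by
  rw [Ne, IsFractionRing.to_map_eq_zero_iff]
  exact X_ne_zero

lemma comp_neg_ne_zero {r : κ₀[X]} (hr : r ≠ 0) : r.comp (-X) ≠ 0 := by
  intro h0
  apply hr
  have h1 : (r.comp (-X)).comp (-X) = 0 := by rw [h0, zero_comp]
  rwa [comp_assoc, neg_comp, X_comp, neg_neg, comp_X] at h1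

variable {h}

lemma barPoly_injective (hh : h ≠ 0) : Function.Injective (barPoly h K) := by
  rw [injective_iff_map_eq_zero]
  intro p hp
  by_contra hp0
  set N := p.natDegree with hN
  let Q : κ₀[X][X] := ∑ i ∈ Finset.range (N + 1), monomial (N - i) ((p.coeff i).comp (-X) * h ^ i)
  have hQ : Q ≠ 0 := by
    intro h0
    have h1 : Q.coeff 0 = (p.coeff N).comp (-X) * h ^ N := by
      simp only [Q, finsetSum_coeff, coeff_monomial]
      rw [Finset.sum_eq_single N]
      · simp
      · intro b hb hbN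
        rw [if_neg]
        rw [Finset.mem_range] at hb
        omega
      · simp
    rw [h0, coeff_zero] at h1
    refine mul_ne_zero (comp_neg_ne_zero ?_) (pow_ne_zero _ hh) h1.symm
    rw [hN]
    exact mt leadingCoeff_eq_zero.mp hp0
  have hX := algebraMap_X_ne_zero K (κ₀ := κ₀)
  have h2 : barPoly h K p * (algebraMap κ₀[X][X] K X) ^ N = algebraMap κ₀[X][X] K Q := by
    simp only [Q, barPoly, coe_eval₂RingHom]
    rw [eval₂_eq_sum_range, Finset.sum_mul, map_sum]
    refine Finset.sum_congr rfl fun i hi => ?_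
    rw [Finset.mem_range] at hi
    rw [negHom_apply, ← C_mul_X_pow_eq_monomial]
    simp only [map_mul, map_pow, div_pow]
    have h3 : N = i + (N - i) := by omega
    conv_lhs => rw [h3, pow_add]
    field_simp
  rw [hp, zero_mul] at h2
  exact hQ ((IsFractionRing.to_map_eq_zero_iff (K := K)).mp h2.symm)

/-- The involution of `K = κ₀(θ, x)`. -/
noncomputable def bar (hh : h ≠ 0) : K →+* K := IsFractionRing.lift (barPoly_injective K hh)

lemma bar_algebraMap (hh : h ≠ 0) (p : κ₀[X][X]) :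
    bar K hh (algebraMap κ₀[X][X] K p) = barPoly h K p :=
  IsFractionRing.lift_algebraMap _ _

lemma bar_C (hh : h ≠ 0) (r : κ₀[X]) :
    bar K hh (algebraMap κ₀[X][X] K (C r)) = algebraMap κ₀[X][X] K (C (r.comp (-X))) := by
  rw [bar_algebraMap, barPoly, coe_eval₂RingHom, eval₂_C, negHom_apply]

lemma bar_X (hh : h ≠ 0) :
    bar K hh (algebraMap κ₀[X][X] K X) =
      algebraMap κ₀[X][X] K (C h) / algebraMap κ₀[X][X] K X := by
  rw [bar_algebraMap, barPoly, coe_eval₂RingHom, eval₂_X]

end Pool.Agent.WeylSub
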