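import Mathlib
import Pool.Agent.WeylSub.PhiBar

/-!
# Norms for the involution `θ ↦ -θ`, `x ↦ h(θ)/x`
-/

set_option linter.unusedSectionVars false

namespace Pool.Agent.WeylSub

open Polynomial

section fractions

/-- A criterion for being a fraction field. -/
lemma isFractionRing_of {R K : Type} [CommRing R] [IsDomain R] [Field K] [Algebra R K]
    (hinj : Function.Injective (algebraMap R K))
    (h : ∀ c : K, ∃ p q : R, q ≠ 0 ∧ c * algebraMap R K q = algebraMap R K p) :
    IsFractionRing R K := by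
  refine (isLocalization_iff _ _).mpr ⟨?_, ?_, ?_⟩
  · intro y
    have hy : (y : R) ≠ 0 := nonZeroDivisors.ne_zero y.2
    exact isUnit_iff_ne_zero.mpr (by rwa [Ne, map_eq_zero_iff _ hinj])
  · intro z
    obtain ⟨p, q, hq, h1⟩ := h z
    exact ⟨(p, ⟨q, mem_nonZeroDivisors_of_ne_zero hq⟩), h1⟩
  · intro x y hxy
    exact ⟨1, by rw [hinj hxy]⟩

variable {R K : Type} [CommRing R] [IsDomain R] [Field K]

/-- Extension of a homomorphism from `R[X]` to `Frac(R)[X]`. -/
lemma exists_J (j : R[X] →+* K) (hj : Function.Injective j) :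
    ∃ J : (FractionRing R)[X] →+* K, Function.Injective J ∧
      ∀ p, J (p.map (algebraMap R (FractionRing R))) = j p := by
  have hjC : Function.Injective (j.comp C) := hj.comp C_injective
  set f : FractionRing R →+* K := IsFractionRing.lift hjC with hf
  set J : (FractionRing R)[X] →+* K := eval₂RingHom f (j X) with hJ
  have hJmap : ∀ p, J (p.map (algebraMap R (FractionRing R))) = j p := by
    intro p
    have h1 : J.comp (mapRingHom (algebraMap R (FractionRing R))) = j := by
      apply Polynomial.ringHom_ext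
      · intro a
        simp [hJ, hf, IsFractionRing.lift_algebraMap]
      · simp [hJ]
    exact congrArg (fun φ : R[X] →+* K => φ p) h1
  refine ⟨J, ?_, hJmap⟩
  rw [injective_iff_map_eq_zero]
  intro p hp
  obtain ⟨b, hb, h⟩ := IsLocalization.integerNormalization_spec (nonZeroDivisors R) p
  have hb0 : b ≠ 0 := nonZeroDivisors.ne_zero hb
  have h1 : map (algebraMap R (FractionRing R))
      (IsLocalization.integerNormalization (nonZeroDivisors R) p) =
      C (algebraMap R (FractionRing R) b) * p := by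
    rw [h]
    ext n : 1
    rw [coeff_smul, coeff_C_mul, Algebra.smul_def]
  have h2 : j (IsLocalization.integerNormalization (nonZeroDivisors R) p) = 0 := by
    rw [← hJmap, h1, map_mul, hp, mul_zero]
  have h3 := (map_eq_zero_iff j hj).mp h2
  rw [h3, Polynomial.map_zero] at h1
  rcases mul_eq_zero.mp h1.symm with h4 | h4
  · rw [C_eq_zero, IsFractionRing.to_map_eq_zero_iff] at h4
    exact absurd h4 hb0
  · exact h4

end fractions

section norms

variable {F K : Type} [Field F] [Field K] (J : F[X] →+* K) (hJ : Function.Injective J)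
  (τ : F →+* F) (hττ : ∀ f, τ (τ f) = f) (h : F) (hh : h ≠ 0) (hτh : τ h = h)
  (br : K →+* K) (hbC : ∀ f, br (J (C f)) = J (C (τ f))) (hbX : br (J X) = J (C h) / J X)

/-- The polynomial `x^n Ā(h/x)`. -/
noncomputable def tild (A : F[X]) : F[X] :=
  ∑ i ∈ Finset.range (A.natDegree + 1), monomial (A.natDegree - i) (τ (A.coeff i) * h ^ i)

lemma coeff_tild (A : F[X]) {l : ℕ} (hl : l ≤ A.natDegree) :
    (tild τ h A).coeff (A.natDegree - l) = τ (A.coeff l) * h ^ l := by
  rw [tild, finsetSum_coeff]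
  simp only [coeff_monomial]
  rw [Finset.sum_eq_single l]
  · rw [if_pos rfl]
  · intro b hb hbl
    rw [Finset.mem_range] at hb
    rw [if_neg (by omega)]
  · intro h0
    rw [Finset.mem_range] at h0
    omega

lemma natDegree_tild_le (A : F[X]) : (tild τ h A).natDegree ≤ A.natDegree := by
  rw [tild]
  refine natDegree_sum_le_of_forall_le _ _ fun i _ => ?_
  exact (natDegree_monomial_le _).trans (Nat.sub_le _ _)

include hJ hbC hbX in
lemma br_mul (A : F[X]) : br (J A) * J X ^ A.natDegree = J (tild τ h A) := by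
  have hX : J X ≠ 0 := by
    rw [Ne, map_eq_zero_iff _ hJ]
    exact X_ne_zero
  have hs : br (J A) = ∑ i ∈ Finset.range (A.natDegree + 1), br (J (C (A.coeff i) * X ^ i)) := by
    conv_lhs => rw [A.as_sum_range_C_mul_X_pow]
    rw [map_sum, map_sum]
  rw [hs, tild, map_sum, Finset.sum_mul]
  refine Finset.sum_congr rfl fun i hi => ?_
  rw [Finset.mem_range] at hi
  rw [← C_mul_X_pow_eq_monomial]
  simp only [map_mul, map_pow, hbC, hbX, div_pow]
  have h3 : A.natDegree = i + (A.natDegree - i) := by omega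
  conv_lhs => rw [h3, pow_add]
  field_simp

include hJ hττ hh hτh hbC hbX in
/-- The shape of norms in the base field. -/
theorem norm_shape (hfrac : ∀ c : K, ∃ p q : F[X], q ≠ 0 ∧ c * J q = J p) (a : K) (ha : a ≠ 0)
    (G : F) (hG : a * br a = J (C G)) :
    ∃ l : F, l ≠ 0 ∧ ∃ N₁ N₂ : ℕ, h ^ N₁ = h ^ N₂ * G * (l * τ l) := by
  classical
  have hX : J X ≠ 0 := by
    rw [Ne, map_eq_zero_iff _ hJ]
    exact X_ne_zero
  have hJ0 : ∀ p, p ≠ 0 → J p ≠ 0 := fun p hp => by rwa [Ne, map_eq_zero_iff _ hJ]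
  obtain ⟨p, q, hq, hpq⟩ := hfrac a
  have hp : p ≠ 0 := by
    rintro rfl
    rw [map_zero] at hpq
    exact mul_ne_zero ha (hJ0 q hq) hpq
  set d := EuclideanDomain.gcd p q with hd
  have hd0 : d ≠ 0 := by
    intro h0
    rw [EuclideanDomain.gcd_eq_zero_iff] at h0
    exact hq h0.2
  obtain ⟨p', hp'⟩ := EuclideanDomain.gcd_dvd_left p q
  obtain ⟨q', hq'⟩ := EuclideanDomain.gcd_dvd_right p q
  rw [← hd] at hp' hq'
  have hco : IsCoprime p' q' := by
    have h1 := EuclideanDomain.gcd_eq_gcd_ab p q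
    rw [← hd] at h1
    refine ⟨EuclideanDomain.gcdA p q, EuclideanDomain.gcdB p q, ?_⟩
    apply mul_left_cancel₀ hd0
    calc d * (EuclideanDomain.gcdA p q * p' + EuclideanDomain.gcdB p q * q') =
        (d * p') * EuclideanDomain.gcdA p q + (d * q') * EuclideanDomain.gcdB p q := by ring
      _ = d * 1 := by rw [← hp', ← hq', mul_one]; exact h1.symm
  have hp'0 : p' ≠ 0 := by rintro rfl; rw [mul_zero] at hp'; exact hp hp'
  have hq'0 : q' ≠ 0 := by rintro rfl; rw [mul_zero] at hq'; exact hq hq'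
  have hpq' : a * J q' = J p' := by
    apply mul_left_cancel₀ (hJ0 d hd0)
    calc J d * (a * J q') = a * J (d * q') := by rw [map_mul]; ring
      _ = J d * J p' := by rw [← hq', hpq, hp', map_mul]
  obtain ⟨i, A, hA, hAe⟩ := WfDvdMonoid.max_power_factor hp'0 irreducible_X
  obtain ⟨k, B, hB, hBe⟩ := WfDvdMonoid.max_power_factor hq'0 irreducible_X
  rw [X_dvd_iff] at hA hB
  have hA0 : A ≠ 0 := by rintro rfl; simp at hA
  have hB0 : B ≠ 0 := by rintro rfl; simp at hB
  have hcoAB : IsCoprime A B := by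
    rw [hAe, hBe] at hco
    exact hco.of_mul_left_right.of_mul_right_right
  have hG0 : G ≠ 0 := by
    rintro rfl
    rw [C_0, map_zero] at hG
    rcases mul_eq_zero.mp hG with h1 | h1
    · exact ha h1
    · exact ha ((map_eq_zero br).mp h1)
  set n := A.natDegree with hn
  set m := B.natDegree with hm
  have e1 : J p' * br (J p') = J (C G) * (J q' * br (J q')) := by
    rw [← hpq', map_mul, ← hG]; ring
  have e2 : J (C (h ^ i)) * J A * J (tild τ h A) * J X ^ m =
      J (C (G * h ^ k)) * J B * J (tild τ h B) * J X ^ n := by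
    rw [hAe, hBe] at e1
    simp only [map_mul, map_pow, hbX, div_pow] at e1
    rw [← br_mul J hJ τ h br hbC hbX A, ← br_mul J hJ τ h br hbC hbX B, ← hn, ← hm]
    simp only [map_mul, map_pow]
    have e3 : (J (C h)) ^ i * J A * br (J A) = J (C G) * (J (C h) ^ k * J B * br (J B)) := by
      have hXi : J X ^ i ≠ 0 := pow_ne_zero _ hX
      have hXk : J X ^ k ≠ 0 := pow_ne_zero _ hX
      field_simp at e1
      linear_combination e1
    linear_combination J X ^ m * J X ^ n * e3
  have e4 : C (h ^ i) * A * tild τ h A * X ^ m = C (G * h ^ k) * B * tild τ h B * X ^ n := by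
    apply hJ
    simpa only [map_mul, map_pow] using e2
  -- constant terms
  have hlead : ∀ A : F[X], A ≠ 0 → (tild τ h A).coeff 0 ≠ 0 := by
    intro A hA0
    have h1 := coeff_tild τ h A (le_refl _)
    rw [Nat.sub_self] at h1
    rw [h1]
    refine mul_ne_zero ?_ (pow_ne_zero _ hh)
    rw [Ne, map_eq_zero]
    exact mt leadingCoeff_eq_zero.mp hA0
  have hU : (C (h ^ i) * A * tild τ h A).coeff 0 ≠ 0 := by
    rw [mul_coeff_zero, mul_coeff_zero, coeff_C_zero]
    exact mul_ne_zero (mul_ne_zero (pow_ne_zero _ hh) hA) (hlead A hA0)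
  have hV : (C (G * h ^ k) * B * tild τ h B).coeff 0 ≠ 0 := by
    rw [mul_coeff_zero, mul_coeff_zero, coeff_C_zero]
    exact mul_ne_zero (mul_ne_zero (mul_ne_zero hG0 (pow_ne_zero _ hh)) hB) (hlead B hB0)
  have hmn : m = n := by
    have hXn : ∀ r : ℕ, (X : F[X]) ^ r ≠ 0 := fun r => pow_ne_zero _ X_ne_zero
    rcases lt_trichotomy m n with hlt | heq | hlt
    · exfalso
      apply hU
      have e5 : C (h ^ i) * A * tild τ h A =
          C (G * h ^ k) * B * tild τ h B * X ^ (n - m - 1) * X := by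
        apply mul_right_cancel₀ (hXn m)
        rw [e4]
        have : n = (n - m - 1) + 1 + m := by omega
        conv_lhs => rw [this]
        ring
      rw [e5, coeff_mul_X_zero]
    · exact heq
    · exfalso
      apply hV
      have e5 : C (G * h ^ k) * B * tild τ h B =
          C (h ^ i) * A * tild τ h A * X ^ (m - n - 1) * X := by
        apply mul_right_cancel₀ (hXn n)
        rw [← e4]
        have : m = (m - n - 1) + 1 + n := by omega
        conv_lhs => rw [this]
        ring
      rw [e5, coeff_mul_X_zero]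
  rw [hmn] at e4
  have e6 : C (h ^ i) * A * tild τ h A = C (G * h ^ k) * B * tild τ h B :=
    mul_right_cancel₀ (pow_ne_zero _ X_ne_zero) e4
  have hdvd : A ∣ tild τ h B := by
    have h1 : A ∣ (C (G * h ^ k) * tild τ h B) * B := ⟨C (h ^ i) * tild τ h A, by
      linear_combination -e6⟩
    have h2 := hcoAB.dvd_of_dvd_mul_right h1
    obtain ⟨W, hW⟩ := h2
    refine ⟨C ((G * h ^ k)⁻¹) * W, ?_⟩
    have h3 : G * h ^ k ≠ 0 := mul_ne_zero hG0 (pow_ne_zero _ hh)
    calc tild τ h B = C ((G * h ^ k)⁻¹) * (C (G * h ^ k) * tild τ h B) := by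
          rw [← mul_assoc, ← C_mul, inv_mul_cancel₀ h3, C_1, one_mul]
      _ = _ := by rw [hW]; ring
  obtain ⟨W, hW⟩ := hdvd
  have hTB0 : tild τ h B ≠ 0 := by
    intro h0
    have := hlead B hB0
    rw [h0, coeff_zero] at this
    exact this rfl
  have hW0 : W ≠ 0 := by rintro rfl; rw [mul_zero] at hW; exact hTB0 hW
  have hWd : W.natDegree = 0 := by
    have h1 := natDegree_tild_le τ h B
    rw [hW, natDegree_mul hA0 hW0, ← hm, ← hn, hmn] at h1
    omega
  rw [eq_C_of_natDegree_eq_zero hWd] at hW hW0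
  set l := W.coeff 0 with hl
  have hl0 : l ≠ 0 := by rintro h0; rw [h0, C_0] at hW0; exact hW0 rfl
  -- (i)
  have c1 : τ (B.coeff m) * h ^ m = l * A.coeff 0 := by
    have h1 := coeff_tild τ h B (le_refl _)
    rw [Nat.sub_self, hW, coeff_mul_C, ← hm] at h1
    rw [← h1, mul_comm]
  -- (ii)
  have c2 : h ^ i * τ (A.coeff 0) = G * h ^ k * l * B.coeff m := by
    rw [hW] at e6
    have e7 : C (h ^ i) * tild τ h A = C (G * h ^ k * l) * B := by
      apply mul_left_cancel₀ hA0
      rw [C_mul (a := G * h ^ k)]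
      linear_combination e6
    have h1 := congrArg (fun p => coeff p n) e7
    simp only [coeff_C_mul] at h1
    have h2 := coeff_tild τ h A (Nat.zero_le _)
    rw [Nat.sub_zero, pow_zero, mul_one, ← hn] at h2
    rw [h2] at h1
    rw [h1, hmn]
  have c3 : B.coeff m * h ^ m = τ l * τ (A.coeff 0) := by
    have h1 := congrArg τ c1
    rwa [map_mul, map_mul, map_pow, hττ, hτh] at h1
  have hτA : τ (A.coeff 0) ≠ 0 := by rwa [Ne, map_eq_zero]
  refine ⟨l, hl0, i + m, k, ?_⟩
  apply mul_right_cancel₀ hτA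
  calc h ^ (i + m) * τ (A.coeff 0) = (h ^ i * τ (A.coeff 0)) * h ^ m := by rw [pow_add]; ring
    _ = G * h ^ k * l * (B.coeff m * h ^ m) := by rw [c2]; ring
    _ = _ := by rw [c3]; ring

end norms

end Pool.Agent.WeylSub
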