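import Mathlib

/-!
# The parity obstruction
-/

set_option linter.unusedSectionVars false

namespace Pool.Agent.WeylSub

open Polynomial

variable {κ₀ : Type} [Field κ₀] (c : Fin 4 → κ₀)

/-- `G₁ = (θ² - c₀)(θ² - c₁)` -/
noncomputable def gOne : κ₀[X] := (X ^ 2 - C (c 0)) * (X ^ 2 - C (c 1))

/-- `G₂ = (θ² - c₂)(θ² - c₃)` -/
noncomputable def gTwo : κ₀[X] := (X ^ 2 - C (c 2)) * (X ^ 2 - C (c 3))

/-- `h = G₁ G₂` -/
noncomputable def gAll : κ₀[X] := gOne c * gTwo c

lemma quad_ne_zero (i : Fin 4) : (X ^ 2 - C (c i) : κ₀[X]) ≠ 0 := by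
  intro h
  have := congrArg (fun p => coeff p 2) h
  simp at this

lemma gAll_ne_zero : gAll c ≠ 0 :=
  mul_ne_zero (mul_ne_zero (quad_ne_zero c 0) (quad_ne_zero c 1))
    (mul_ne_zero (quad_ne_zero c 2) (quad_ne_zero c 3))

lemma gAll_even : (gAll c).comp (-X) = gAll c := by
  simp [gAll, gOne, gTwo]

variable {c} (hc : ∀ i, ¬ IsSquare (c i)) (hinj : Function.Injective c)

include hc in
lemma quad_prime (i : Fin 4) : Prime (X ^ 2 - C (c i) : κ₀[X]) := by
  apply Irreducible.prime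
  have hm : (X ^ 2 - C (c i) : κ₀[X]).Monic := monic_X_pow_sub_C _ two_ne_zero
  have hd : (X ^ 2 - C (c i) : κ₀[X]).natDegree = 2 := natDegree_X_pow_sub_C
  rw [hm.irreducible_iff_roots_eq_zero_of_degree_le_three (by omega) (by omega)]
  rw [Multiset.eq_zero_iff_forall_notMem]
  intro a ha
  rw [mem_roots hm.ne_zero, IsRoot.def, eval_sub, eval_pow, eval_X, eval_C, sub_eq_zero] at ha
  exact hc i ⟨a, by rw [← ha, sq]⟩

include hc hinj in
lemma emult_quad (i j : Fin 4) :
    emultiplicity (X ^ 2 - C (c i) : κ₀[X]) (X ^ 2 - C (c j)) = if i = j then 1 else 0 := by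
  split_ifs with h
  · subst h
    exact FiniteMultiplicity.emultiplicity_self
      (FiniteMultiplicity.of_prime_left (quad_prime hc i) (quad_ne_zero c i))
  · rw [emultiplicity_eq_zero]
    intro hd
    have h1 : (X ^ 2 - C (c i) : κ₀[X]) ∣ C (c i - c j) := by
      have h2 : C (c i - c j) = (X ^ 2 - C (c j)) - (X ^ 2 - C (c i) : κ₀[X]) := by
        rw [C_sub]; ring
      rw [h2]
      exact dvd_sub hd dvd_rfl
    have h3 : (C (c i - c j) : κ₀[X]) ≠ 0 := by
      rw [Ne, C_eq_zero, sub_eq_zero]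
      exact fun h' => h (hinj h')
    have h4 := natDegree_le_of_dvd h1 h3
    rw [natDegree_X_pow_sub_C, natDegree_C] at h4
    omega

lemma emult_comp (i : Fin 4) (r : κ₀[X]) :
    emultiplicity (X ^ 2 - C (c i)) (r.comp (-X)) = emultiplicity (X ^ 2 - C (c i)) r := by
  rw [emultiplicity_eq_emultiplicity_iff]
  intro n
  have hq : ((X ^ 2 - C (c i) : κ₀[X]) ^ n).comp (-X) = (X ^ 2 - C (c i)) ^ n := by simp
  have key : ∀ s : κ₀[X], (X ^ 2 - C (c i)) ^ n ∣ s → (X ^ 2 - C (c i)) ^ n ∣ s.comp (-X) := by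
    rintro s ⟨w, rfl⟩
    exact ⟨w.comp (-X), by rw [mul_comp, hq]⟩
  refine ⟨fun h => ?_, key r⟩
  have h1 := key _ h
  rwa [comp_assoc, neg_comp, X_comp, neg_neg, comp_X] at h1

include hc hinj in
/-- The parity contradiction. -/
theorem parity (r s : κ₀[X]) (hr : r ≠ 0) (hs : s ≠ 0) (N₁ N₂ : ℕ)
    (h : gAll c ^ N₁ * (s * s.comp (-X)) = gAll c ^ N₂ * gOne c * (r * r.comp (-X))) : False := by
  have hfin : ∀ (i : Fin 4) (p : κ₀[X]), p ≠ 0 →
      ∃ n : ℕ, emultiplicity (X ^ 2 - C (c i)) p = n := by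
    intro i p hp
    exact ⟨_, (FiniteMultiplicity.of_prime_left (quad_prime hc i) hp).emultiplicity_eq_multiplicity⟩
  have h0 := congrArg (emultiplicity (X ^ 2 - C (c 0) : κ₀[X])) h
  have h2 := congrArg (emultiplicity (X ^ 2 - C (c 2) : κ₀[X])) h
  obtain ⟨r₀, hr₀⟩ := hfin 0 r hr
  obtain ⟨s₀, hs₀⟩ := hfin 0 s hs
  obtain ⟨r₂, hr₂⟩ := hfin 2 r hr
  obtain ⟨s₂, hs₂⟩ := hfin 2 s hs
  rw [emultiplicity_mul (quad_prime hc 0), emultiplicity_mul (quad_prime hc 0),
    emultiplicity_mul (quad_prime hc 0), emultiplicity_mul (quad_prime hc 0),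
    emultiplicity_mul (quad_prime hc 0), emultiplicity_pow (quad_prime hc 0),
    emultiplicity_pow (quad_prime hc 0), gAll, gOne, gTwo,
    emultiplicity_mul (quad_prime hc 0), emultiplicity_mul (quad_prime hc 0),
    emultiplicity_mul (quad_prime hc 0), emult_comp, emult_comp, hr₀, hs₀,
    emult_quad hc hinj, emult_quad hc hinj, emult_quad hc hinj, emult_quad hc hinj] at h0
  rw [emultiplicity_mul (quad_prime hc 2), emultiplicity_mul (quad_prime hc 2),
    emultiplicity_mul (quad_prime hc 2), emultiplicity_mul (quad_prime hc 2),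
    emultiplicity_mul (quad_prime hc 2), emultiplicity_pow (quad_prime hc 2),
    emultiplicity_pow (quad_prime hc 2), gAll, gOne, gTwo,
    emultiplicity_mul (quad_prime hc 2), emultiplicity_mul (quad_prime hc 2),
    emultiplicity_mul (quad_prime hc 2), emult_comp, emult_comp, hr₂, hs₂,
    emult_quad hc hinj, emult_quad hc hinj, emult_quad hc hinj, emult_quad hc hinj] at h2
  simp at h0 h2
  norm_cast at h0 h2
  omega

end Pool.Agent.WeylSub
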