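import Mathlib
import Pool.Agent.WeylSub.Place

/-!
# Residues of algebraically dependent families are algebraically dependent
-/

set_option linter.unusedSectionVars false

namespace Pool.Agent.WeylSub

open Polynomial

lemma res_prod {E K' : Type} [DivisionRing E] [Field K'] (P : Place E K')
    {F : Type} [Field F] (γ : F →+* E) {ι : Type} (f : ι → F) (c : ι → K')
    (hres : ∀ i, P.Res (γ (f i)) (c i)) (m : ι →₀ ℕ) :
    P.Res (γ (m.prod fun i k => f i ^ k)) (m.prod fun i k => c i ^ k) := by
  classical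
  rw [Finsupp.prod, Finsupp.prod]
  induction m.support using Finset.induction_on with
  | empty => simpa using P.res_one
  | insert a s ha ih =>
    rw [Finset.prod_insert ha, Finset.prod_insert ha, map_mul, map_pow]
    exact P.res_mul (P.res_pow (hres a) _) ih

/-- Residues of algebraically dependent families are algebraically dependent. -/
theorem not_algebraicIndependent_res {E K' : Type} [DivisionRing E] [Field K'] (P : Place E K')
    {Λ F κ₀ : Type} [CommRing Λ] [Field F] [Algebra Λ F] [Field κ₀] [Algebra κ₀ K'] (γ : F →+* E)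
    (hinj : Function.Injective (algebraMap Λ F))
    (hc : ∀ (l : Λ) (n : ℤ) (c : K'), P.Res (P.t ^ n * γ (algebraMap Λ F l)) c →
      c ∈ (algebraMap κ₀ K').range)
    {ι : Type} (f : ι → F) (c : ι → K') (hres : ∀ i, P.Res (γ (f i)) (c i))
    (hdep : ¬ AlgebraicIndependent Λ f) : ¬ AlgebraicIndependent κ₀ c := by
  classical
  rw [algebraicIndependent_iff] at hdep ⊢
  push Not at hdep ⊢
  obtain ⟨H, hH0, hH⟩ := hdep
  obtain ⟨m₀, hm₀⟩ := MvPolynomial.ne_zero_iff.mp hH
  obtain ⟨J, l, hl, m₁, hm₁, hl₁⟩ := P.simnorm H.support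
    (fun m => γ (algebraMap Λ F (H.coeff m))) ⟨m₀, by rwa [MvPolynomial.mem_support_iff], by
      rwa [Ne, map_eq_zero, map_eq_zero_iff _ hinj]⟩
  have hex : ∀ m, ∃ h : κ₀, m ∈ H.support → algebraMap κ₀ K' h = l m := by
    intro m
    by_cases hm : m ∈ H.support
    · obtain ⟨h, hh⟩ := hc _ _ _ (hl m hm)
      exact ⟨h, fun _ => hh⟩
    · exact ⟨0, fun h => absurd h hm⟩
  choose h hh using hex
  refine ⟨∑ m ∈ H.support, MvPolynomial.monomial m (h m), ?_, ?_⟩
  · rw [map_sum]
    have h1 : P.Res (∑ m ∈ H.support, P.t ^ J * γ (algebraMap Λ F (H.coeff m)) *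
        γ (m.prod fun i k => f i ^ k)) (∑ m ∈ H.support, MvPolynomial.aeval c
          (MvPolynomial.monomial m (h m))) := by
      refine P.res_sum _ _ _ fun m hm => ?_
      rw [MvPolynomial.aeval_monomial, hh m hm]
      exact P.res_mul (hl m hm) (res_prod P γ f c hres m)
    have h2 : ∑ m ∈ H.support, P.t ^ J * γ (algebraMap Λ F (H.coeff m)) *
        γ (m.prod fun i k => f i ^ k) = 0 := by
      have h3 : ∑ m ∈ H.support, P.t ^ J * γ (algebraMap Λ F (H.coeff m)) *
        γ (m.prod fun i k => f i ^ k) = P.t ^ J * γ (MvPolynomial.aeval f H) := by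
        rw [MvPolynomial.aeval_def, MvPolynomial.eval₂_eq, map_sum, Finset.mul_sum]
        refine Finset.sum_congr rfl fun m _ => ?_
        rw [map_mul, mul_assoc]
        rfl
      rw [h3, hH0, map_zero, mul_zero]
    rw [h2] at h1
    exact P.uniq h1 P.res_zero
  · intro h0
    have h1 := congrArg (MvPolynomial.coeff m₁) h0
    rw [MvPolynomial.coeff_sum, MvPolynomial.coeff_zero] at h1
    simp only [MvPolynomial.coeff_monomial] at h1
    rw [Finset.sum_ite_eq' H.support m₁, if_pos hm₁] at h1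
    apply hl₁
    rw [← hh m₁ hm₁, h1, map_zero]

lemma trdeg_le_one {κ₀ A : Type} [Field κ₀] [Field A] [Algebra κ₀ A]
    (h : ∀ c : Fin 2 → A, ¬ AlgebraicIndependent κ₀ c) : Algebra.trdeg κ₀ A ≤ 1 := by
  obtain ⟨s, hs⟩ := exists_isTranscendenceBasis κ₀ A
  rw [← hs.cardinalMk_eq_trdeg]
  by_contra hcon
  rw [not_le, Cardinal.one_lt_iff_nontrivial] at hcon
  obtain ⟨a, b, hab⟩ := hcon
  refine h (fun i => ((![a, b] : Fin 2 → s) i : A)) ?_
  refine hs.1.comp (![a, b] : Fin 2 → s) ?_
  intro i j hij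
  fin_cases i <;> fin_cases j <;> simp_all

lemma isAlgebraic_frac {R F : Type} [CommRing R] [IsDomain R] [Field F] [Algebra R F]
    [IsFractionRing R F] : Algebra.IsAlgebraic R F := by
  constructor
  intro c
  obtain ⟨a, b, hb, rfl⟩ := IsFractionRing.div_surjective (A := R) c
  have hb0 : b ≠ 0 := nonZeroDivisors.ne_zero hb
  refine ⟨C b * X - C a, ?_, ?_⟩
  · intro h
    have := congrArg (fun p => coeff p 1) h
    simp [coeff_C] at this
    exact hb0 this
  · have : algebraMap R F b ≠ 0 := by rwa [Ne, IsFractionRing.to_map_eq_zero_iff]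
    simp
    field_simp
    simp

/-- the fraction field of `Λ[X]` has transcendence degree one -/
lemma dep_fractionRing {Λ F : Type} [CommRing Λ] [IsDomain Λ] [Field F] [Algebra Λ[X] F]
    [IsFractionRing Λ[X] F] [Algebra Λ F] [IsScalarTower Λ Λ[X] F] (c : Fin 2 → F) :
    ¬ AlgebraicIndependent Λ c := by
  intro h
  have h1 := h.cardinalMk_le_trdeg
  have h2 : Algebra.trdeg Λ F = 1 := by
    have h3 : FaithfulSMul Λ[X] F := by
      rw [faithfulSMul_iff_algebraMap_injective]
      exact IsFractionRing.injective _ _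
    have h4 := _root_.trdeg_add_eq Λ Λ[X] (A := F)
    have h5 : Algebra.IsAlgebraic Λ[X] F := isAlgebraic_frac
    rw [Polynomial.trdeg_of_isDomain, _root_.trdeg_eq_zero (R := Λ[X]) (A := F),
      add_zero] at h4
    exact h4.symm
  rw [h2, Cardinal.mk_fin] at h1
  norm_num at h1

end Pool.Agent.WeylSub
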