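import Mathlib
import Pool.Agent.WeylSub.CPlace
import Pool.Agent.WeylSub.AlgDep

/-!
# Subfields of transcendence degree one of `κ₀(θ, x)`

Via the Kronecker substitution `x ↦ θ^N` such a field embeds in `κ₀(θ)`, so that it is
generated by one element by Lüroth's theorem.
-/

set_option linter.unusedSectionVars false

namespace Pool.Agent.WeylSub

open Polynomial

lemma kronecker {κ₀ : Type} [Field κ₀] (N : ℕ) (G : κ₀[X][X])
    (hG : ∀ i, (G.coeff i).natDegree < N) (h0 : G.eval (X ^ N) = 0) : G = 0 := by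
  induction hn : G.natDegree using Nat.strong_induction_on generalizing G with
  | _ n ih =>
    have hd := divX_mul_X_add G
    have h1 : (G.divX).eval (X ^ N) * X ^ N + G.coeff 0 = 0 := by
      rw [← hd] at h0
      simpa using h0
    have h2 : (X : κ₀[X]) ^ N ∣ G.coeff 0 := by
      refine ⟨-(G.divX).eval (X ^ N), ?_⟩
      linear_combination h1
    have h3 : G.coeff 0 = 0 := by
      by_contra hne
      have h4 := natDegree_le_of_dvd h2 hne
      rw [natDegree_X_pow] at h4
      exact absurd (hG 0) (not_lt.mpr h4)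
    rw [h3, add_zero] at h1
    have h5 : (G.divX).eval (X ^ N) = 0 :=
      (mul_eq_zero.mp h1).resolve_right (pow_ne_zero _ X_ne_zero)
    by_cases hn0 : G.natDegree = 0
    · rw [eq_C_of_natDegree_eq_zero hn0, h3, C_0]
    · have h6 : G.divX = 0 := by
        refine ih G.divX.natDegree ?_ G.divX ?_ h5 rfl
        · rw [natDegree_divX_eq_natDegree_tsub_one]; omega
        · intro i
          rw [coeff_divX]
          exact hG _
      rw [← hd, h6, h3, zero_mul, C_0, add_zero]

variable {κ₀ : Type} [Field κ₀] {K : Type} [Field K] [Algebra κ₀[X][X] K]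
variable [IsFractionRing κ₀[X][X] K]

/-- Kronecker substitution as a place of `κ₀(θ, x)`. -/
lemma exists_kronPlace (N : ℕ) : ∃ P : Place K (RatFunc κ₀), ∀ G : κ₀[X][X],
    P.Res (algebraMap _ K G) (algebraMap κ₀[X] (RatFunc κ₀) (G.eval (X ^ N))) := by
  obtain ⟨P, -, hP⟩ := exists_cplace (F := K) (κ := RatFunc κ₀)
    ((algebraMap κ₀[X] (RatFunc κ₀)).comp (evalRingHom ((X : κ₀[X]) ^ N)))
    (X - C (X ^ N)) (X_sub_C_ne_zero _) (by
      intro r
      rw [dvd_iff_isRoot, IsRoot.def, RingHom.comp_apply, coe_evalRingHom,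
        map_eq_zero_iff _ (RatFunc.algebraMap_injective κ₀)])
  refine ⟨P, fun G => ?_⟩
  rw [hP]
  exact ⟨G, 1, by simp, by simp, by simp⟩

/-- valuation is trivial on elements algebraic over a field on which it is trivial -/
lemma norm_le_of_algebraic {κ : Type} [Field κ] {L : Type} [Field L] (P : Place L κ)
    {S : Type} [CommRing S] (a : S →+* L) (ha : ∀ s, s ≠ 0 → ∃ r, r ≠ 0 ∧ P.Res (a s) r)
    (f : S[X]) (hf : f ≠ 0) (l : L) (hl : f.eval₂ a l = 0) (n : ℤ) (c : κ) (hc : c ≠ 0)
    (h : P.Res (P.t ^ n * l) c) : n ≤ 0 := by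
  classical
  by_contra hn
  push Not at hn
  obtain ⟨m, rfl⟩ := Int.eq_ofNat_of_zero_le hn.le
  have hm : m ≠ 0 := by rintro rfl; simp at hn
  obtain ⟨r, hr, hr'⟩ := ha f.leadingCoeff (leadingCoeff_ne_zero.mpr hf)
  have ha' : ∀ s, ∃ r, P.Res (a s) r := by
    intro s
    by_cases hs : s = 0
    · exact ⟨0, by rw [hs, map_zero]; exact P.res_zero⟩
    · obtain ⟨r, -, h⟩ := ha s hs
      exact ⟨r, h⟩
  choose res hres using ha'
  set d := f.natDegree with hd
  have h1 : P.Res (∑ i ∈ Finset.range (d + 1), a (f.coeff i) * P.t ^ (m * (d - i)) *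
      (P.t ^ (m : ℤ) * l) ^ i)
      (∑ i ∈ Finset.range (d + 1), if i = d then r * c ^ d else 0) := by
    refine P.res_sum _ _ _ fun i hi => ?_
    rw [Finset.mem_range] at hi
    split_ifs with hid
    · subst hid
      rw [Nat.sub_self, mul_zero, pow_zero, mul_one]
      exact P.res_mul hr' (P.res_pow h _)
    · have h2 := P.res_mul (P.res_mul (hres (f.coeff i))
        (P.res_t_pow (n := m * (d - i)) (mul_ne_zero hm (by omega)))) (P.res_pow h i)
      rwa [mul_zero, zero_mul] at h2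
  rw [Finset.sum_ite_eq' (Finset.range (d + 1)) d, if_pos (by simp)] at h1
  have h3 : ∑ i ∈ Finset.range (d + 1), a (f.coeff i) * P.t ^ (m * (d - i)) *
      (P.t ^ (m : ℤ) * l) ^ i = P.t ^ (m * d) * f.eval₂ a l := by
    rw [eval₂_eq_sum_range, Finset.mul_sum]
    refine Finset.sum_congr rfl fun i hi => ?_
    rw [Finset.mem_range] at hi
    have h4 : m * d = m * (d - i) + m * i := by
      rw [← mul_add]; congr 1; omega
    rw [h4, pow_add, mul_pow, zpow_natCast, ← pow_mul]
    ring
  rw [h3, hl, mul_zero] at h1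
  have h5 := P.uniq h1 P.res_zero
  exact mul_ne_zero hr (pow_ne_zero _ hc) h5

/-- A subfield of transcendence degree one of `κ₀(θ, x)` is generated by one element. -/
theorem exists_generator {L : Type} [Field L] [Algebra κ₀ L] (i : L →+* K)
    (hi : ∀ c, i (algebraMap κ₀ L c) = algebraMap κ₀[X][X] K (C (C c)))
    (htr : Algebra.trdeg κ₀ L ≤ 1) (u : L) (hu : Transcendental κ₀ u) :
    ∃ s : L, Transcendental κ₀ s ∧
      ∀ l, ∃ p q : κ₀[X], aeval s q ≠ 0 ∧ l * aeval s q = aeval s p := by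
  classical
  obtain ⟨A, B, hB, hAB⟩ := IsFractionRing.div_surjective (A := κ₀[X][X]) (i u)
  have hB0 : B ≠ 0 := nonZeroDivisors.ne_zero hB
  -- bound on the degrees
  obtain ⟨N, hN⟩ : ∃ N : ℕ, ∀ j, (A.coeff j).natDegree < N ∧ (B.coeff j).natDegree < N := by
    refine ⟨(∑ j ∈ A.support, (A.coeff j).natDegree) +
      (∑ j ∈ B.support, (B.coeff j).natDegree) + 1, fun j => ?_⟩
    have h1 : ∀ G : κ₀[X][X], (G.coeff j).natDegree ≤ ∑ j ∈ G.support, (G.coeff j).natDegree := by
      intro G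
      by_cases hj : j ∈ G.support
      · exact Finset.single_le_sum (f := fun j => (G.coeff j).natDegree) (fun _ _ => Nat.zero_le _)
          hj
      · rw [notMem_support_iff.mp hj, natDegree_zero]
        exact Nat.zero_le _
    have h2 := h1 A
    have h3 := h1 B
    constructor <;> omega
  obtain ⟨P, hP⟩ := exists_kronPlace (κ₀ := κ₀) (K := K) N
  have hBe : B.eval (X ^ N) ≠ 0 := fun h => hB0 (kronecker N B (fun j => (hN j).2) h)
  have hBe' : algebraMap κ₀[X] (RatFunc κ₀) (B.eval (X ^ N)) ≠ 0 := by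
    rwa [Ne, map_eq_zero_iff _ (RatFunc.algebraMap_injective κ₀)]
  obtain ⟨r, hr⟩ : ∃ r, P.Res (i u) r := ⟨_, by
    rw [← hAB, div_eq_inv_mul]; exact P.res_div (hP A) (hP B) hBe'⟩
  have hconst : ∀ c : κ₀, P.Res (i (algebraMap κ₀ L c)) (algebraMap κ₀ (RatFunc κ₀) c) := by
    intro c
    rw [hi]
    have h1 := hP (C (C c))
    rw [eval_C] at h1
    rw [IsScalarTower.algebraMap_apply κ₀ κ₀[X] (RatFunc κ₀)]
    exact h1
  have hrC : ¬ ∃ c, r = RatFunc.C c := by
    rintro ⟨c, rfl⟩
    have h1 : P.Res (i (u - algebraMap κ₀ L c)) 0 := by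
      rw [map_sub]
      have h2 := P.res_sub hr (hconst c)
      rwa [RatFunc.algebraMap_eq_C, sub_self] at h2
    have h2 : i (u - algebraMap κ₀ L c) * algebraMap _ K B =
        algebraMap _ K (A - C (C c) * B) := by
      have hB' : algebraMap κ₀[X][X] K B ≠ 0 := by
        rwa [Ne, IsFractionRing.to_map_eq_zero_iff]
      rw [map_sub, hi, ← hAB, map_sub, map_mul]
      field_simp
    have h3 := P.res_mul h1 (hP B)
    rw [h2, zero_mul] at h3
    have h4 := P.uniq h3 (hP _)
    rw [eq_comm, map_eq_zero_iff _ (RatFunc.algebraMap_injective κ₀)] at h4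
    have h5 := kronecker N _ (fun j => by
      rw [coeff_sub, coeff_C_mul]
      refine lt_of_le_of_lt (natDegree_sub_le _ _) (max_lt (hN j).1 ?_)
      exact lt_of_le_of_lt (natDegree_C_mul_le _ _) (hN j).2) h4
    rw [h5, map_zero] at h2
    have hB' : algebraMap κ₀[X][X] K B ≠ 0 := by
      rwa [Ne, IsFractionRing.to_map_eq_zero_iff]
    have h6 : i (u - algebraMap κ₀ L c) = 0 := (mul_eq_zero.mp h2).resolve_right hB'
    rw [map_eq_zero, sub_eq_zero] at h6
    rw [h6] at hu
    exact hu (isAlgebraic_algebraMap c)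
  have hrt : Transcendental κ₀ r := RatFunc.transcendental_of_ne_C _ hrC
  -- residues of polynomials in `u`
  have hpol : ∀ G : κ₀[X], P.Res (i (aeval u G)) (aeval r G) := by
    intro G
    induction G using Polynomial.induction_on' with
    | add p q hp hq => rw [map_add, map_add, map_add]; exact P.res_add hp hq
    | monomial n a =>
      rw [aeval_monomial, aeval_monomial, map_mul, map_pow]
      exact P.res_mul (hconst a) (P.res_pow hr n)
  have hbasis : IsTranscendenceBasis κ₀ (fun _ : Fin 1 => u) := by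
    have h1 : AlgebraicIndependent κ₀ (fun _ : Fin 1 => u) :=
      (algebraicIndependent_unique_type_iff).mpr hu
    refine h1.isTranscendenceBasis_of_lift_trdeg_le_of_finite ?_
    simpa using htr
  have hrange : Set.range (fun _ : Fin 1 => u) = {u} := by
    rw [Set.range_const]
  have halg := hbasis.isAlgebraic
  rw [hrange] at halg
  have hadj : ∀ s : Algebra.adjoin κ₀ {u}, s ≠ 0 → ∃ r', r' ≠ 0 ∧ P.Res (i s) r' := by
    rintro ⟨s, hs⟩ hs0
    have hs' := hs
    rw [Algebra.adjoin_singleton_eq_range_aeval] at hs'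
    obtain ⟨G, hG⟩ := hs'
    have hG' : aeval u G = s := hG
    refine ⟨aeval r G, ?_, ?_⟩
    · intro h0
      have hG0 : G = 0 := by
        by_contra hG0
        exact hrt ⟨G, hG0, h0⟩
      apply hs0
      ext
      change s = 0
      rw [← hG', hG0, map_zero]
    · change P.Res (i s) _
      rw [← hG']
      exact hpol G
  have hle : ∀ l : L, ∀ (n : ℤ) (c : RatFunc κ₀), c ≠ 0 → P.Res (P.t ^ n * i l) c → n ≤ 0 := by
    intro l n c hc h
    obtain ⟨f, hf, hfl⟩ := halg.isAlgebraic l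
    refine norm_le_of_algebraic P (S := Algebra.adjoin κ₀ {u})
      (i.comp (algebraMap (Algebra.adjoin κ₀ {u}) L)) (fun s hs => ?_) f hf (i l) ?_ n c hc h
    · exact hadj s hs
    · rw [← hom_eval₂]
      have h2 : eval₂ (algebraMap (Algebra.adjoin κ₀ {u}) L) l f = 0 := hfl
      rw [h2, map_zero]
  have hint : ∀ l : L, ∃ c, P.Res (i l) c := by
    intro l
    by_cases hl : l = 0
    · exact ⟨0, by rw [hl, map_zero]; exact P.res_zero⟩
    · obtain ⟨n, c, hc, h⟩ := P.norm (i l) (by rwa [Ne, map_eq_zero])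
      have h1 := hle l n c hc h
      have h2 : P.Res (P.t ^ (-n) * i l⁻¹) c⁻¹ := by
        have h3 := P.res_inv h hc
        rw [mul_inv, ← zpow_neg] at h3
        rwa [map_inv₀]
      have h3 := hle l⁻¹ (-n) c⁻¹ (inv_ne_zero hc) h2
      have h4 : n = 0 := by omega
      subst h4
      exact ⟨c, by simpa using h⟩
  choose e he using hint
  let ee : L →ₐ[κ₀] RatFunc κ₀ :=
    { toFun := e
      map_one' := P.uniq (he 1) (by rw [map_one]; exact P.res_one)
      map_mul' := fun a b => P.uniq (he _) (by rw [map_mul]; exact P.res_mul (he a) (he b))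
      map_zero' := P.uniq (he 0) (by rw [map_zero]; exact P.res_zero)
      map_add' := fun a b => P.uniq (he _) (by rw [map_add]; exact P.res_add (he a) (he b))
      commutes' := fun c => P.uniq (he _) (hconst c) }
  have hee : ∀ l, ee l = e l := fun l => rfl
  have heu : ee u = r := P.uniq (he u) hr
  set M := ee.fieldRange with hM
  have hMbot : M ≠ ⊥ := by
    intro hbot
    have h1 : r ∈ M := ⟨u, heu⟩
    rw [hbot, IntermediateField.mem_bot] at h1
    obtain ⟨c, hc⟩ := h1
    exact hrC ⟨c, by rw [← hc]; rfl⟩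
  obtain ⟨s, hs⟩ : RatFunc.Luroth.generator M ∈ M := RatFunc.Luroth.generator_mem
  have hs' : ee s = RatFunc.Luroth.generator M := hs
  have hst : Transcendental κ₀ (ee s) := by
    rw [hs']
    exact RatFunc.Luroth.transcendental_generator hMbot
  have heinj : Function.Injective ee := ee.toRingHom.injective
  refine ⟨s, fun h => hst (h.algHom ee), fun l => ?_⟩
  have h1 : ee l ∈ M := ⟨l, rfl⟩
  rw [RatFunc.Luroth.eq_adjoin_generator (E := M), ← hs', IntermediateField.mem_adjoin_simple_iff]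
    at h1
  obtain ⟨p, q, hpq⟩ := h1
  by_cases hq : aeval (ee s) q = 0
  · refine ⟨0, 1, by simp, ?_⟩
    rw [hq, div_zero] at hpq
    have : l = 0 := heinj (by rw [hpq, map_zero])
    rw [this, zero_mul, map_zero]
  · refine ⟨p, q, fun h0 => hq ?_, heinj ?_⟩
    · rw [aeval_algHom_apply, h0, map_zero]
    · rw [map_mul, hpq, aeval_algHom_apply, aeval_algHom_apply, div_mul_cancel₀]
      rwa [← aeval_algHom_apply]

/-- Assembling two generators. -/
lemma assemble {κ₀ L K' : Type} [Field κ₀] [Field L] [Field K'] [Algebra κ₀ L] [Algebra L K']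
    (s : L) (hs : Transcendental κ₀ s)
    (hsall : ∀ l : L, ∃ p q : κ₀[X], aeval s q ≠ 0 ∧ l * aeval s q = aeval s p)
    (z : K') (hz : Transcendental L z)
    (hzall : ∀ c : K', ∃ H₁ H₂ : L[X], aeval z H₂ ≠ 0 ∧ c * aeval z H₂ = aeval z H₁) :
    ∃ j : κ₀[X][X] →+* K', Function.Injective j ∧
      (∀ c, j (C (C c)) = algebraMap L K' (algebraMap κ₀ L c)) ∧
      ∀ c, ∃ p q, q ≠ 0 ∧ c * j q = j p := by
  set a₀ : κ₀[X] →+* L := (aeval s : κ₀[X] →ₐ[κ₀] L).toRingHom with ha₀
  have ha₀app : ∀ p : κ₀[X], a₀ p = aeval s p := fun _ => rfl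
  have ha₀inj : Function.Injective a₀ := transcendental_iff_injective.mp hs
  set j : κ₀[X][X] →+* K' := (aeval z : L[X] →ₐ[L] K').toRingHom.comp (mapRingHom a₀) with hj
  have hjapp : ∀ p : κ₀[X][X], j p = aeval z (p.map a₀) := fun _ => rfl
  have hclear : ∀ H : L[X], ∃ d : κ₀[X], d ≠ 0 ∧ ∃ P : κ₀[X][X], P.map a₀ = C (a₀ d) * H := by
    intro H
    induction H using Polynomial.induction_on' with
    | add p q hp hq =>
      obtain ⟨d₁, hd₁, P₁, hP₁⟩ := hp
      obtain ⟨d₂, hd₂, P₂, hP₂⟩ := hq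
      refine ⟨d₁ * d₂, mul_ne_zero hd₁ hd₂, C d₂ * P₁ + C d₁ * P₂, ?_⟩
      rw [Polynomial.map_add, Polynomial.map_mul, Polynomial.map_mul, hP₁, hP₂, Polynomial.map_C,
        Polynomial.map_C, map_mul, C_mul]
      ring
    | monomial n l =>
      obtain ⟨p, q, hq, h⟩ := hsall l
      refine ⟨q, by rintro rfl; simp at hq, monomial n p, ?_⟩
      rw [Polynomial.map_monomial, C_mul_monomial, ha₀app, ha₀app, ← h, mul_comm]
  refine ⟨j, ?_, ?_, ?_⟩
  · exact (transcendental_iff_injective.mp hz).comp (Polynomial.map_injective _ ha₀inj)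
  · intro c
    rw [hjapp, Polynomial.map_C, ha₀app, aeval_C, aeval_C]
  · intro c
    obtain ⟨H₁, H₂, h2, h⟩ := hzall c
    obtain ⟨d₁, hd₁, P₁, hP₁⟩ := hclear H₁
    obtain ⟨d₂, hd₂, P₂, hP₂⟩ := hclear H₂
    refine ⟨C d₂ * P₁, C d₁ * P₂, ?_, ?_⟩
    · refine mul_ne_zero (by rwa [Ne, C_eq_zero]) ?_
      rintro rfl
      rw [Polynomial.map_zero] at hP₂
      rcases mul_eq_zero.mp hP₂.symm with h3 | h3
      · rw [C_eq_zero, map_eq_zero_iff _ ha₀inj] at h3
        exact hd₂ h3
      · rw [h3, map_zero] at h2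
        exact h2 rfl
    · rw [map_mul, map_mul, hjapp P₂, hjapp P₁, hP₁, hP₂, map_mul, map_mul, ← h, hjapp, hjapp,
        Polynomial.map_C, Polynomial.map_C]
      ring

end Pool.Agent.WeylSub
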