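import Mathlib
import Pool.Agent.WeylSub.Place

/-!
# The homogenised Weyl algebra `A = Λ[θ][x; θ ↦ θ + π]` and its Ore localisation
-/

namespace Pool.Agent.WeylSub

open Polynomial

section Coef

variable (Λ : Type) [CommRing Λ] (π : Λ)

/-- The polynomial ring `Λ[θ]`, a type synonym carrying the action of `ℕ` by powers of the shift
`θ ↦ θ + π`. -/
def Coef (Λ : Type) [CommRing Λ] (_π : Λ) : Type := Λ[X]

noncomputable instance : CommRing (Coef Λ π) := inferInstanceAs (CommRing Λ[X])

instance [IsDomain Λ] : IsDomain (Coef Λ π) := inferInstanceAs (IsDomain Λ[X])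

/-- identity map to the synonym -/
noncomputable def toCoef : Λ[X] ≃+* Coef Λ π := RingEquiv.refl _

/-- The shift automorphism `θ ↦ θ + n π` of `Λ[θ]`. -/
noncomputable def shiftHom (n : ℕ) : Λ[X] →+* Λ[X] := (taylorAlgHom (n • π)).toRingHom

lemma shiftHom_apply (n : ℕ) (f : Λ[X]) : shiftHom Λ π n f = taylor (n • π) f := rfl

noncomputable instance : MulSemiringAction (Multiplicative ℕ) (Coef Λ π) where
  smul n f := toCoef Λ π (shiftHom Λ π n.toAdd ((toCoef Λ π).symm f))
  one_smul f := by
    change toCoef Λ π (shiftHom Λ π 0 _) = f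
    rw [shiftHom_apply, zero_smul, taylor_zero]
    rfl
  mul_smul m n f := by
    change toCoef Λ π (shiftHom Λ π (m.toAdd + n.toAdd) _) =
      toCoef Λ π (shiftHom Λ π m.toAdd (shiftHom Λ π n.toAdd _))
    rw [shiftHom_apply, shiftHom_apply, shiftHom_apply, taylor_taylor, add_smul]
  smul_zero n := by
    change toCoef Λ π (shiftHom Λ π n.toAdd _) = 0
    rw [map_zero, map_zero, map_zero]
  smul_add n f g := by
    change toCoef Λ π (shiftHom Λ π n.toAdd _) = _
    rw [map_add, map_add, map_add]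
    rfl
  smul_one n := by
    change toCoef Λ π (shiftHom Λ π n.toAdd _) = 1
    rw [map_one, map_one, map_one]
  smul_mul n f g := by
    change toCoef Λ π (shiftHom Λ π n.toAdd _) = _
    rw [map_mul, map_mul, map_mul]
    rfl

lemma smul_toCoef (n : ℕ) (f : Λ[X]) :
    (Multiplicative.ofAdd n) • toCoef Λ π f = toCoef Λ π (taylor (n • π) f) := rfl

/-- The ring `A = Λ[θ][x]` with `x θ = (θ + π) x`. -/
abbrev SA : Type := SkewMonoidAlgebra (Coef Λ π) (Multiplicative ℕ)

namespace SA

open SkewMonoidAlgebra Multiplicative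

/-- The element `r xⁿ`. -/
noncomputable def mono (n : ℕ) (r : Λ[X]) : SA Λ π := single (ofAdd n) (toCoef Λ π r)

lemma mono_mul_mono (m n : ℕ) (r s : Λ[X]) :
    mono Λ π m r * mono Λ π n s = mono Λ π (m + n) (r * taylor (m • π) s) := by
  rw [mono, mono, single_mul_single, smul_toCoef]
  exact congrArg (single _) (map_mul (toCoef Λ π) _ _).symm

/-- The coefficient polynomial of an element of `A`. -/
noncomputable def toA : Λ[X][X] →+ SA Λ π where
  toFun p := p.sum fun n r => mono Λ π n r
  map_zero' := by simp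
  map_add' p q := by
    rw [Polynomial.sum_add_index]
    · intro i; simp [mono]
    · intro i a b; simp [mono]

lemma toA_monomial (n : ℕ) (r : Λ[X]) : toA Λ π (monomial n r) = mono Λ π n r := by
  change (monomial n r).sum (fun n r => mono Λ π n r) = _
  rw [Polynomial.sum_monomial_index]
  simp [mono]

/-- coefficients -/
noncomputable def cf (n : ℕ) : SA Λ π →+ Λ[X] where
  toFun a := (toCoef Λ π).symm (a.coeff (ofAdd n))
  map_zero' := by simp
  map_add' a b := by simp

lemma cf_mono (m n : ℕ) (r : Λ[X]) : cf Λ π n (mono Λ π m r) = if m = n then r else 0 := by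
  change (toCoef Λ π).symm ((single (ofAdd m) (toCoef Λ π r)).coeff (ofAdd n)) = _
  rw [coeff_single_apply]
  split_ifs with h1 h2 h2
  · simp
  · exact absurd (ofAdd.injective h1) h2
  · exact absurd (congrArg ofAdd h2) h1
  · simp

lemma cf_toA (n : ℕ) (p : Λ[X][X]) : cf Λ π n (toA Λ π p) = p.coeff n := by
  induction p using Polynomial.induction_on' with
  | add p q hp hq => rw [map_add, map_add, hp, hq, Polynomial.coeff_add]
  | monomial m r => rw [toA_monomial, cf_mono, Polynomial.coeff_monomial]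

lemma ext_cf {a b : SA Λ π} (h : ∀ n, cf Λ π n a = cf Λ π n b) : a = b := by
  apply SkewMonoidAlgebra.ext
  intro n
  have := h n.toAdd
  exact (toCoef Λ π).symm.injective this

lemma toA_injective : Function.Injective (toA Λ π) := by
  intro p q h
  ext1 n
  rw [← cf_toA Λ π, ← cf_toA Λ π, h]

lemma toA_surjective : Function.Surjective (toA Λ π) := by
  intro a
  induction a using SkewMonoidAlgebra.induction_on with
  | zero => exact ⟨0, map_zero _⟩
  | single g r => exact ⟨monomial g.toAdd ((toCoef Λ π).symm r), by rw [toA_monomial]; rfl⟩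
  | add f g hf hg =>
    obtain ⟨p, rfl⟩ := hf
    obtain ⟨q, rfl⟩ := hg
    exact ⟨p + q, map_add _ _ _⟩

/-- Universal property: a ring homomorphism out of `A`. -/
noncomputable def lift {T : Type*} [Ring T] (f : Λ[X] →+* T) (y : T)
    (h : ∀ r, y * f r = f (taylor π r) * y) : SA Λ π →+* T :=
  SkewMonoidAlgebra.liftNCRingHom (f.comp (toCoef Λ π).symm.toRingHom) (powersHom T y) (by
    intro r n
    have key : ∀ (n : ℕ) (r : Λ[X]), f (taylor (n • π) r) * y ^ n = y ^ n * f r := by
      intro n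
      induction n with
      | zero => intro r; simp
      | succ n ih =>
        intro r
        rw [pow_succ, mul_assoc (y ^ n) y, h, ← mul_assoc (y ^ n), ← ih, succ_nsmul,
          ← taylor_taylor, mul_assoc]
    have h1 := key n.toAdd ((toCoef Λ π).symm r)
    rw [powersHom_apply]
    exact h1)

variable {T : Type*} [Ring T] (f : Λ[X] →+* T) (y : T)
    (h : ∀ r, y * f r = f (taylor π r) * y)

lemma lift_mono (n : ℕ) (r : Λ[X]) : lift Λ π f y h (mono Λ π n r) = f r * y ^ n := by
  change SkewMonoidAlgebra.liftNC _ _ (single _ _) = _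
  rw [SkewMonoidAlgebra.liftNC_single]
  simp [powersHom_apply]

lemma lift_toA (p : Λ[X][X]) : lift Λ π f y h (toA Λ π p) = p.eval₂ f y := by
  induction p using Polynomial.induction_on' with
  | add p q hp hq => rw [map_add, map_add, hp, hq, eval₂_add]
  | monomial m r => rw [toA_monomial, lift_mono, eval₂_monomial]

/-- the central element `π` -/
noncomputable def pA : SA Λ π := mono Λ π 0 (C π)

lemma pA_mul_toA (p : Λ[X][X]) : pA Λ π * toA Λ π p = toA Λ π (C (C π) * p) := by
  induction p using Polynomial.induction_on' with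
  | add p q hp hq => rw [map_add, mul_add, hp, hq, mul_add, map_add]
  | monomial m r =>
    rw [toA_monomial, pA, mono_mul_mono, C_mul_monomial, toA_monomial, zero_smul, taylor_zero,
      zero_add]

lemma pA_pow_mul_toA (n : ℕ) (p : Λ[X][X]) :
    pA Λ π ^ n * toA Λ π p = toA Λ π (C (C π) ^ n * p) := by
  induction n generalizing p with
  | zero => simp
  | succ n ih => rw [pow_succ, mul_assoc, pA_mul_toA, ih, pow_succ, mul_assoc]

lemma pA_comm (a : SA Λ π) : pA Λ π * a = a * pA Λ π := by
  obtain ⟨p, rfl⟩ := toA_surjective Λ π a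
  induction p using Polynomial.induction_on' with
  | add p q hp hq => rw [map_add, mul_add, hp, hq, add_mul]
  | monomial m r =>
    rw [toA_monomial, pA, mono_mul_mono, mono_mul_mono, zero_smul, taylor_zero,
      zero_add, add_zero, taylor_C, mul_comm]

section Reduction

variable {κ₀ : Type} [Field κ₀] (ev : Λ →+* κ₀) (hev : ∀ l, ev l = 0 ↔ π ∣ l)

lemma map_taylor_eq (hπ : ev π = 0) (r : Λ[X]) :
    (taylor π r).map ev = r.map ev := by
  rw [taylor_apply, Polynomial.map_comp]
  simp [hπ]

/-- The reduction `A → κ₀[θ][x]` modulo `π`. -/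
noncomputable def rho (hπ : ev π = 0) : SA Λ π →+* κ₀[X][X] :=
  lift Λ π (C.comp (mapRingHom ev)) X (by
    intro r
    rw [X_mul]
    simp [map_taylor_eq Λ π ev hπ])

lemma rho_toA (hπ : ev π = 0) (p : Λ[X][X]) :
    rho Λ π ev hπ (toA Λ π p) = p.map (mapRingHom ev) := by
  rw [rho, lift_toA]
  rfl

include hev in
lemma map_map_eq_zero_iff (p : Λ[X][X]) :
    p.map (mapRingHom ev) = 0 ↔ C (C π) ∣ p := by
  constructor
  · intro h
    rw [C_dvd_iff_dvd_coeff]
    intro i
    rw [C_dvd_iff_dvd_coeff]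
    intro j
    rw [← hev]
    have h1 : ((p.map (mapRingHom ev)).coeff i).coeff j = 0 := by rw [h]; simp
    simpa using h1
  · rintro ⟨q, rfl⟩
    have : ev π = 0 := (hev π).mpr dvd_rfl
    simp [this]

include hev in
lemma exists_reduced [IsDomain Λ] [IsNoetherianRing Λ] (p : Λ[X][X]) (hp : p ≠ 0) :
    ∃ n : ℕ, ∃ q : Λ[X][X], p = C (C π) ^ n * q ∧ q.map (mapRingHom ev) ≠ 0 := by
  have hnu : ¬ IsUnit (C (C π) : Λ[X][X]) := by
    intro h
    have h1 := h.map (mapRingHom (mapRingHom ev) : Λ[X][X] →+* κ₀[X][X])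
    have h2 : (mapRingHom (mapRingHom ev)) (C (C π) : Λ[X][X]) = 0 := by
      have : ev π = 0 := (hev π).mpr dvd_rfl
      simp [this]
    rw [h2] at h1
    exact not_isUnit_zero h1
  obtain ⟨n, a, ha, hpa⟩ := WfDvdMonoid.max_power_factor' hp hnu
  exact ⟨n, a, hpa, fun h => ha ((map_map_eq_zero_iff Λ π ev hev a).mp h)⟩

include hev in
lemma exists_reduced' [IsDomain Λ] [IsNoetherianRing Λ] (a : SA Λ π) (ha : a ≠ 0) :
    ∃ n : ℕ, ∃ b : SA Λ π, a = pA Λ π ^ n * b ∧
      rho Λ π ev ((hev π).mpr dvd_rfl) b ≠ 0 := by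
  obtain ⟨p, rfl⟩ := toA_surjective Λ π a
  obtain ⟨n, q, hq, hq'⟩ := exists_reduced Λ π ev hev p (by rintro rfl; exact ha (map_zero _))
  refine ⟨n, toA Λ π q, by rw [pA_pow_mul_toA, hq], by rwa [rho_toA]⟩

variable (hπ0 : π ≠ 0)

include hπ0 in
lemma pA_pow_mul_eq_zero [IsDomain Λ] (n : ℕ) (a : SA Λ π) (h : pA Λ π ^ n * a = 0) : a = 0 := by
  obtain ⟨p, rfl⟩ := toA_surjective Λ π a
  rw [pA_pow_mul_toA] at h
  have h1 : C (C π) ^ n * p = 0 := toA_injective Λ π (by rw [h, map_zero])
  have h2 : (C (C π) : Λ[X][X]) ^ n ≠ 0 := pow_ne_zero _ (by simpa using hπ0)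
  rw [(mul_eq_zero.mp h1).resolve_left h2, map_zero]

include hev hπ0 in
lemma noZeroDivisors [IsDomain Λ] [IsNoetherianRing Λ] : NoZeroDivisors (SA Λ π) where
  eq_zero_or_eq_zero_of_mul_eq_zero := by
    intro a b hab
    by_contra hcon
    push Not at hcon
    obtain ⟨ha, hb⟩ := hcon
    obtain ⟨n, a', rfl, ha'⟩ := exists_reduced' Λ π ev hev a ha
    obtain ⟨m, b', rfl, hb'⟩ := exists_reduced' Λ π ev hev b hb
    have h1 : pA Λ π ^ n * a' * (pA Λ π ^ m * b') = pA Λ π ^ (n + m) * (a' * b') := by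
      have hc : pA Λ π ^ m * a' = a' * pA Λ π ^ m :=
        (Commute.pow_left (show Commute (pA Λ π) a' from pA_comm Λ π a') m)
      rw [pow_add, mul_assoc, mul_assoc, ← mul_assoc a', ← hc, mul_assoc]
    rw [h1] at hab
    have h2 := pA_pow_mul_eq_zero Λ π hπ0 _ _ hab
    have h3 : rho Λ π ev ((hev π).mpr dvd_rfl) (a' * b') = 0 := by rw [h2, map_zero]
    rw [map_mul] at h3
    exact mul_ne_zero ha' hb' h3

end Reduction

lemma cf_mono_mul (i j : ℕ) (r : Λ[X]) (p : Λ[X][X]) :
    cf Λ π j (mono Λ π i r * toA Λ π p) =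
      if i ≤ j then r * taylor (i • π) (p.coeff (j - i)) else 0 := by
  induction p using Polynomial.induction_on' with
  | add p q hp hq =>
    rw [map_add, mul_add, map_add, hp, hq, Polynomial.coeff_add]
    split_ifs
    · rw [map_add, mul_add]
    · simp
  | monomial m s =>
    rw [toA_monomial, mono_mul_mono, cf_mono, Polynomial.coeff_monomial]
    by_cases h : i + m = j
    · rw [if_pos h, if_pos (by omega), if_pos (by omega)]
    · rw [if_neg h]
      split_ifs with h1 h2
      · omega
      · simp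
      · rfl

lemma mono_eq (i : ℕ) (r : Λ[X]) : mono Λ π i r = mono Λ π 0 r * mono Λ π i 1 := by
  rw [mono_mul_mono, zero_smul, taylor_zero, zero_add, mul_one]

lemma cf_C_mul (j : ℕ) (r : Λ[X]) (a : SA Λ π) :
    cf Λ π j (mono Λ π 0 r * a) = r * cf Λ π j a := by
  obtain ⟨p, rfl⟩ := toA_surjective Λ π a
  rw [cf_mono_mul, cf_toA]
  simp

/-- The Ore condition. -/
lemma exists_ore [IsDomain Λ] (a b : SA Λ π) :
    ∃ c d : SA Λ π, (c ≠ 0 ∨ d ≠ 0) ∧ c * a = d * b := by
  classical
  obtain ⟨p, rfl⟩ := toA_surjective Λ π a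
  obtain ⟨q, rfl⟩ := toA_surjective Λ π b
  set m := max p.natDegree q.natDegree with hm
  let M : Matrix (Fin (2 * m + 1)) (Fin (m + 1) ⊕ Fin (m + 1)) Λ[X] := fun j α =>
    match α with
    | Sum.inl i => cf Λ π j (mono Λ π i 1 * toA Λ π p)
    | Sum.inr i => - cf Λ π j (mono Λ π i 1 * toA Λ π q)
  have hninj : ¬ Function.Injective M.mulVecLin := by
    intro h
    have h1 := card_le_of_injective Λ[X] M.mulVecLin h
    simp only [Fintype.card_sum, Fintype.card_fin] at h1
    omega
  rw [← LinearMap.ker_eq_bot, Submodule.eq_bot_iff] at hninj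
  push Not at hninj
  obtain ⟨u, hu, hu0⟩ := hninj
  rw [LinearMap.mem_ker, Matrix.mulVecLin_apply] at hu
  refine ⟨∑ i : Fin (m + 1), mono Λ π i (u (Sum.inl i)),
    ∑ i : Fin (m + 1), mono Λ π i (u (Sum.inr i)), ?_, ?_⟩
  · by_contra hcon
    push Not at hcon
    apply hu0
    have key : ∀ v : Fin (m + 1) → Λ[X], ∑ i : Fin (m + 1), mono Λ π i (v i) = 0 →
        ∀ i, v i = 0 := by
      intro v hv i
      have h1 : cf Λ π i (∑ i : Fin (m + 1), mono Λ π i (v i)) = v i := by
        rw [_root_.map_sum, Finset.sum_eq_single i]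
        · rw [cf_mono, if_pos rfl]
        · intro j _ hj
          rw [cf_mono, if_neg]
          intro h
          exact hj (Fin.ext h)
        · simp
      rw [← h1, hv, map_zero]
    funext α
    rcases α with i | i
    · exact key (fun i => u (Sum.inl i)) hcon.1 i
    · exact key (fun i => u (Sum.inr i)) hcon.2 i
  · rw [← sub_eq_zero]
    apply ext_cf
    intro j
    rw [map_zero, map_sub, Finset.sum_mul, Finset.sum_mul, _root_.map_sum,
      _root_.map_sum]
    by_cases hj : j < 2 * m + 1
    · have h1 := congrFun hu ⟨j, hj⟩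
      rw [Matrix.mulVec, dotProduct, Fintype.sum_sum_type, Pi.zero_apply] at h1
      rw [sub_eq_add_neg, ← Finset.sum_neg_distrib]
      convert h1 using 2
      · refine Finset.sum_congr rfl fun i _ => ?_
        rw [mono_eq, mul_assoc, cf_C_mul, mul_comm]
      · refine Finset.sum_congr rfl fun i _ => ?_
        rw [mono_eq, mul_assoc, cf_C_mul, mul_comm]
        simp only [M]
        ring
    · rw [Finset.sum_eq_zero, Finset.sum_eq_zero, sub_zero]
      · intro i _
        rw [cf_mono_mul, if_pos (by omega), coeff_eq_zero_of_natDegree_lt, map_zero, mul_zero]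
        omega
      · intro i _
        rw [cf_mono_mul, if_pos (by omega), coeff_eq_zero_of_natDegree_lt, map_zero, mul_zero]
        omega

end SA

end Coef

end Pool.Agent.WeylSub
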