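import Mathlib
import Pool.Agent.WeylSub.Skew

/-!
# A division ring of fractions of `A`, with its `π`-adic place
-/

set_option linter.unusedSectionVars false
set_option linter.style.haveILetI false

namespace Pool.Agent.WeylSub

open Polynomial SA

variable {Λ : Type} [CommRing Λ] [IsDomain Λ] [IsNoetherianRing Λ] {π : Λ}
variable {κ₀ : Type} [Field κ₀] {ev : Λ →+* κ₀}

section Aux

variable (hev : ∀ l, ev l = 0 ↔ π ∣ l) (hπ0 : π ≠ 0)

include hev in
lemma exists_of_rho_eq_zero (d : SA Λ π) (h : rho Λ π ev ((hev π).mpr dvd_rfl) d = 0) :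
    ∃ d', d = pA Λ π * d' := by
  obtain ⟨p, rfl⟩ := toA_surjective Λ π d
  rw [rho_toA, map_map_eq_zero_iff Λ π ev hev] at h
  obtain ⟨q, rfl⟩ := h
  exact ⟨toA Λ π q, by rw [pA_mul_toA]⟩

include hπ0 in
lemma pA_mul_cancel {a b : SA Λ π} (h : pA Λ π * a = pA Λ π * b) : a = b := by
  rw [← sub_eq_zero] at h ⊢
  rw [← mul_sub] at h
  exact pA_pow_mul_eq_zero Λ π hπ0 1 _ (by rwa [pow_one])

include hev hπ0 in
lemma ore_step (n : ℕ) (a s c d : SA Λ π) (hs : rho Λ π ev ((hev π).mpr dvd_rfl) s ≠ 0)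
    (h : pA Λ π ^ n * c * a = d * s) : ∃ d', c * a = d' * s := by
  induction n generalizing d with
  | zero => exact ⟨d, by simpa using h⟩
  | succ n ih =>
    have h1 := congrArg (rho Λ π ev ((hev π).mpr dvd_rfl)) h
    have h2 : rho Λ π ev ((hev π).mpr dvd_rfl) (pA Λ π) = 0 := by
      have : pA Λ π = toA Λ π (monomial 0 (C π)) := by rw [toA_monomial]; rfl
      rw [this, rho_toA]
      have : ev π = 0 := (hev π).mpr dvd_rfl
      simp [this]
    rw [map_mul, map_mul, map_pow, h2, zero_pow (by omega), zero_mul, zero_mul, map_mul] at h1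
    obtain ⟨d', rfl⟩ := exists_of_rho_eq_zero hev d ((mul_eq_zero.mp h1.symm).resolve_right hs)
    apply ih d'
    apply pA_mul_cancel hπ0
    rw [← mul_assoc, ← mul_assoc, ← mul_assoc, ← pow_succ', h, mul_assoc]

include hev hπ0 in
lemma ore_t (a s : SA Λ π) (hs : rho Λ π ev ((hev π).mpr dvd_rfl) s ≠ 0) :
    ∃ u v : SA Λ π, rho Λ π ev ((hev π).mpr dvd_rfl) u ≠ 0 ∧ u * a = v * s := by
  haveI := noZeroDivisors Λ π ev hev hπ0
  obtain ⟨c, d, hcd, h⟩ := exists_ore Λ π a s
  have hs0 : s ≠ 0 := by rintro rfl; exact hs (map_zero _)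
  have hc : c ≠ 0 := by
    rintro rfl
    rw [zero_mul] at h
    rcases hcd with h1 | h1
    · exact h1 rfl
    · exact mul_ne_zero h1 hs0 h.symm
  obtain ⟨n, c', rfl, hc'⟩ := exists_reduced' Λ π ev hev c hc
  obtain ⟨d', hd'⟩ := ore_step hev hπ0 n a s c' d hs h
  exact ⟨c', d', hc', hd'⟩

end Aux

/-- A division ring `E` together with an embedding of `A` as a ring of (left) fractions. -/
structure FracData (Λ : Type) [CommRing Λ] (π : Λ) (E : Type) [DivisionRing E] where
  num : SA Λ π →+* E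
  inj : Function.Injective num
  frac : ∀ e : E, ∃ s a : SA Λ π, s ≠ 0 ∧ num s * e = num a
  /-- universal property of the localisation -/
  lift : ∀ (f : SA Λ π →+* E), (∀ a, a ≠ 0 → f a ≠ 0) → ∃ F : E →+* E, ∀ a, F (num a) = f a

/-- Existence of the division ring of fractions. -/
theorem exists_fracData (hev : ∀ l, ev l = 0 ↔ π ∣ l) (hπ0 : π ≠ 0) :
    ∃ (E : Type) (_ : DivisionRing E), Nonempty (FracData Λ π E) := by
  haveI hnz := noZeroDivisors Λ π ev hev hπ0
  haveI : Nontrivial (SA Λ π) := ⟨⟨1, 0, by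
    intro h
    have h1 := congrArg (cf Λ π 0) h
    have h2 : (1 : SA Λ π) = mono Λ π 0 1 := rfl
    rw [h2, cf_mono, if_pos rfl, map_zero] at h1
    exact one_ne_zero h1⟩⟩
  have hore : Nonempty (OreLocalization.OreSet (nonZeroDivisors (SA Λ π))) := by
    rw [OreLocalization.nonempty_oreSet_iff_of_noZeroDivisors]
    intro r s
    obtain ⟨c, d, hcd, h⟩ := exists_ore Λ π r s
    have hs0 : (s : SA Λ π) ≠ 0 := nonZeroDivisors.coe_ne_zero s
    have hc : c ≠ 0 := by
      rintro rfl
      rw [zero_mul] at h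
      rcases hcd with h1 | h1
      · exact h1 rfl
      · exact mul_ne_zero h1 hs0 h.symm
    exact ⟨d, ⟨c, mem_nonZeroDivisors_of_ne_zero hc⟩, h⟩
  obtain ⟨hore⟩ := hore
  letI := hore
  refine ⟨OreLocalization (nonZeroDivisors (SA Λ π)) (SA Λ π), inferInstance, ⟨?_⟩⟩
  refine
    { num := OreLocalization.numeratorRingHom
      inj := OreLocalization.numeratorHom_inj (fun x hx => hx.1)
      frac := ?_
      lift := ?_ }
  · intro e
    induction e using OreLocalization.ind with
    | _ r s =>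
      exact ⟨s, r, nonZeroDivisors.coe_ne_zero s, OreLocalization.mul_cancel⟩
  · intro f hf
    let fS : nonZeroDivisors (SA Λ π) →* (OreLocalization (nonZeroDivisors (SA Λ π)) (SA Λ π))ˣ :=
      { toFun := fun s => Units.mk0 (f s) (hf s (nonZeroDivisors.coe_ne_zero s))
        map_one' := by ext; simp
        map_mul' := fun a b => by ext; simp }
    exact ⟨OreLocalization.universalHom f fS (fun s => rfl),
      fun a => OreLocalization.universalHom_commutes f fS (fun s => rfl)⟩

end Pool.Agent.WeylSub
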