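import Mathlib
import Pool.Agent.WeylSub.Loc

/-!
# The `π`-adic place of the division ring of fractions of `A`
-/

set_option linter.unusedSectionVars false
set_option linter.style.haveILetI false

namespace Pool.Agent.WeylSub

open Polynomial SA

variable {Λ : Type} [CommRing Λ] [IsDomain Λ] [IsNoetherianRing Λ] {π : Λ}
variable {κ₀ : Type} [Field κ₀] {ev : Λ →+* κ₀}
variable {E : Type} [DivisionRing E] (D : FracData Λ π E)
variable {K : Type} [Field K] [Algebra κ₀[X][X] K] [IsFractionRing κ₀[X][X] K]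
variable (hev : ∀ l, ev l = 0 ↔ π ∣ l) (hπ0 : π ≠ 0)

namespace FracData

variable (K) in
/-- reduction of elements of `A` to `K` -/
noncomputable def red : SA Λ π →+* K :=
  (algebraMap κ₀[X][X] K).comp (rho Λ π ev ((hev π).mpr dvd_rfl))

lemma red_ne_zero_iff {a : SA Λ π} :
    red K hev a ≠ 0 ↔ rho Λ π ev ((hev π).mpr dvd_rfl) a ≠ 0 := by
  rw [red, RingHom.comp_apply, Ne, IsFractionRing.to_map_eq_zero_iff]

lemma red_pA : red K hev (pA Λ π) = 0 := by
  have h1 : pA Λ π = toA Λ π (monomial 0 (C π)) := by rw [toA_monomial]; rfl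
  have h2 : ev π = 0 := (hev π).mpr dvd_rfl
  rw [red, RingHom.comp_apply, h1, rho_toA]
  simp [h2]

include hev hπ0 in
lemma ore_red (a s : SA Λ π) (hs : red K hev s ≠ 0) :
    ∃ u v : SA Λ π, red K hev u ≠ 0 ∧ u * a = v * s := by
  obtain ⟨u, v, hu, h⟩ := ore_t hev hπ0 a s ((red_ne_zero_iff hev).mp hs)
  exact ⟨u, v, (red_ne_zero_iff hev).mpr hu, h⟩

/-- Integrality with given residue. -/
def ResE (e : E) (c : K) : Prop :=
  ∃ s a : SA Λ π, red K hev s ≠ 0 ∧ D.num s * e = D.num a ∧ c = red K hev a / red K hev s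

lemma resE_num (a : SA Λ π) : D.ResE hev (D.num a) (red K hev a) :=
  ⟨1, a, by simp, by simp, by simp⟩

include hπ0 in
/-- Existence of the place. -/
theorem exists_place : ∃ P : Place E K, P.t = D.num (pA Λ π) ∧ P.Res = D.ResE hev := by
  have hnum0 : ∀ s : SA Λ π, s ≠ 0 → D.num s ≠ 0 := fun s hs h =>
    hs (D.inj (by rw [h, map_zero]))
  have hne : ∀ s : SA Λ π, red K hev s ≠ 0 → D.num s ≠ 0 := by
    intro s hs h
    apply hs
    rw [D.inj (by rw [h, map_zero] : D.num s = D.num 0), map_zero]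
  have hpA0 : pA Λ π ≠ 0 := by
    intro h
    have h1 := pA_pow_mul_eq_zero Λ π hπ0 1 1 (by rw [h]; simp)
    have h2 : red K hev (1 : SA Λ π) = 0 := by rw [h1, map_zero]
    rw [map_one] at h2
    exact one_ne_zero h2
  have hcomm : ∀ e : E, D.num (pA Λ π) * e = e * D.num (pA Λ π) := by
    intro e
    obtain ⟨s, a, hs, h⟩ := D.frac e
    have h1 : D.num s * (D.num (pA Λ π) * e) = D.num s * (e * D.num (pA Λ π)) := by
      rw [← mul_assoc, ← map_mul, ← pA_comm, map_mul, mul_assoc, h, ← mul_assoc, h, ← map_mul,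
        ← map_mul, pA_comm]
    exact mul_left_cancel₀ (hnum0 s hs) h1
  refine ⟨
    { Res := D.ResE hev
      t := D.num (pA Λ π)
      t_ne := hnum0 _ hpA0
      t_comm := hcomm
      res_t := ?_
      res_one := ?_
      res_add := ?_
      res_neg := ?_
      res_mul := ?_
      uniq := ?_
      norm := ?_ }, rfl, rfl⟩
  · have := D.resE_num (K := K) hev (pA Λ π)
    rwa [red_pA] at this
  · have := D.resE_num (K := K) hev 1
    rwa [map_one, map_one] at this
  · rintro e e' c c' ⟨s, a, hs, h, rfl⟩ ⟨s', a', hs', h', rfl⟩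
    obtain ⟨u, v, hu, huv⟩ := ore_red (K := K) hev hπ0 s s' hs'
    have hv : red K hev v ≠ 0 := by
      intro h0
      have h1 := congrArg (red K hev) huv
      rw [map_mul, map_mul, h0, zero_mul] at h1
      exact mul_ne_zero hu hs h1
    refine ⟨u * s, u * a + v * a', ?_, ?_, ?_⟩
    · rw [map_mul]; exact mul_ne_zero hu hs
    · rw [mul_add, map_add]
      congr 1
      · rw [map_mul, mul_assoc, h, ← map_mul]
      · rw [huv, map_mul, mul_assoc, h', ← map_mul]
    · have h1 := congrArg (red K hev) huv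
      rw [map_mul, map_mul] at h1
      have h2 : red K hev a' / red K hev s' =
          red K hev v * red K hev a' / (red K hev u * red K hev s) := by
        rw [h1, mul_div_mul_left _ _ hv]
      rw [h2, ← mul_div_mul_left (red K hev a) (red K hev s) hu, ← add_div, map_add, map_mul,
        map_mul, map_mul]
  · rintro e c ⟨s, a, hs, h, rfl⟩
    exact ⟨s, -a, hs, by rw [mul_neg, h, map_neg], by rw [map_neg, neg_div]⟩
  · rintro e e' c c' ⟨s, a, hs, h, rfl⟩ ⟨s', a', hs', h', rfl⟩
    obtain ⟨u, v, hu, huv⟩ := ore_red (K := K) hev hπ0 a s' hs'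
    refine ⟨u * s, v * a', ?_, ?_, ?_⟩
    · rw [map_mul]; exact mul_ne_zero hu hs
    · rw [map_mul, mul_assoc, ← mul_assoc (D.num s), h, ← mul_assoc, ← map_mul, huv, map_mul,
        mul_assoc, h', ← map_mul]
    · have h1 := congrArg (red K hev) huv
      rw [map_mul, map_mul] at h1
      rw [map_mul, map_mul]
      field_simp
      calc red K hev a * red K hev a' * red K hev u = (red K hev u * red K hev a) * red K hev a' := by
            ring
        _ = _ := by rw [h1]; ring
  · rintro e c c' ⟨s, a, hs, h, rfl⟩ ⟨s', a', hs', h', rfl⟩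
    obtain ⟨u, v, hu, huv⟩ := ore_red (K := K) hev hπ0 s s' hs'
    have hua : u * a = v * a' := by
      apply D.inj
      rw [map_mul, map_mul, ← h, ← h', ← mul_assoc, ← mul_assoc, ← map_mul, ← map_mul, huv]
    have h1 := congrArg (red K hev) huv
    have h2 := congrArg (red K hev) hua
    rw [map_mul, map_mul] at h1 h2
    rw [div_eq_div_iff hs hs']
    have h3 : red K hev u * (red K hev a * red K hev s') =
        red K hev u * (red K hev a' * red K hev s) := by
      calc red K hev u * (red K hev a * red K hev s')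
          = (red K hev u * red K hev a) * red K hev s' := by ring
        _ = (red K hev v * red K hev s') * red K hev a' := by rw [h2]; ring
        _ = _ := by rw [← h1]; ring
    exact mul_left_cancel₀ hu h3
  · intro e he
    obtain ⟨s, a, hs, h⟩ := D.frac e
    have ha : a ≠ 0 := by
      rintro rfl
      rw [map_zero] at h
      exact mul_ne_zero (hnum0 s hs) he h
    obtain ⟨n, s', rfl, hs'⟩ := exists_reduced' Λ π ev hev s hs
    obtain ⟨m, a', rfl, ha'⟩ := exists_reduced' Λ π ev hev a ha
    have ha'' := (red_ne_zero_iff (K := K) hev).mpr ha'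
    have hs'' := (red_ne_zero_iff (K := K) hev).mpr hs'
    refine ⟨(n : ℤ) - m, red K hev a' / red K hev s', div_ne_zero ha'' hs'', s', a', hs'', ?_, rfl⟩
    have ht0 : D.num (pA Λ π) ≠ 0 := hnum0 _ hpA0
    have hc2 : D.num s' * D.num (pA Λ π) ^ ((n : ℤ) - m) =
        D.num (pA Λ π) ^ ((n : ℤ) - m) * D.num s' :=
      ((Commute.zpow_left₀ (show Commute (D.num (pA Λ π)) (D.num s') from hcomm _) _)).symm
    rw [← mul_assoc, hc2, mul_assoc]
    rw [map_mul, map_pow, map_mul, map_pow, mul_assoc] at h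
    have h5 : D.num (pA Λ π) ^ (m : ℤ) * (D.num (pA Λ π) ^ ((n : ℤ) - m) * (D.num s' * e)) =
        D.num (pA Λ π) ^ (m : ℤ) * D.num a' := by
      rw [← mul_assoc, ← zpow_add₀ ht0, add_sub_cancel, zpow_natCast, h, zpow_natCast]
    exact mul_left_cancel₀ (zpow_ne_zero _ ht0) h5

end FracData

end Pool.Agent.WeylSub
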