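import Mathlib
import Pool.Agent.WeylSub.PlaceE
import Pool.Agent.WeylSub.Core
import Pool.Agent.WeylSub.PhiBar

/-!
# The division ring `E = Frac A`, its place and its involution, packaged
-/

set_option linter.unusedSectionVars false
set_option linter.style.haveILetI false

namespace Pool.Agent.WeylSub

open Polynomial SA

/-- The data of the division ring `E` of fractions of `Λ[θ][x; θ ↦ θ + π]`, its `π`-adic place with
residues in `K = κ₀(θ, x)` and its involution `θ ↦ -θ - π`, `x ↦ g(θ) x⁻¹`. -/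
structure Sys (Λ : Type) [CommRing Λ] (π : Λ) (κ₀ : Type) [Field κ₀] (ev : Λ →+* κ₀) (g : Λ[X])
    (hg : g.map ev ≠ 0) (K : Type) [Field K] [Algebra κ₀[X][X] K] [IsFractionRing κ₀[X][X] K]
    (E : Type) [DivisionRing E] extends Core Λ π E where
  P : Place E K
  P_t : P.t = ι (C π)
  res_ι : ∀ r, P.Res (ι r) (algebraMap κ₀[X][X] K (C (r.map ev)))
  res_x : P.Res x (algebraMap κ₀[X][X] K X)
  surj : ∀ c, ∃ e, P.Res e c
  φ : E →+* E
  φ_ι : ∀ r, φ (ι r) = ι (r.comp (-X - C π))
  φ_x : φ x = ι g * x⁻¹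
  φ_φ : ∀ e, φ (φ e) = e
  res_φ : ∀ e c, P.Res e c → P.Res (φ e) (bar K hg c)

variable {Λ : Type} [CommRing Λ] [IsDomain Λ] [IsNoetherianRing Λ] {π : Λ}
variable {κ₀ : Type} [Field κ₀] {ev : Λ →+* κ₀}
variable {K : Type} [Field K] [Algebra κ₀[X][X] K] [IsFractionRing κ₀[X][X] K]
variable {g : Λ[X]} (hg : g.map ev ≠ 0)
variable (hev : ∀ l, ev l = 0 ↔ π ∣ l) (hπ0 : π ≠ 0)

section

variable (Λ π) in
/-- the inclusion of the coefficients -/
noncomputable def coefHom : Λ[X] →+* SA Λ π :=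
  (SkewMonoidAlgebra.singleOneRingHom (k := Coef Λ π) (G := Multiplicative ℕ)).comp
    (toCoef Λ π).toRingHom

lemma coefHom_apply (r : Λ[X]) : coefHom Λ π r = mono Λ π 0 r := rfl

lemma eval₂_coefHom (p : Λ[X][X]) : p.eval₂ (coefHom Λ π) (mono Λ π 1 1) = toA Λ π p := by
  have hpow : ∀ n : ℕ, (mono Λ π 1 1) ^ n = mono Λ π n 1 := by
    intro n
    induction n with
    | zero => rfl
    | succ n ih => rw [pow_succ, ih, mono_mul_mono]; simp
  induction p using Polynomial.induction_on' with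
  | add p q hp hq => rw [eval₂_add, map_add, hp, hq]
  | monomial m r =>
    rw [eval₂_monomial, toA_monomial, hpow, coefHom_apply, ← mono_eq]

include hev hπ0 in
/-- Existence of the system. -/
theorem exists_sys (hsurj : Function.Surjective ev) (heven : g.comp (-X) = g) :
    ∃ (E : Type) (_ : DivisionRing E), Nonempty (Sys Λ π κ₀ ev g hg K E) := by
  obtain ⟨E, hE, ⟨D⟩⟩ := exists_fracData (Λ := Λ) (π := π) hev hπ0
  obtain ⟨P, hPt, hPres⟩ := D.exists_place (K := K) hev hπ0
  set ι : Λ[X] →+* E := D.num.comp (coefHom Λ π) with hι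
  set x : E := D.num (mono Λ π 1 1) with hx
  have hnum0 : ∀ s : SA Λ π, s ≠ 0 → D.num s ≠ 0 := fun s hs h =>
    hs (D.inj (by rw [h, map_zero]))
  have hcf0 : ∀ (n : ℕ) (r : Λ[X]), r ≠ 0 → mono Λ π n r ≠ 0 := by
    intro n r hr h
    have h1 := congrArg (cf Λ π n) h
    rw [cf_mono, if_pos rfl, map_zero] at h1
    exact hr h1
  have hx0 : x ≠ 0 := hnum0 _ (hcf0 1 1 one_ne_zero)
  have hιapp : ∀ r, ι r = D.num (mono Λ π 0 r) := fun r => rfl
  have hxmul : ∀ r, x * ι r = ι (taylor π r) * x := by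
    intro r
    rw [hιapp, hιapp, hx, ← map_mul, ← map_mul, mono_mul_mono, mono_mul_mono]
    simp
  have hnumev : ∀ p : Λ[X][X], D.num (toA Λ π p) = p.eval₂ ι x := by
    intro p
    rw [← eval₂_coefHom, hom_eval₂]
  have hindep : ∀ p : Λ[X][X], p.eval₂ ι x = 0 → p = 0 := by
    intro p hp
    rw [← hnumev] at hp
    exact toA_injective Λ π (by rw [map_zero]; exact D.inj (by rw [hp, map_zero]))
  have hfrac : ∀ e : E, ∃ p q : Λ[X][X], q ≠ 0 ∧ q.eval₂ ι x * e = p.eval₂ ι x := by
    intro e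
    obtain ⟨s, a, hs, h⟩ := D.frac e
    obtain ⟨q, rfl⟩ := toA_surjective Λ π s
    obtain ⟨p, rfl⟩ := toA_surjective Λ π a
    refine ⟨p, q, ?_, by rw [← hnumev, ← hnumev, h]⟩
    rintro rfl
    exact hs (map_zero _)
  have hresnum : ∀ a : SA Λ π, P.Res (D.num a) (FracData.red K hev a) := by
    intro a
    rw [hPres]
    exact D.resE_num hev a
  have hredtoA : ∀ p : Λ[X][X], FracData.red K hev (toA Λ π p) =
      algebraMap κ₀[X][X] K (p.map (mapRingHom ev)) := by
    intro p
    rw [FracData.red, RingHom.comp_apply, rho_toA]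
  have hresι : ∀ r, P.Res (ι r) (algebraMap κ₀[X][X] K (C (r.map ev))) := by
    intro r
    have h1 := hresnum (mono Λ π 0 r)
    rw [← toA_monomial, hredtoA] at h1
    rw [hιapp, ← toA_monomial]
    simpa using h1
  have hresx : P.Res x (algebraMap κ₀[X][X] K X) := by
    have h1 := hresnum (mono Λ π 1 1)
    rw [← toA_monomial, hredtoA, monomial_one_one_eq_X] at h1
    rw [hx, ← toA_monomial, monomial_one_one_eq_X]
    rwa [map_X] at h1
  have hKX0 := algebraMap_X_ne_zero K (κ₀ := κ₀)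
  -- the homomorphism on `A`
  set f : Λ[X] →+* E := ι.comp (compRingHom (-X - C π)) with hf
  have hfapp : ∀ r, f r = ι (r.comp (-X - C π)) := fun r => rfl
  set y : E := ι g * x⁻¹ with hy
  have hxinv : ∀ r, x⁻¹ * ι (taylor π r) = ι r * x⁻¹ := by
    intro r
    have h1 := hxmul r
    calc x⁻¹ * ι (taylor π r) = x⁻¹ * (ι (taylor π r) * x) * x⁻¹ := by
          rw [mul_assoc, mul_assoc, mul_inv_cancel₀ hx0, mul_one]
      _ = _ := by rw [← h1, ← mul_assoc, inv_mul_cancel₀ hx0, one_mul]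
  have hcomp1 : ∀ r : Λ[X], taylor π ((taylor π r).comp (-X - C π)) = r.comp (-X - C π) := by
    intro r
    rw [taylor_apply, taylor_apply, comp_assoc, comp_assoc]
    congr 1
    simp
    ring
  have hyf : ∀ r, y * f r = f (taylor π r) * y := by
    intro r
    rw [hy, hfapp, hfapp, mul_assoc]
    have h1 : x⁻¹ * ι (r.comp (-X - C π)) = ι ((taylor π r).comp (-X - C π)) * x⁻¹ := by
      rw [← hxinv, hcomp1]
    rw [h1, ← mul_assoc, ← mul_assoc, ← map_mul, ← map_mul, mul_comm]
  set φ₀ : SA Λ π →+* E := SA.lift Λ π f y hyf with hφ₀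
  have hresy : P.Res y (bar K hg (algebraMap κ₀[X][X] K X)) := by
    rw [bar_X, hy, div_eq_mul_inv]
    exact P.res_mul (hresι g) (P.res_inv hresx hKX0)
  have hresf : ∀ r, P.Res (f r) (bar K hg (algebraMap κ₀[X][X] K (C (r.map ev)))) := by
    intro r
    rw [bar_C, hfapp]
    have h1 := hresι (r.comp (-X - C π))
    have h2 : ev π = 0 := (hev π).mpr dvd_rfl
    rw [Polynomial.map_comp] at h1
    simpa [h2] using h1
  have hresφ₀ : ∀ a, P.Res (φ₀ a) (bar K hg (FracData.red K hev a)) := by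
    intro a
    obtain ⟨p, rfl⟩ := toA_surjective Λ π a
    rw [hredtoA, hφ₀, lift_toA]
    induction p using Polynomial.induction_on' with
    | add p q hp hq =>
      rw [eval₂_add, Polynomial.map_add, map_add, map_add]
      exact P.res_add hp hq
    | monomial m r =>
      rw [eval₂_monomial, map_monomial, ← C_mul_X_pow_eq_monomial, map_mul, map_mul, map_pow,
        map_pow]
      exact P.res_mul (hresf r) (P.res_pow hresy m)
  have hφ₀pA : φ₀ (pA Λ π) = D.num (pA Λ π) := by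
    rw [hφ₀, pA, lift_mono, pow_zero, mul_one, hfapp, C_comp, hιapp]
  have hbar0 : ∀ c : K, c ≠ 0 → bar K hg c ≠ 0 := fun c hc => by
    rwa [Ne, map_eq_zero]
  have hφ₀ne : ∀ a, a ≠ 0 → φ₀ a ≠ 0 := by
    intro a ha
    obtain ⟨n, b, rfl, hb⟩ := exists_reduced' Λ π ev hev a ha
    rw [map_mul, map_pow, hφ₀pA]
    refine mul_ne_zero (pow_ne_zero _ ?_) ?_
    · rw [← hPt]; exact P.t_ne
    · exact P.ne_zero_of_res (hresφ₀ b)
        (hbar0 _ ((FracData.red_ne_zero_iff (K := K) hev).mpr hb))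
  obtain ⟨φ, hφ⟩ := D.lift φ₀ hφ₀ne
  have hφι : ∀ r, φ (ι r) = ι (r.comp (-X - C π)) := by
    intro r
    rw [hιapp, hφ, hφ₀, lift_mono, pow_zero, mul_one, hfapp]
  have hφx : φ x = y := by
    rw [hx, hφ, hφ₀, lift_mono, map_one, one_mul, pow_one]
  have hφφι : ∀ r, φ (φ (ι r)) = ι r := by
    intro r
    rw [hφι, hφι, comp_assoc]
    congr 1
    simp
  have hgx : ι (g.comp (-X - C π)) * x = x * ι g := by
    rw [hxmul]
    congr 2
    have : (-X - C π : Λ[X]) = (-X : Λ[X]).comp (X + C π) := by simp; ring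
    rw [this, ← comp_assoc, heven, taylor_apply]
  have hg0 : ι g ≠ 0 := by
    refine P.ne_zero_of_res (hresι g) ?_
    rw [Ne, IsFractionRing.to_map_eq_zero_iff, C_eq_zero]
    exact hg
  have hφφx : φ (φ x) = x := by
    rw [hφx, hy, map_mul, map_inv₀, hφx, hφι, hy, mul_inv_rev, inv_inv, ← mul_assoc, hgx,
      mul_assoc, mul_inv_cancel₀ hg0, mul_one]
  have hφφA : ∀ a, φ (φ (D.num a)) = D.num a := by
    intro a
    obtain ⟨p, rfl⟩ := toA_surjective Λ π a
    rw [hnumev]
    induction p using Polynomial.induction_on' with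
    | add p q hp hq => rw [eval₂_add, map_add, map_add, hp, hq]
    | monomial m r =>
      rw [eval₂_monomial, map_mul, map_mul, map_pow, map_pow, hφφx, hφφι]
  have hφφ : ∀ e, φ (φ e) = e := by
    intro e
    obtain ⟨s, a, hs, h⟩ := D.frac e
    have h1 := congrArg (fun z => φ (φ z)) h
    simp only [map_mul, hφφA] at h1
    rw [← h] at h1
    exact mul_left_cancel₀ (hnum0 s hs) h1
  refine ⟨E, hE, ⟨
    { ι := ι
      x := x
      x_ne := hx0
      x_mul := hxmul
      indep := hindep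
      frac := hfrac
      P := P
      P_t := hPt
      res_ι := hresι
      res_x := hresx
      surj := ?_
      φ := φ
      φ_ι := hφι
      φ_x := hφx
      φ_φ := hφφ
      res_φ := ?_ }⟩⟩
  · intro c
    obtain ⟨p, q, hq, rfl⟩ := IsFractionRing.div_surjective (A := κ₀[X][X]) c
    have hms : Function.Surjective (mapRingHom (mapRingHom ev)) :=
      map_surjective _ (map_surjective _ hsurj)
    obtain ⟨p', rfl⟩ := hms p
    obtain ⟨q', rfl⟩ := hms q
    have h1 := hresnum (toA Λ π p')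
    have h2 := hresnum (toA Λ π q')
    rw [hredtoA] at h1 h2
    exact ⟨_, P.res_div h1 h2 (by
      rw [Ne, IsFractionRing.to_map_eq_zero_iff]
      exact nonZeroDivisors.ne_zero hq)⟩
  · intro e c hec
    rw [hPres] at hec
    obtain ⟨s, a, hs, h, rfl⟩ := hec
    have h1 := congrArg φ h
    rw [map_mul, hφ, hφ] at h1
    have h2 : φ e = (φ₀ s)⁻¹ * φ₀ a := by
      rw [← h1, ← mul_assoc, inv_mul_cancel₀, one_mul]
      exact hφ₀ne s (by rintro rfl; exact hs (map_zero _))
    rw [h2, map_div₀]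
    exact P.res_div (hresφ₀ a) (hresφ₀ s) (hbar0 _ hs)

end

end Pool.Agent.WeylSub
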