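import Mathlib
import Pool.Agent.WeylSub.Center
import Pool.Agent.WeylSub.Sys
import Pool.Agent.WeylSub.Kron

/-!
# Transport of the place along an isomorphism of the fixed division ring with `E`
-/

set_option linter.unusedSectionVars false
set_option linter.style.haveILetI false

namespace Pool.Agent.WeylSub

open Polynomial SA Pool.Agent.WeylSub.Core

section fixK

variable {κ₀ : Type} [Field κ₀] {h : κ₀[X]}
variable (K : Type) [Field K] [Algebra κ₀[X][X] K] [IsFractionRing κ₀[X][X] K]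

/-- The fixed field of the involution of `K`. -/
noncomputable def Kfix (hh : h ≠ 0) : Subfield K := (bar K hh).eqLocusField (RingHom.id K)

lemma mem_Kfix {hh : h ≠ 0} {c : K} : c ∈ Kfix K hh ↔ bar K hh c = c := Iff.rfl

/-- the constants in the fixed field -/
noncomputable def kconst (hh : h ≠ 0) : κ₀ →+* Kfix K hh where
  toFun c := ⟨algebraMap κ₀[X][X] K (C (C c)), by rw [mem_Kfix, bar_C, C_comp]⟩
  map_one' := by ext; simp
  map_zero' := by ext; simp
  map_mul' a b := by ext; simp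
  map_add' a b := by ext; simp

lemma kconst_coe (hh : h ≠ 0) (c : κ₀) :
    ((kconst K hh c : Kfix K hh) : K) = algebraMap κ₀[X][X] K (C (C c)) := rfl

lemma bar_bar (hh : h ≠ 0) (heven : h.comp (-X) = h) (c : K) :
    bar K hh (bar K hh c) = c := by
  have h1 : ∀ p : κ₀[X][X], bar K hh (bar K hh (algebraMap _ K p)) = algebraMap _ K p := by
    intro p
    have hX := algebraMap_X_ne_zero K (κ₀ := κ₀)
    have hC : algebraMap κ₀[X][X] K (C h) ≠ 0 := by
      rwa [Ne, IsFractionRing.to_map_eq_zero_iff, C_eq_zero]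
    induction p using Polynomial.induction_on' with
    | add p q hp hq => rw [map_add, map_add, map_add, hp, hq]
    | monomial n a =>
      rw [← C_mul_X_pow_eq_monomial, map_mul, map_mul, map_mul, map_pow, map_pow, map_pow, bar_X,
        map_div₀, bar_X, bar_C, bar_C, bar_C, heven, comp_assoc, neg_comp, X_comp, neg_neg,
        comp_X, div_div_cancel₀ hC]
  obtain ⟨p, q, hq, rfl⟩ := IsFractionRing.div_surjective (A := κ₀[X][X]) c
  rw [map_div₀, map_div₀, h1, h1]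

/-- The fixed field has transcendence degree two. -/
lemma trdeg_Kfix (hh : h ≠ 0) (heven : h.comp (-X) = h) :
    @Algebra.trdeg κ₀ (Kfix K hh) _ _ (kconst K hh).toAlgebra = 2 := by
  letI : Algebra κ₀ (Kfix K hh) := (kconst K hh).toAlgebra
  letI : Algebra κ₀ K := ((algebraMap κ₀[X][X] K).comp (C.comp C)).toAlgebra
  haveI : IsScalarTower κ₀ κ₀[X][X] K := IsScalarTower.of_algebraMap_eq fun c => rfl
  haveI : IsScalarTower κ₀ (Kfix K hh) K := IsScalarTower.of_algebraMap_eq fun c => rfl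
  have hf1 : FaithfulSMul κ₀[X][X] K := by
    rw [faithfulSMul_iff_algebraMap_injective]
    exact IsFractionRing.injective _ _
  have e1 := _root_.trdeg_add_eq κ₀ κ₀[X] (A := κ₀[X][X])
  rw [Polynomial.trdeg_of_isDomain, Polynomial.trdeg_of_isDomain] at e1
  have e2 := _root_.trdeg_add_eq κ₀ κ₀[X][X] (A := K)
  haveI : Algebra.IsAlgebraic κ₀[X][X] K := isAlgebraic_frac
  rw [_root_.trdeg_eq_zero (R := κ₀[X][X]) (A := K), add_zero] at e2
  have e3 := _root_.trdeg_add_eq κ₀ (Kfix K hh) (A := K)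
  haveI : Algebra.IsAlgebraic (Kfix K hh) K := by
    constructor
    intro c
    have h1 : c + bar K hh c ∈ Kfix K hh := by
      rw [mem_Kfix, map_add, bar_bar K hh heven, add_comm]
    have h2 : c * bar K hh c ∈ Kfix K hh := by
      rw [mem_Kfix, map_mul, bar_bar K hh heven, mul_comm]
    refine ⟨X ^ 2 - C ⟨_, h1⟩ * X + C ⟨_, h2⟩, ?_, ?_⟩
    · intro h0
      have := congrArg (fun p => coeff p 2) h0
      simp at this
    · simp only [map_add, map_sub, map_mul, map_pow, aeval_X, aeval_C]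
      change c ^ 2 - (c + bar K hh c) * c + c * bar K hh c = 0
      ring
  rw [_root_.trdeg_eq_zero (R := Kfix K hh) (A := K), add_zero] at e3
  rw [e3, ← e2, ← e1]
  norm_num

end fixK

namespace Sys

variable {Λ : Type} [CommRing Λ] [IsDomain Λ] [IsNoetherianRing Λ] {π : Λ}
variable {κ₀ : Type} [Field κ₀] {ev : Λ →+* κ₀}
variable {K : Type} [Field K] [Algebra κ₀[X][X] K] [IsFractionRing κ₀[X][X] K]
variable {g : Λ[X]} {hg : g.map ev ≠ 0} {E : Type} [DivisionRing E]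
variable (S : Sys Λ π κ₀ ev g hg K E)

/-- The fixed division ring of the involution of `E`. -/
noncomputable def D : Subfield E := S.φ.eqLocusField (RingHom.id E)

lemma mem_D {e : E} : e ∈ S.D ↔ S.φ e = e := Iff.rfl

lemma ι_C_mem (l : Λ) : S.ι (C l) ∈ S.D := by rw [mem_D, S.φ_ι, C_comp]

lemma ι_q₀_mem : S.ι (q₀ Λ π) ∈ S.D := by
  rw [mem_D, S.φ_ι, q₀]
  congr 1
  simp
  ring

lemma xg_mem : S.x + S.ι g * S.x⁻¹ ∈ S.D := by
  rw [mem_D, map_add, ← S.φ_x, S.φ_φ, add_comm]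

lemma t_mem : S.P.t ∈ S.D := by rw [S.P_t]; exact S.ι_C_mem π

lemma res_C (l : Λ) : S.P.Res (S.ι (C l)) (algebraMap κ₀[X][X] K (C (C (ev l)))) := by
  have h := S.res_ι (C l)
  rwa [Polynomial.map_C] at h

lemma res_mem_Kfix {d : E} (hd : d ∈ S.D) {c : K} (h : S.P.Res d c) : c ∈ Kfix K hg := by
  have h1 := S.res_φ d c h
  rw [S.mem_D.mp hd] at h1
  exact S.P.uniq h1 h

variable (hev : ∀ l, ev l = 0 ↔ π ∣ l) (hπ0 : π ≠ 0)

section

include hev

omit [IsNoetherianRing Λ] in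
lemma not_isUnit_π : ¬ IsUnit π := by
  intro hu
  have h1 := (hev 1).mpr hu.dvd
  simp at h1

lemma reduce {a : Λ} (ha : a ≠ 0) : ∃ n : ℕ, ∃ a' : Λ, ev a' ≠ 0 ∧ a = π ^ n * a' := by
  obtain ⟨n, a', h1, h2⟩ := WfDvdMonoid.max_power_factor' ha (not_isUnit_π hev)
  exact ⟨n, a', fun h => h1 ((hev a').mp h), h2⟩

/-- The residues of constants are constants. -/
lemma res_const {d : E} {a b : Λ} (hb : b ≠ 0) (h : S.ι (C b) * d = S.ι (C a)) (n : ℤ) {c : K}
    (hc : S.P.Res (S.P.t ^ n * d) c) : ∃ c₀ : κ₀, c = algebraMap κ₀[X][X] K (C (C c₀)) := by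
  by_cases hc0 : c = 0
  · exact ⟨0, by simp [hc0]⟩
  have hbne : S.ι (C b) ≠ 0 := S.ι_ne (by rwa [Ne, C_eq_zero])
  by_cases ha : a = 0
  · rw [ha, C_0, map_zero] at h
    have hd : d = 0 := (mul_eq_zero.mp h).resolve_left hbne
    rw [hd, mul_zero] at hc
    exact absurd (S.P.uniq hc S.P.res_zero) hc0
  obtain ⟨i, a', ha', rfl⟩ := reduce hev ha
  obtain ⟨j, b', hb', rfl⟩ := reduce hev hb
  have hkc : ∀ r : κ₀, r ≠ 0 → algebraMap κ₀[X][X] K (C (C r)) ≠ 0 := by
    intro r hr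
    rw [Ne, IsFractionRing.to_map_eq_zero_iff, C_eq_zero, C_eq_zero]
    exact hr
  have h1 := S.P.res_div (S.res_C a') (S.res_C b') (hkc _ hb')
  have hb'' : S.ι (C b') ≠ 0 := S.P.ne_zero_of_res (S.res_C b') (hkc _ hb')
  have htt : ∀ m : ℕ, S.ι (C (π ^ m)) = S.P.t ^ m := by
    intro m
    rw [S.P_t, ← map_pow, C_pow]
  have h2 : (S.ι (C b'))⁻¹ * S.ι (C a') = S.P.t ^ ((j : ℤ) - i) * d := by
    rw [map_mul, map_mul, map_mul, map_mul, htt, htt] at h
    have h3 : S.P.t ^ (j : ℤ) * (S.ι (C b') * d) = S.P.t ^ (i : ℤ) * S.ι (C a') := by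
      rw [zpow_natCast, zpow_natCast, ← mul_assoc, h]
    have h4 : S.ι (C b') * (S.P.t ^ ((j : ℤ) - i) * d) = S.ι (C a') := by
      rw [← mul_assoc, ← S.P.t_zpow_comm, mul_assoc]
      have h5 : ((j : ℤ) - i) = -i + j := by ring
      rw [h5, zpow_add₀ S.P.t_ne, mul_assoc, h3, ← mul_assoc, ← zpow_add₀ S.P.t_ne]
      simp
    rw [← h4, ← mul_assoc, inv_mul_cancel₀ hb'', one_mul]
  rw [h2] at h1
  have hne : (algebraMap κ₀[X][X] K (C (C (ev a'))) / algebraMap κ₀[X][X] K (C (C (ev b')))) ≠ 0 :=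
    div_ne_zero (hkc _ ha') (hkc _ hb')
  have h3 := S.P.norm_unique hc hc0 h1 hne
  rw [h3] at hc
  refine ⟨ev a' / ev b', (S.P.uniq hc h1).trans ?_⟩
  rw [div_eq_iff (hkc _ hb'), ← map_mul, ← C_mul, ← C_mul, div_mul_cancel₀ _ hb']

end

/-- The transported place. -/
noncomputable def Pw (ψ : S.D ≃+* E) : Place E (Kfix K hg) where
  Res e c := S.P.Res (ψ.symm e : E) (c : K)
  t := ψ ⟨S.P.t, S.t_mem⟩
  t_ne := by
    rw [Ne, map_eq_zero_iff ψ ψ.injective]
    intro h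
    exact S.P.t_ne (congrArg Subtype.val h)
  t_comm e := by
    obtain ⟨d, rfl⟩ := ψ.surjective e
    rw [← map_mul, ← map_mul]
    congr 1
    ext
    exact S.P.t_comm d
  res_t := by simpa using S.P.res_t
  res_one := by simpa using S.P.res_one
  res_add := by
    intro a b c d h1 h2
    simpa using S.P.res_add h1 h2
  res_neg := by
    intro a c h1
    simpa using S.P.res_neg h1
  res_mul := by
    intro a b c d h1 h2
    simpa using S.P.res_mul h1 h2
  uniq := by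
    intro a c d h1 h2
    exact Subtype.ext (S.P.uniq h1 h2)
  norm := by
    intro e he
    have hd : (ψ.symm e : E) ≠ 0 := by
      intro h
      apply he
      have : ψ.symm e = 0 := Subtype.ext h
      rwa [map_eq_zero_iff ψ.symm ψ.symm.injective] at this
    obtain ⟨n, c, hc, h⟩ := S.P.norm _ hd
    have h1 : S.P.t ^ n * (ψ.symm e : E) ∈ S.D :=
      S.D.mul_mem (S.D.zpow_mem S.t_mem n) (ψ.symm e).2
    refine ⟨n, ⟨c, S.res_mem_Kfix h1 h⟩, ?_, ?_⟩
    · intro h0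
      exact hc (congrArg Subtype.val h0)
    · rw [map_mul, map_zpow₀, RingEquiv.symm_apply_apply]
      exact h

lemma Pw_res {ψ : S.D ≃+* E} {e : E} {c : Kfix K hg} :
    (S.Pw ψ).Res e c ↔ S.P.Res (ψ.symm e : E) (c : K) := Iff.rfl

lemma Pw_t {ψ : S.D ≃+* E} : (S.Pw ψ).t = ψ ⟨S.P.t, S.t_mem⟩ := rfl

lemma Pw_surj (h2 : (2 : κ₀) ≠ 0) (ψ : S.D ≃+* E) (c : Kfix K hg) :
    ∃ e, (S.Pw ψ).Res e c := by
  obtain ⟨e, he⟩ := S.surj (c : K)
  have h1 := S.res_φ _ _ he
  rw [(mem_Kfix K).mp c.2] at h1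
  have h3 := S.P.res_add he h1
  have e1 : S.ι (C (2 : Λ)) = 2 := by rw [map_ofNat C 2, map_ofNat S.ι 2]
  have e2 : ev 2 = 2 := map_ofNat ev 2
  have e3 : algebraMap κ₀[X][X] K (C (C 2)) = 2 := by
    rw [map_ofNat C 2, map_ofNat C 2, map_ofNat (algebraMap κ₀[X][X] K) 2]
  have h4 : S.P.Res 2 (algebraMap κ₀[X][X] K (C (C 2))) := by
    have := S.res_C 2
    rwa [e1, e2] at this
  have h5 : algebraMap κ₀[X][X] K (C (C 2)) ≠ 0 := by
    rw [Ne, IsFractionRing.to_map_eq_zero_iff, C_eq_zero, C_eq_zero]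
    exact h2
  have h6 := S.P.res_div h3 h4 h5
  have h7 : (2 : E)⁻¹ * (e + S.φ e) ∈ S.D := by
    rw [mem_D, map_mul, map_inv₀, map_add, S.φ_φ, map_ofNat, add_comm e]
  have h8 : ((c : K) + c) / algebraMap κ₀[X][X] K (C (C 2)) = c := by
    rw [div_eq_iff h5, e3]
    ring
  rw [h8] at h6
  refine ⟨ψ ⟨_, h7⟩, ?_⟩
  rw [Pw_res, RingEquiv.symm_apply_apply]
  exact h6

section

variable [CharZero Λ]

include hπ0 in
/-- The elements of the centre of `D` -/
lemma center_D {d : E} (hd : ∀ d' ∈ S.D, d * d' = d' * d) :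
    ∃ a b : Λ, b ≠ 0 ∧ S.ι (C b) * d = S.ι (C a) :=
  S.const_of_comm hπ0 g d (hd _ S.ι_q₀_mem) (hd _ S.xg_mem)

lemma γ_C_div (a b : Λ) (hb : b ≠ 0) (e : E) (h : S.ι (C b) * e = S.ι (C a)) :
    S.γ (algebraMap Λ[X] _ (C a) / algebraMap Λ[X] _ (C b)) = e := by
  have hbne : S.ι (C b) ≠ 0 := S.ι_ne (by rwa [Ne, C_eq_zero])
  apply mul_left_cancel₀ hbne
  rw [h, ← S.γ_algebraMap, ← S.γ_algebraMap, ← map_mul, mul_div_cancel₀]
  rw [Ne, IsFractionRing.to_map_eq_zero_iff, C_eq_zero]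
  exact hb

lemma ι_C_comm (l : Λ) (e : E) : S.ι (C l) * e = e * S.ι (C l) := by
  obtain ⟨p, q, hq, h⟩ := S.frac e
  have h1 : ∀ p : Λ[X][X], S.ι (C l) * p.eval₂ S.ι S.x = p.eval₂ S.ι S.x * S.ι (C l) := by
    intro p
    have hx : S.ι (C l) * S.x = S.x * S.ι (C l) := by rw [S.x_mul, taylor_C]
    have hxn : ∀ n : ℕ, S.ι (C l) * S.x ^ n = S.x ^ n * S.ι (C l) := fun n =>
      (Commute.pow_right (show Commute (S.ι (C l)) S.x from hx) n)
    induction p using Polynomial.induction_on' with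
    | add p q hp hq => rw [eval₂_add, mul_add, add_mul, hp, hq]
    | monomial n a =>
      rw [eval₂_monomial, ← mul_assoc, ← map_mul, mul_comm (C l), map_mul, mul_assoc, hxn,
        mul_assoc]
  have hq' : q.eval₂ S.ι S.x ≠ 0 := fun h0 => hq (S.indep q h0)
  apply mul_left_cancel₀ hq'
  rw [← mul_assoc, ← h1, mul_assoc, h, h1, ← h, mul_assoc]

include hπ0 in
/-- The constants of `E` come from constants of `D`. -/
lemma symm_const (ψ : S.D ≃+* E) (l : Λ) :
    ∃ a b : Λ, b ≠ 0 ∧ S.ι (C b) * (ψ.symm (S.ι (C l)) : E) = S.ι (C a) := by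
  refine S.center_D hπ0 fun d' hd' => ?_
  have h1 := S.ι_C_comm l (ψ ⟨d', hd'⟩)
  have h2 := congrArg ψ.symm h1
  rw [map_mul, map_mul, RingEquiv.symm_apply_apply] at h2
  exact congrArg Subtype.val h2

include hπ0 in
/-- The image of the uniformiser is in `F₀`. -/
lemma exists_τ (ψ : S.D ≃+* E) : ∃ τ, S.γ τ = (S.Pw ψ).t := by
  have h1 : ∀ e : E, (S.Pw ψ).t * e = e * (S.Pw ψ).t := (S.Pw ψ).t_comm
  obtain ⟨a, b, hb, h⟩ := S.const_of_comm hπ0 g (S.Pw ψ).t (h1 _) (h1 _)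
  exact ⟨_, S.γ_C_div a b hb _ h⟩

include hev hπ0 in
/-- **The main structural result**: if the fixed division ring of the involution of `E` is
isomorphic to `E`, then the fixed field of the involution of `κ₀(θ, x)` is purely transcendental
over `κ₀`. -/
theorem rational_of_iso (hsurj : Function.Surjective ev) (h2 : (2 : κ₀) ≠ 0)
    (heven : (g.map ev).comp (-X) = g.map ev) (ψ : S.D ≃+* E) :
    ∃ j : κ₀[X][X] →+* Kfix K hg, Function.Injective j ∧
      (∀ c, j (C (C c)) = kconst K hg c) ∧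
      ∀ c, ∃ p q, q ≠ 0 ∧ c * j q = j p := by
  classical
  letI : Algebra κ₀ (Kfix K hg) := (kconst K hg).toAlgebra
  have hkc : ∀ c, algebraMap κ₀ (Kfix K hg) c = kconst K hg c := fun _ => rfl
  set κ := (S.Pw ψ).resField S.γ with hκ
  have htr2 : Algebra.trdeg κ₀ (Kfix K hg) = 2 := trdeg_Kfix K hg heven
  -- residues of constants
  have hc : ∀ (l : Λ) (n : ℤ) (c : Kfix K hg),
      (S.Pw ψ).Res ((S.Pw ψ).t ^ n * S.γ (algebraMap Λ (FractionRing Λ[X]) l)) c →
      c ∈ (algebraMap κ₀ (Kfix K hg)).range := by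
    intro l n c h
    rw [IsScalarTower.algebraMap_apply Λ Λ[X] (FractionRing Λ[X]), S.γ_algebraMap, Pw_res,
      map_mul, map_zpow₀, Pw_t, RingEquiv.symm_apply_apply] at h
    obtain ⟨a, b, hb, hab⟩ := S.symm_const hπ0 ψ l
    obtain ⟨c₀, hc₀⟩ := S.res_const hev hb hab n h
    exact ⟨c₀, Subtype.ext hc₀.symm⟩
  -- constants are residues
  have hconst : ∀ c₀ : κ₀, algebraMap κ₀ (Kfix K hg) c₀ ∈ κ := by
    intro c₀
    obtain ⟨l, rfl⟩ := hsurj c₀
    have h1 : ∀ e : E, ψ ⟨S.ι (C l), S.ι_C_mem l⟩ * e = e * ψ ⟨S.ι (C l), S.ι_C_mem l⟩ := by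
      intro e
      obtain ⟨d, rfl⟩ := ψ.surjective e
      rw [← map_mul, ← map_mul]
      congr 1
      ext
      exact S.ι_C_comm l d
    obtain ⟨a, b, hb, h⟩ := S.const_of_comm hπ0 g _ (h1 _) (h1 _)
    refine ⟨algebraMap Λ[X] _ (C a) / algebraMap Λ[X] _ (C b), ?_⟩
    rw [S.γ_C_div a b hb _ h, Pw_res, RingEquiv.symm_apply_apply]
    exact S.res_C l
  let κI : IntermediateField κ₀ (Kfix K hg) := κ.toIntermediateField hconst
  have htrκ : Algebra.trdeg κ₀ κI ≤ 1 := by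
    refine trdeg_le_one fun c hcind => ?_
    have hcoe : AlgebraicIndependent κ₀ (fun i => ((c i : κI) : Kfix K hg)) := by
      have := hcind.map' (f := κI.val) Subtype.val_injective
      exact this
    have hex : ∀ i, ∃ f, (S.Pw ψ).Res (S.γ f) (c i : Kfix K hg) := fun i => (c i).2
    choose f hf using hex
    refine not_algebraicIndependent_res (S.Pw ψ) (Λ := Λ) S.γ ?_ hc f _ hf
      (dep_fractionRing f) hcoe
    rw [IsScalarTower.algebraMap_eq Λ Λ[X] (FractionRing Λ[X])]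
    exact (IsFractionRing.injective Λ[X] (FractionRing Λ[X])).comp C_injective
  have hna : ¬ ∀ c : Kfix K hg, IsAlgebraic κ c := by
    intro hall
    haveI : Algebra.IsAlgebraic κI (Kfix K hg) := ⟨fun c => hall c⟩
    have h3 := _root_.trdeg_add_eq κ₀ κI (A := Kfix K hg)
    rw [_root_.trdeg_eq_zero (R := κI) (A := Kfix K hg), add_zero, htr2] at h3
    rw [h3] at htrκ
    norm_num at htrκ
  obtain ⟨τ, hτ⟩ := S.exists_τ hπ0 ψ
  obtain ⟨z, hz, hzall⟩ := (S.Pw ψ).ruled S.γ (σh Λ π) S.x S.x_mul_γh τ hτ S.frac₀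
    (S.Pw_surj h2 ψ) hna
  have hz' : Transcendental κI z := hz
  let L : IntermediateField κI (Kfix K hg) := algebraicClosure κI (Kfix K hg)
  have hzall' : ∀ c : Kfix K hg, ∃ H₁ H₂ : L[X],
      aeval z H₂ ≠ 0 ∧ c * aeval z H₂ = aeval z H₁ := hzall
  haveI hLalg : Algebra.IsAlgebraic κI L := algebraicClosure.isAlgebraic κI (Kfix K hg)
  have hzL : Transcendental L z := fun h => hz' (h.restrictScalars κI)
  haveI i1 : FaithfulSMul κI L :=
    (faithfulSMul_iff_algebraMap_injective κI L).mpr (algebraMap κI L).injective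
  haveI i2 : FaithfulSMul L (Kfix K hg) :=
    (faithfulSMul_iff_algebraMap_injective L (Kfix K hg)).mpr (algebraMap L (Kfix K hg)).injective
  haveI i3 : FaithfulSMul κ₀ κI :=
    (faithfulSMul_iff_algebraMap_injective κ₀ κI).mpr (algebraMap κ₀ κI).injective
  haveI i4 : FaithfulSMul κ₀ L :=
    (faithfulSMul_iff_algebraMap_injective κ₀ L).mpr (algebraMap κ₀ L).injective
  haveI i5 : IsScalarTower κ₀ L (Kfix K hg) := IsScalarTower.of_algebraMap_eq fun c => rfl
  haveI i6 : IsScalarTower κ₀ κI L := IsScalarTower.of_algebraMap_eq fun c => rfl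
  have htrL : Algebra.trdeg κ₀ L ≤ 1 := by
    have h3 := _root_.trdeg_add_eq κ₀ κI (A := L)
    rw [_root_.trdeg_eq_zero (R := κI) (A := L), add_zero] at h3
    rwa [← h3]
  obtain ⟨u, hu⟩ : ∃ u : L, Transcendental κ₀ u := by
    by_contra! hcon
    haveI : Algebra.IsAlgebraic κ₀ L := ⟨fun u => by
      by_contra h; exact hcon u h⟩
    have h3 := _root_.trdeg_add_eq κ₀ L (A := Kfix K hg)
    rw [_root_.trdeg_eq_zero (R := κ₀) (A := L), zero_add, htr2] at h3
    haveI : Algebra.IsAlgebraic (Algebra.adjoin L {z}) (Kfix K hg) := by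
      constructor
      intro c
      obtain ⟨H₁, H₂, h4, h5⟩ := hzall' c
      have hm : ∀ H : L[X], aeval z H ∈ Algebra.adjoin L {z} := fun H =>
        aeval_mem_adjoin_singleton L z
      refine ⟨C ⟨_, hm H₂⟩ * X - C ⟨_, hm H₁⟩, ?_, ?_⟩
      · intro h0
        have h6 := congrArg (fun p => coeff p 1) h0
        simp [coeff_C] at h6
        exact h4 (congrArg Subtype.val h6)
      · simp only [map_sub, map_mul, aeval_X, aeval_C]
        change aeval z H₂ * c - aeval z H₁ = 0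
        rw [← h5]; ring
    have h6 := Algebra.IsAlgebraic.trdeg_le_cardinalMk L ({z} : Set (Kfix K hg))
    rw [h3, Cardinal.mk_singleton] at h6
    norm_num at h6
  obtain ⟨s, hs, hsall⟩ := exists_generator (κ₀ := κ₀) (K := K)
    ((Kfix K hg).subtype.comp (algebraMap L (Kfix K hg))) (fun c => rfl) htrL u hu
  obtain ⟨j, hj1, hj2, hj3⟩ := assemble s hs hsall z hzL hzall'
  exact ⟨j, hj1, fun c => hj2 c, hj3⟩

end

end Sys

end Pool.Agent.WeylSub
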