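import Mathlib
import Pool.Agent.WeylSub.Transport
import Pool.Agent.WeylSub.Descent
import Pool.Agent.WeylSub.NoNorm
import Pool.Agent.WeylSub.Parity

/-!
# The fixed field of the involution `θ ↦ -θ`, `x ↦ h(θ)/x` is not rational
-/

set_option linter.unusedSectionVars false
set_option linter.style.haveILetI false

namespace Pool.Agent.WeylSub

open Polynomial

/-- unramified symbols give squares of residues -/
lemma sq_of_unr {R Ω κ : Type} [CommRing R] [Field Ω] [Field κ] [Algebra R Ω] (ev : R →+* κ)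
    (p : R) (P : Place Ω κ) (ht : P.t = algebraMap R Ω p)
    (hres : ∀ r, P.Res (algebraMap R Ω r) (ev r)) (a a₁ b : R) (ha : a = p * a₁)
    (ha₁ : ev a₁ ≠ 0) (hb : ev b ≠ 0) (h : Unr P (algebraMap R Ω a) (algebraMap R Ω b)) :
    IsSquare (ev b) := by
  have h1 := h (-1) 0 (ev a₁) (ev b) ha₁ hb (by
    rw [ha, map_mul, ← ht, ← mul_assoc, zpow_neg_one, inv_mul_cancel₀ P.t_ne, one_mul]
    exact hres a₁) (by
    rw [zpow_zero, one_mul]
    exact hres b)
  simp only [mul_zero, zpow_zero, one_mul, zpow_neg_one] at h1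
  have h2 := h1.inv
  rwa [inv_inv] at h2

/-- the place of `κ(X)` at `0` -/
lemma exists_zeroPlace (κ : Type) [Field κ] : ∃ P : Place (RatFunc κ) κ,
    ∀ p : κ[X], P.Res (algebraMap _ _ p) (p.eval 0) := by
  obtain ⟨P, -, hP⟩ := exists_cplace (F := RatFunc κ) (evalRingHom (0 : κ)) X X_ne_zero (by
    intro r
    rw [X_dvd_iff, coe_evalRingHom, coeff_zero_eq_eval_zero])
  refine ⟨P, fun p => ?_⟩
  rw [hP]
  exact ⟨p, 1, by simp, by simp, by simp⟩

lemma isSquare_of_ratFunc {κ : Type} [Field κ] (c : κ)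
    (h : IsSquare (algebraMap κ[X] (RatFunc κ) (C c))) : IsSquare c := by
  by_cases hc : c = 0
  · exact ⟨0, by simp [hc]⟩
  obtain ⟨P, hP⟩ := exists_zeroPlace κ
  obtain ⟨r, hr⟩ := h
  have hr0 : r ≠ 0 := by
    rintro rfl
    rw [mul_zero, map_eq_zero_iff _ (RatFunc.algebraMap_injective κ), C_eq_zero] at hr
    exact hc hr
  obtain ⟨n, e, he, hn⟩ := P.norm r hr0
  have h1 := P.res_mul hn hn
  have h2 : P.t ^ n * r * (P.t ^ n * r) = P.t ^ (2 * n) * algebraMap κ[X] (RatFunc κ) (C c) := by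
    rw [hr, two_mul, zpow_add₀ P.t_ne]; ring
  rw [h2] at h1
  have h3 : P.Res (P.t ^ (0 : ℤ) * algebraMap κ[X] (RatFunc κ) (C c)) c := by
    rw [zpow_zero, one_mul]
    have := hP (C c)
    rwa [eval_C] at this
  have h4 := P.norm_unique h1 (mul_ne_zero he he) h3 hc
  rw [h4] at h1
  exact ⟨e, P.uniq h3 h1⟩

/-- The symbol `(T, (T-c₀)(T-c₁))` is unramified on the conic bundle. -/
lemma unr_conic {κ₀ K' κ : Type} [Field κ₀] [Field K'] [Field κ] (P : Place K' κ)
    (c : Fin 4 → κ₀) (hc : ∀ i, ¬ IsSquare (c i)) (hinj : Function.Injective c)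
    (h01 : IsSquare (c 0 * c 1)) (h2 : (2 : κ₀) ≠ 0)
    (k : κ₀ →+* K') (i : κ₀ →+* κ) (hk : ∀ a, P.Res (k a) (i a)) (T u v : K')
    (hconic : u ^ 2 - T * v ^ 2 =
      4 * (((T - k (c 0)) * (T - k (c 1))) * ((T - k (c 2)) * (T - k (c 3))))) (hT : T ≠ 0) :
    Unr P T ((T - k (c 0)) * (T - k (c 1))) := by
  have hc0 : ∀ j, c j ≠ 0 := by
    intro j h
    exact hc j ⟨0, by rw [h]; simp⟩
  have h2i : (2 : κ) ≠ 0 := by
    rw [← map_ofNat i 2]
    rwa [Ne, map_eq_zero]
  intro m n c' d hc' hd hm hn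
  rcases lt_trichotomy m 0 with hlt | heq | hgt
  · have h3 := P.res_t_zpow_mul hm (n := -m) (by omega)
    rw [if_neg (by omega), ← mul_assoc, ← zpow_add₀ P.t_ne, neg_add_cancel, zpow_zero,
      one_mul] at h3
    have h4 := P.res_mul (P.res_sub h3 (hk (c 0))) (P.res_sub h3 (hk (c 1)))
    have h5 : (0 - i (c 0)) * (0 - i (c 1)) = i (c 0 * c 1) := by rw [map_mul]; ring
    rw [h5] at h4
    have h6 : i (c 0 * c 1) ≠ 0 := by
      rw [Ne, map_eq_zero]
      exact mul_ne_zero (hc0 0) (hc0 1)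
    have h7 : P.Res (P.t ^ (0 : ℤ) * ((T - k (c 0)) * (T - k (c 1)))) (i (c 0 * c 1)) := by
      rwa [zpow_zero, one_mul]
    have h8 := P.norm_unique hn hd h7 h6
    rw [h8] at hn
    have h9 := P.uniq hn h7
    rw [h8, mul_zero, zpow_zero, zpow_zero, one_mul, one_mul, h9]
    exact (h01.map i).zpow m
  · subst heq
    rw [zpow_zero, one_mul] at hm
    rw [zero_mul, zpow_zero, zpow_zero, one_mul, mul_one]
    have h4 := P.res_mul (P.res_sub hm (hk (c 0))) (P.res_sub hm (hk (c 1)))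
    by_cases h5 : (c' - i (c 0)) * (c' - i (c 1)) = 0
    · have h6 : (c' - i (c 2)) * (c' - i (c 3)) ≠ 0 := by
        have hij : ∀ a b : Fin 4, a ≠ b → i (c a) - i (c b) ≠ 0 := by
          intro a b hab h0
          rw [sub_eq_zero] at h0
          exact hab (hinj (i.injective h0))
        rcases mul_eq_zero.mp h5 with h6 | h6
        · rw [sub_eq_zero.mp h6]
          exact mul_ne_zero (hij _ _ (by decide)) (hij _ _ (by decide))
        · rw [sub_eq_zero.mp h6]
          exact mul_ne_zero (hij _ _ (by decide)) (hij _ _ (by decide))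
      have h7 := P.res_mul (P.res_sub hm (hk (c 2))) (P.res_sub hm (hk (c 3)))
      have h8 : P.Res (4 : K') 4 := by
        have := hk 4
        rwa [map_ofNat k 4, map_ofNat i 4] at this
      have h9 := P.res_mul h8 (P.res_mul hn h7)
      have h4i : (4 : κ) ≠ 0 := by
        have : (4 : κ) = 2 * 2 := by norm_num
        rw [this]; exact mul_ne_zero h2i h2i
      have h10 : (4 : κ) * (d * ((c' - i (c 2)) * (c' - i (c 3)))) ≠ 0 :=
        mul_ne_zero h4i (mul_ne_zero hd h6)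
      have h11 : (4 : K') * (P.t ^ n * ((T - k (c 0)) * (T - k (c 1))) *
          ((T - k (c 2)) * (T - k (c 3)))) = P.t ^ n * (u ^ 2 - T * v ^ 2) := by
        rw [hconic]; ring
      rw [h11] at h9
      have hν : u ^ 2 - T * v ^ 2 ≠ 0 := by
        intro h0
        rw [h0, mul_zero] at h9
        exact h10 (P.uniq h9 P.res_zero)
      have h12 := unr_norm (P := P) hT hν n 0 _ c' h10 hc' h9 (by rwa [zpow_zero, one_mul])
      rwa [mul_zero, zpow_zero, zpow_zero, one_mul, one_mul] at h12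
    · have h7 : P.Res (P.t ^ (0 : ℤ) * ((T - k (c 0)) * (T - k (c 1))))
          ((c' - i (c 0)) * (c' - i (c 1))) := by rwa [zpow_zero, one_mul]
      rw [P.norm_unique hn hd h7 h5, zpow_zero]
      exact IsSquare.one
  · have ha : ∀ a : κ₀, P.Res (P.t ^ m * k a) 0 := by
      intro a
      have := P.res_t_zpow_mul (hk a) (n := m) (by omega)
      rwa [if_neg (by omega)] at this
    have h4 := P.res_mul (P.res_sub hm (ha (c 0))) (P.res_sub hm (ha (c 1)))
    have h5 : (P.t ^ m * T - P.t ^ m * k (c 0)) * (P.t ^ m * T - P.t ^ m * k (c 1)) =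
        P.t ^ (2 * m) * ((T - k (c 0)) * (T - k (c 1))) := by
      rw [two_mul, zpow_add₀ P.t_ne]; ring
    rw [h5, sub_zero] at h4
    have h6 := P.norm_unique hn hd h4 (mul_ne_zero hc' hc')
    rw [h6] at hn
    have h7 := P.uniq hn h4
    have h8 := unr_formA (m := n) (n := m) (p := m) (c := d) (d := c') (e := c') h6
      (by rw [h7, sq])
    rwa [mul_comm n m, mul_assoc, mul_comm (d ^ m), ← mul_assoc] at h8

section final

variable {κ₀ : Type} [Field κ₀] {c : Fin 4 → κ₀} (hc : ∀ i, ¬ IsSquare (c i))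
  (hinj : Function.Injective c) (h01 : IsSquare (c 0 * c 1)) (h2 : (2 : κ₀) ≠ 0)
  (K : Type) [Field K] [Algebra κ₀[X][X] K] [IsFractionRing κ₀[X][X] K]

include hc hinj in
/-- `G₁` is not a norm from `K`. -/
lemma not_norm (hh : gAll c ≠ 0) (a : K)
    (ha : a * bar K hh a = algebraMap κ₀[X][X] K (C (gOne c))) : False := by
  obtain ⟨J, hJ, hJmap⟩ := exists_J (algebraMap κ₀[X][X] K) (IsFractionRing.injective _ _)
  have hneg : Function.Injective
      ((algebraMap κ₀[X] (FractionRing κ₀[X])).comp (compRingHom (-X : κ₀[X]))) := by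
    rw [injective_iff_map_eq_zero]
    intro r hr
    by_contra hr0
    rw [RingHom.comp_apply, coe_compRingHom_apply, IsFractionRing.to_map_eq_zero_iff] at hr
    exact comp_neg_ne_zero hr0 hr
  set τ : FractionRing κ₀[X] →+* FractionRing κ₀[X] := IsFractionRing.lift hneg with hτ
  have hτalg : ∀ r : κ₀[X], τ (algebraMap _ _ r) = algebraMap _ _ (r.comp (-X)) := by
    intro r
    rw [hτ, IsFractionRing.lift_algebraMap, RingHom.comp_apply, coe_compRingHom_apply]
  have hττ : ∀ f, τ (τ f) = f := by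
    intro f
    obtain ⟨r, s, hs, rfl⟩ := IsFractionRing.div_surjective (A := κ₀[X]) f
    rw [map_div₀, map_div₀, hτalg, hτalg, hτalg, hτalg, comp_assoc, comp_assoc]
    simp
  have hJC : ∀ r : κ₀[X], J (C (algebraMap _ _ r)) = algebraMap κ₀[X][X] K (C r) := by
    intro r
    rw [← hJmap, Polynomial.map_C]
  have hJX : J X = algebraMap κ₀[X][X] K X := by rw [← hJmap, Polynomial.map_X]
  have hbC : ∀ f, bar K hh (J (C f)) = J (C (τ f)) := by
    intro f
    obtain ⟨r, s, hs, rfl⟩ := IsFractionRing.div_surjective (A := κ₀[X]) f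
    have hs0 : s ≠ 0 := nonZeroDivisors.ne_zero hs
    have h1 : ∀ (r s : κ₀[X]), s ≠ 0 →
        J (C (algebraMap κ₀[X] (FractionRing κ₀[X]) r / algebraMap κ₀[X] (FractionRing κ₀[X]) s)) =
        algebraMap κ₀[X][X] K (C r) / algebraMap κ₀[X][X] K (C s) := by
      intro r s hs
      have h3 : algebraMap κ₀[X][X] K (C s) ≠ 0 := by
        rwa [Ne, IsFractionRing.to_map_eq_zero_iff, C_eq_zero]
      have h4 : algebraMap κ₀[X] (FractionRing κ₀[X]) s ≠ 0 := by
        rwa [Ne, IsFractionRing.to_map_eq_zero_iff]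
      rw [eq_div_iff h3, ← hJC, ← hJC, ← map_mul, ← C_mul, div_mul_cancel₀ _ h4]
    rw [h1 r s hs0, map_div₀, map_div₀, bar_C, bar_C, hτalg, hτalg, h1 _ _ (comp_neg_ne_zero hs0)]
  have hbX : bar K hh (J X) = J (C (algebraMap _ _ (gAll c))) / J X := by
    rw [hJX, bar_X, hJC]
  have hfrac : ∀ a : K, ∃ p q : (FractionRing κ₀[X])[X], q ≠ 0 ∧ a * J q = J p := by
    intro a
    obtain ⟨r, s, hs, rfl⟩ := IsFractionRing.div_surjective (A := κ₀[X][X]) a
    have hs0 : s ≠ 0 := nonZeroDivisors.ne_zero hs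
    refine ⟨r.map (algebraMap _ _), s.map (algebraMap _ _), ?_, ?_⟩
    · rw [Ne, Polynomial.map_eq_zero_iff (IsFractionRing.injective _ _)]
      exact hs0
    · rw [hJmap, hJmap, div_mul_cancel₀]
      rwa [Ne, IsFractionRing.to_map_eq_zero_iff]
  have hF0 : algebraMap κ₀[X] (FractionRing κ₀[X]) (gAll c) ≠ 0 := by
    rwa [Ne, IsFractionRing.to_map_eq_zero_iff]
  have hτh : τ (algebraMap κ₀[X] (FractionRing κ₀[X]) (gAll c)) = algebraMap _ _ (gAll c) := by
    rw [hτalg, gAll_even]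
  have ha0 : a ≠ 0 := by
    rintro rfl
    rw [zero_mul, eq_comm, IsFractionRing.to_map_eq_zero_iff, C_eq_zero] at ha
    exact mul_ne_zero (quad_ne_zero c 0) (quad_ne_zero c 1) ha
  obtain ⟨l, hl0, N₁, N₂, hl⟩ := norm_shape J hJ τ hττ _ hF0 hτh (bar K hh) hbC hbX hfrac a ha0
    (algebraMap _ _ (gOne c)) (by rw [ha, hJC])
  obtain ⟨r, s, hs, rfl⟩ := IsFractionRing.div_surjective (A := κ₀[X]) l
  have hs0 : s ≠ 0 := nonZeroDivisors.ne_zero hs
  have hr0 : r ≠ 0 := by rintro rfl; simp at hl0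
  refine parity hc hinj r s hr0 hs0 N₁ N₂ ?_
  have hinjF := IsFractionRing.injective κ₀[X] (FractionRing κ₀[X])
  apply hinjF
  have hs1 : algebraMap κ₀[X] (FractionRing κ₀[X]) s ≠ 0 := by
    rwa [Ne, IsFractionRing.to_map_eq_zero_iff]
  have hs2 : algebraMap κ₀[X] (FractionRing κ₀[X]) (s.comp (-X)) ≠ 0 := by
    rw [Ne, IsFractionRing.to_map_eq_zero_iff]
    exact comp_neg_ne_zero hs0
  rw [map_div₀, hτalg, hτalg] at hl
  simp only [map_mul, map_pow]
  rw [hl]
  field_simp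

include hc hinj h01 h2 in
/-- **The fixed field of the involution is not purely transcendental.** -/
theorem not_rational (hh : gAll c ≠ 0) (j : κ₀[X][X] →+* Kfix K hh)
    (hj1 : Function.Injective j) (hj2 : ∀ a, j (C (C a)) = kconst K hh a)
    (hj3 : ∀ a, ∃ p q, q ≠ 0 ∧ a * j q = j p) : False := by
  classical
  set θ : K := algebraMap κ₀[X][X] K (C X) with hθ
  set x : K := algebraMap κ₀[X][X] K X with hx
  set H : K := algebraMap κ₀[X][X] K (C (gAll c)) with hH
  have hθ0 : θ ≠ 0 := by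
    rw [hθ, Ne, IsFractionRing.to_map_eq_zero_iff, C_eq_zero]
    exact X_ne_zero
  have hx0 : x ≠ 0 := algebraMap_X_ne_zero K
  have hH0 : H ≠ 0 := by
    rw [hH, Ne, IsFractionRing.to_map_eq_zero_iff, C_eq_zero]
    exact hh
  have hbθ : bar K hh θ = -θ := by rw [hθ, bar_C, X_comp]; simp
  have hbx : bar K hh x = H / x := bar_X K hh
  have hbH : bar K hh H = H := by rw [hH, bar_C, gAll_even]
  have hbHx : bar K hh (H / x) = x := by rw [map_div₀, hbH, hbx, div_div_cancel₀ hH0]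
  let T : Kfix K hh := ⟨θ ^ 2, by rw [mem_Kfix, map_pow, hbθ]; ring⟩
  let u : Kfix K hh := ⟨x + H / x, by rw [mem_Kfix, map_add, hbx, hbHx, add_comm]⟩
  let v : Kfix K hh := ⟨(x - H / x) / θ, by
    rw [mem_Kfix, map_div₀, map_sub, hbx, hbHx, hbθ, div_neg, ← neg_div, neg_sub]⟩
  have hT0 : T ≠ 0 := fun h => pow_ne_zero 2 hθ0 (congrArg Subtype.val h)
  have hkc : ∀ a : κ₀, ((kconst K hh a : Kfix K hh) : K) = algebraMap κ₀[X][X] K (C (C a)) :=
    fun _ => rfl
  have hGen : ∀ i, algebraMap κ₀[X][X] K (C (X ^ 2 - C (c i))) =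
      θ ^ 2 - algebraMap κ₀[X][X] K (C (C (c i))) := by
    intro i
    rw [C_sub, map_sub, C_pow, map_pow]
  set G : Kfix K hh := (T - kconst K hh (c 0)) * (T - kconst K hh (c 1)) with hG
  have hGK : (G : K) = algebraMap κ₀[X][X] K (C (gOne c)) := by
    rw [gOne, C_mul, map_mul, hGen, hGen]
    rfl
  have hG0 : G ≠ 0 := by
    intro h
    have h1 : (G : K) = 0 := by rw [h]; rfl
    rw [hGK, IsFractionRing.to_map_eq_zero_iff, C_eq_zero] at h1
    exact mul_ne_zero (quad_ne_zero c 0) (quad_ne_zero c 1) h1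
  have hconic : u ^ 2 - T * v ^ 2 = 4 * (((T - kconst K hh (c 0)) * (T - kconst K hh (c 1))) *
      ((T - kconst K hh (c 2)) * (T - kconst K hh (c 3)))) := by
    apply Subtype.ext
    change (x + H / x) ^ 2 - θ ^ 2 * ((x - H / x) / θ) ^ 2 =
      4 * (((θ ^ 2 - algebraMap κ₀[X][X] K (C (C (c 0)))) *
        (θ ^ 2 - algebraMap κ₀[X][X] K (C (C (c 1))))) *
        ((θ ^ 2 - algebraMap κ₀[X][X] K (C (C (c 2)))) *
        (θ ^ 2 - algebraMap κ₀[X][X] K (C (C (c 3))))))
    have h3 : H = ((θ ^ 2 - algebraMap κ₀[X][X] K (C (C (c 0)))) *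
        (θ ^ 2 - algebraMap κ₀[X][X] K (C (C (c 1))))) *
        ((θ ^ 2 - algebraMap κ₀[X][X] K (C (C (c 2)))) *
        (θ ^ 2 - algebraMap κ₀[X][X] K (C (C (c 3))))) := by
      rw [hH, gAll, gOne, gTwo, C_mul, C_mul, C_mul, map_mul, map_mul, map_mul, hGen, hGen, hGen,
        hGen]
    rw [← h3]
    field_simp
    ring
  have h2K' : (2 : Kfix K hh) ≠ 0 := by
    rw [← map_ofNat (kconst K hh) 2]
    rwa [Ne, map_eq_zero]
  -- the class of the symbol
  let Q : Kfix K hh → Kfix K hh → Prop := fun a b => a ≠ 0 ∧ b ≠ 0 ∧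
    (∀ (κ : Type) (_ : Field κ) (P : Place (Kfix K hh) κ) (i : κ₀ →+* κ),
      (∀ a, P.Res (kconst K hh a) (i a)) → Unr P a b) ∧ (Spl a b ↔ Spl T G) ∧
    Spl (a : K) (b : K)
  have hsplsymm : ∀ {F : Type} [Field F] {a b : F}, (2 : F) ≠ 0 → a ≠ 0 → b ≠ 0 →
      (Spl b a ↔ Spl a b) := fun h2 ha hb => ⟨fun h => h.symm h2 hb, fun h => h.symm h2 ha⟩
  have h2K : (2 : K) ≠ 0 := by
    intro h
    exact h2K' (Subtype.ext h)
  have hQsymm : ∀ a b, Q a b → Q b a := by
    rintro a b ⟨ha, hb, h3, h4, h5⟩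
    refine ⟨hb, ha, fun κ _ P i hi => (h3 κ _ P i hi).symm, ?_, ?_⟩
    · rw [← h4]; exact hsplsymm h2K' ha hb
    · exact h5.symm h2K (fun h => ha (Subtype.ext h))
  have hQne : ∀ a b, Q a b → a ≠ 0 := fun a b h => h.1
  have hQnorm : ∀ a b x y, Q a b → x ^ 2 - b * y ^ 2 ≠ 0 → Q (a * (x ^ 2 - b * y ^ 2)) b := by
    rintro a b x y ⟨ha, hb, h3, h4, h5⟩ hν
    refine ⟨mul_ne_zero ha hν, hb, fun κ _ P i hi => (h3 κ _ P i hi).norm ha hb hν, ?_, ?_⟩
    · rw [← h4]; exact Spl.mul_norm_iff x y hν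
    · exact h5.mul_norm (x : K) (y : K)
  have hQ0 : Q T G := by
    refine ⟨hT0, hG0, fun κ _ P i hi => ?_, Iff.rfl, ⟨θ, 0, ?_⟩⟩
    · exact unr_conic P c hc hinj h01 h2 (kconst K hh) i hi T u v hconic hT0
    · change θ ^ 2 = _; ring
  -- the first descent
  obtain ⟨J, hJ, hJmap⟩ := exists_J j hj1
  have hJC : ∀ r : κ₀[X], J (C (algebraMap _ _ r)) = j (C r) := by
    intro r
    rw [← hJmap, Polynomial.map_C]
  obtain ⟨a₁, b₁, hQ1⟩ : ∃ a₁ b₁ : FractionRing κ₀[X], Q (J (C a₁)) (J (C b₁)) := by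
    letI : Algebra (FractionRing κ₀[X])[X] (Kfix K hh) := J.toAlgebra
    have halg : ∀ p, algebraMap (FractionRing κ₀[X])[X] (Kfix K hh) p = J p := fun _ => rfl
    haveI : IsFractionRing (FractionRing κ₀[X])[X] (Kfix K hh) := by
      refine isFractionRing_of hJ fun a => ?_
      obtain ⟨p, q, hq, h⟩ := hj3 a
      refine ⟨p.map (algebraMap _ _), q.map (algebraMap _ _), ?_, ?_⟩
      · rwa [Ne, Polynomial.map_eq_zero_iff (IsFractionRing.injective _ _)]
      · rw [halg, halg, hJmap, hJmap, h]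
    refine descent h2K' Q hQsymm hQne hQnorm ?_ T G hQ0
    intro a b P hab hP ⟨a₁, ha₁, hPa₁⟩ hPb
    haveI : Fact (Irreducible P) := ⟨hP⟩
    obtain ⟨Pl, ht, hPl⟩ := exists_cplace (F := Kfix K hh) (AdjoinRoot.mk P) P hP.ne_zero
      (fun r => AdjoinRoot.mk_eq_zero)
    have hres : ∀ r, Pl.Res (algebraMap _ _ r) (AdjoinRoot.mk P r) := by
      intro r
      rw [hPl]
      exact ⟨r, 1, by simp, by simp, by simp⟩
    obtain ⟨_, _, hunr, _, _⟩ := hab
    have h3 := hunr (AdjoinRoot P) inferInstance Pl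
      ((AdjoinRoot.mk P).comp (C.comp ((algebraMap κ₀[X] _).comp C))) (by
        intro a
        have h4 := hres (C (algebraMap κ₀[X] _ (C a)))
        rw [halg, hJC, hj2] at h4
        exact h4)
    have h4 := sq_of_unr (AdjoinRoot.mk P) P Pl ht hres a a₁ b ha₁
      (by rwa [Ne, AdjoinRoot.mk_eq_zero]) (by rwa [Ne, AdjoinRoot.mk_eq_zero]) h3
    obtain ⟨r, hr⟩ := h4
    obtain ⟨c', rfl⟩ := AdjoinRoot.mk_surjective r
    refine ⟨c', ?_⟩
    rw [← AdjoinRoot.mk_eq_mk, hr, map_pow, sq]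
  -- the second descent
  obtain ⟨a₀, b₀, hQ2⟩ : ∃ a₀ b₀ : κ₀, Q (kconst K hh a₀) (kconst K hh b₀) := by
    have h3 := descent (F := κ₀) (Ω := FractionRing κ₀[X]) ?_
      (fun a b => Q (J (C a)) (J (C b))) (fun a b => hQsymm _ _) ?_ ?_ ?_ a₁ b₁ hQ1
    · obtain ⟨a₀, b₀, h4⟩ := h3
      refine ⟨a₀, b₀, ?_⟩
      have h5 : ∀ a : κ₀, J (C (algebraMap κ₀[X] (FractionRing κ₀[X]) (C a))) =
          kconst K hh a := by
        intro a
        rw [hJC, hj2]
      simpa only [h5] using h4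
    · intro h0
      apply h2K'
      have h3 : J (C 2) = J (C 0) := congrArg (fun z => J (C z)) h0
      rwa [map_ofNat C 2, map_ofNat J 2, C_0, map_zero] at h3
    · intro a b h ha
      apply hQne _ _ h
      rw [ha]; simp
    · intro a b x y h hν
      have h4 := hQnorm _ _ (J (C x)) (J (C y)) h (by
        intro h0
        apply hν
        have h5 : J (C (x ^ 2 - b * y ^ 2)) = 0 := by
          rw [← h0]; simp
        rwa [map_eq_zero_iff J hJ, C_eq_zero] at h5)
      have h5 : J (C (a * (x ^ 2 - b * y ^ 2))) =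
          J (C a) * (J (C x) ^ 2 - J (C b) * J (C y) ^ 2) := by simp
      show Q (J (C (a * (x ^ 2 - b * y ^ 2)))) _
      rw [h5]
      exact h4
    · intro a b P hab hP ⟨a₁, ha₁, hPa₁⟩ hPb
      haveI : Fact (Irreducible P) := ⟨hP⟩
      letI : Algebra κ₀[X][X] (Kfix K hh) := j.toAlgebra
      have halg : ∀ p, algebraMap κ₀[X][X] (Kfix K hh) p = j p := fun _ => rfl
      haveI : IsFractionRing κ₀[X][X] (Kfix K hh) := isFractionRing_of hj1 hj3
      set ev : κ₀[X][X] →+* RatFunc (AdjoinRoot P) :=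
        (algebraMap (AdjoinRoot P)[X] (RatFunc (AdjoinRoot P))).comp
          (mapRingHom (AdjoinRoot.mk P)) with hev
      have hevapp : ∀ r, ev r = algebraMap _ _ (r.map (AdjoinRoot.mk P)) := fun _ => rfl
      have hinjR := RatFunc.algebraMap_injective (AdjoinRoot P)
      obtain ⟨Pl, ht, hPl⟩ := exists_cplace (F := Kfix K hh) ev (C P)
        (by rw [Ne, C_eq_zero]; exact hP.ne_zero) (by
          intro r
          rw [hevapp, map_eq_zero_iff _ hinjR, C_dvd_iff_dvd_coeff, Polynomial.ext_iff]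
          refine forall_congr' fun n => ?_
          rw [coeff_map, coeff_zero, AdjoinRoot.mk_eq_zero])
      have hres : ∀ r, Pl.Res (algebraMap _ _ r) (ev r) := by
        intro r
        rw [hPl]
        exact ⟨r, 1, by simp, by simp, by simp⟩
      obtain ⟨_, _, hunr, _, _⟩ := hab
      have h3 := hunr (RatFunc (AdjoinRoot P)) inferInstance Pl
        (ev.comp (C.comp C)) (by
          intro a
          have h4 := hres (C (C a))
          rw [halg, hj2] at h4
          exact h4)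
      rw [hJC, hJC, ← halg, ← halg] at h3
      have hevC : ∀ r : κ₀[X], ev (C r) = algebraMap (AdjoinRoot P)[X] _ (C (AdjoinRoot.mk P r)) :=
        by intro r; rw [hevapp, Polynomial.map_C]
      have hevC0 : ∀ r : κ₀[X], ¬ P ∣ r → ev (C r) ≠ 0 := by
        intro r hr
        rw [hevC, Ne, map_eq_zero_iff _ hinjR, C_eq_zero, AdjoinRoot.mk_eq_zero]
        exact hr
      have h4 := sq_of_unr ev (C P) Pl ht hres (C a) (C a₁) (C b) (by rw [ha₁, C_mul])
        (hevC0 _ hPa₁) (hevC0 _ hPb) h3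
      rw [hevC] at h4
      obtain ⟨r, hr⟩ := isSquare_of_ratFunc _ h4
      obtain ⟨c', rfl⟩ := AdjoinRoot.mk_surjective r
      refine ⟨c', ?_⟩
      rw [← AdjoinRoot.mk_eq_mk, hr, map_pow, sq]
  -- the constant symbol splits over the base
  obtain ⟨ha₀, hb₀, -, hiff, hK⟩ := hQ2
  have ha₀' : a₀ ≠ 0 := by rintro rfl; simp at ha₀
  have hb₀' : b₀ ≠ 0 := by rintro rfl; simp at hb₀
  have hspl0 : Spl a₀ b₀ := by
    obtain ⟨P, hP⟩ := exists_kronPlace (κ₀ := κ₀) (K := K) 0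
    obtain ⟨P', hP'⟩ := exists_zeroPlace κ₀
    have h3 : ∀ a : κ₀, P.Res ((kconst K hh a : Kfix K hh) : K)
        (algebraMap κ₀[X] (RatFunc κ₀) (C a)) := by
      intro a
      have := hP (C (C a))
      rwa [eval_C] at this
    have h4 : ∀ a : κ₀, a ≠ 0 → algebraMap κ₀[X] (RatFunc κ₀) (C a) ≠ 0 := by
      intro a ha
      rw [Ne, map_eq_zero_iff _ (RatFunc.algebraMap_injective κ₀), C_eq_zero]
      exact ha
    have h2R : (2 : RatFunc κ₀) ≠ 0 := by
      have h5 := h4 2 h2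
      have h6 : algebraMap κ₀[X] (RatFunc κ₀) (C 2) = 2 := by
        rw [map_ofNat C 2, map_ofNat (algebraMap κ₀[X] (RatFunc κ₀)) 2]
      rwa [h6] at h5
    have h5 := Spl.res h2R P (h4 _ ha₀') (h4 _ hb₀') (h3 a₀) (h3 b₀) hK
    refine Spl.res h2 P' ha₀' hb₀' ?_ ?_ h5
    · have := hP' (C a₀); rwa [eval_C] at this
    · have := hP' (C b₀); rwa [eval_C] at this
  have hTG : Spl T G := hiff.mp (hspl0.map (kconst K hh))
  obtain ⟨X₀, Y₀, hXY⟩ := hTG.symm h2K' hT0
  refine not_norm hc hinj K hh ((X₀ : K) + θ * Y₀) ?_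
  rw [map_add, map_mul, hbθ, (mem_Kfix K).mp X₀.2, (mem_Kfix K).mp Y₀.2, ← hGK, hXY]
  change _ = (X₀ : K) ^ 2 - θ ^ 2 * (Y₀ : K) ^ 2
  ring

end final

end Pool.Agent.WeylSub
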