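import Mathlib
import Pool.Agent.WeylSub.Skew
import Pool.Agent.WeylSub.Core

/-!
# Universal property of division rings of fractions
-/

set_option linter.unusedSectionVars false

namespace Pool.Agent.WeylSub

open Polynomial SA

/-- Universal property of a division ring of left fractions. -/
theorem ore_lift {A E T : Type} [Ring A] [DivisionRing E] [DivisionRing T] (ι : A →+* E)
    (hι : Function.Injective ι) (frac : ∀ e, ∃ s a, s ≠ 0 ∧ ι s * e = ι a) (f : A →+* T)
    (hf : ∀ a, a ≠ 0 → f a ≠ 0) : ∃ F : E →+* T, ∀ a, F (ι a) = f a := by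
  have hι0 : ∀ a, a ≠ 0 → ι a ≠ 0 := fun a ha => by rwa [Ne, map_eq_zero_iff _ hι]
  have hmul0 : ∀ a b : A, a ≠ 0 → b ≠ 0 → a * b ≠ 0 := by
    intro a b ha hb h
    have := congrArg ι h
    rw [map_mul, map_zero] at this
    exact mul_ne_zero (hι0 a ha) (hι0 b hb) this
  have hore : ∀ a s : A, s ≠ 0 → ∃ u v : A, u ≠ 0 ∧ u * a = v * s := by
    intro a s hs
    obtain ⟨u, v, hu, h⟩ := frac (ι a * (ι s)⁻¹)
    refine ⟨u, v, hu, hι ?_⟩
    rw [map_mul, map_mul, ← h, mul_assoc, mul_assoc, inv_mul_cancel₀ (hι0 s hs), mul_one]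
  let Rel : E → T → Prop := fun e t => ∃ s a, s ≠ 0 ∧ ι s * e = ι a ∧ f s * t = f a
  have htot : ∀ e, ∃ t, Rel e t := by
    intro e
    obtain ⟨s, a, hs, h⟩ := frac e
    exact ⟨(f s)⁻¹ * f a, s, a, hs, h, by
      rw [← mul_assoc, mul_inv_cancel₀ (hf s hs), one_mul]⟩
  -- common denominators
  have hcomm : ∀ {e e' : E} {t t' : T}, Rel e t → Rel e' t' → ∃ s a a' : A, s ≠ 0 ∧
      ι s * e = ι a ∧ f s * t = f a ∧ ι s * e' = ι a' ∧ f s * t' = f a' := by
    rintro e e' t t' ⟨s, a, hs, h1, h2⟩ ⟨s', a', hs', h1', h2'⟩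
    obtain ⟨u, v, hu, huv⟩ := hore s s' hs'
    refine ⟨u * s, u * a, v * a', hmul0 _ _ hu hs, ?_, ?_, ?_, ?_⟩
    · rw [map_mul, map_mul, mul_assoc, h1]
    · rw [map_mul, map_mul, mul_assoc, h2]
    · rw [huv, map_mul, map_mul, mul_assoc, h1']
    · rw [huv, map_mul, map_mul, mul_assoc, h2']
  have huniq : ∀ {e : E} {t t' : T}, Rel e t → Rel e t' → t = t' := by
    intro e t t' h h'
    obtain ⟨s, a, a', hs, h1, h2, h3, h4⟩ := hcomm h h'
    have h5 : a = a' := hι (by rw [← h1, h3])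
    apply mul_left_cancel₀ (hf s hs)
    rw [h2, h4, h5]
  choose F hF using htot
  have hadd : ∀ {e e' : E} {t t' : T}, Rel e t → Rel e' t' → Rel (e + e') (t + t') := by
    intro e e' t t' h h'
    obtain ⟨s, a, a', hs, h1, h2, h3, h4⟩ := hcomm h h'
    exact ⟨s, a + a', hs, by rw [mul_add, h1, h3, map_add], by rw [mul_add, h2, h4, map_add]⟩
  have hmul : ∀ {e e' : E} {t t' : T}, Rel e t → Rel e' t' → Rel (e * e') (t * t') := by
    rintro e e' t t' ⟨s, a, hs, h1, h2⟩ ⟨s', a', hs', h1', h2'⟩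
    obtain ⟨u, v, hu, huv⟩ := hore a s' hs'
    refine ⟨u * s, v * a', hmul0 _ _ hu hs, ?_, ?_⟩
    · calc ι (u * s) * (e * e') = ι u * (ι s * e) * e' := by rw [map_mul]; simp only [mul_assoc]
        _ = ι (u * a) * e' := by rw [h1, map_mul]
        _ = _ := by rw [huv, map_mul, mul_assoc, h1', map_mul]
    · calc f (u * s) * (t * t') = f u * (f s * t) * t' := by rw [map_mul]; simp only [mul_assoc]
        _ = f (u * a) * t' := by rw [h2, map_mul]
        _ = _ := by rw [huv, map_mul, mul_assoc, h2', map_mul]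
  have hnum : ∀ a, Rel (ι a) (f a) := by
    intro a
    refine ⟨1, a, ?_, by rw [map_one, one_mul], by rw [map_one, one_mul]⟩
    intro h
    have := congrArg ι h
    rw [map_one, map_zero] at this
    exact one_ne_zero this
  refine ⟨
    { toFun := F
      map_one' := huniq (hF 1) (by simpa using hnum 1)
      map_zero' := huniq (hF 0) (by simpa using hnum 0)
      map_add' := fun a b => huniq (hF _) (hadd (hF a) (hF b))
      map_mul' := fun a b => huniq (hF _) (hmul (hF a) (hF b)) }, fun a => ?_⟩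
  exact huniq (hF _) (hnum a)

namespace Core

variable {Λ : Type} [CommRing Λ] {π : Λ} {E : Type} [DivisionRing E]
variable (S : Core Λ π E)

/-- The skew polynomial ring in `E`. -/
noncomputable def numC : SA Λ π →+* E := SA.lift Λ π S.ι S.x S.x_mul

lemma numC_toA (p : Λ[X][X]) : S.numC (toA Λ π p) = p.eval₂ S.ι S.x := by
  rw [numC, lift_toA]

lemma numC_injective : Function.Injective S.numC := by
  rw [injective_iff_map_eq_zero]
  intro a ha
  obtain ⟨p, rfl⟩ := toA_surjective Λ π a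
  rw [numC_toA] at ha
  rw [S.indep p ha, map_zero]

lemma numC_frac (e : E) : ∃ s a, s ≠ 0 ∧ S.numC s * e = S.numC a := by
  obtain ⟨p, q, hq, h⟩ := S.frac e
  refine ⟨toA Λ π q, toA Λ π p, ?_, by rw [numC_toA, numC_toA, h]⟩
  intro h0
  exact hq (toA_injective Λ π (by rw [h0, map_zero]))

/-- Universal property. -/
theorem exists_lift {T : Type} [DivisionRing T] (f : Λ[X] →+* T) (y : T)
    (hy : ∀ r, y * f r = f (taylor π r) * y) (hind : ∀ p : Λ[X][X], p.eval₂ f y = 0 → p = 0) :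
    ∃ F : E →+* T, (∀ r, F (S.ι r) = f r) ∧ F S.x = y := by
  obtain ⟨F, hF⟩ := ore_lift S.numC S.numC_injective S.numC_frac (SA.lift Λ π f y hy) (by
    intro a ha h0
    obtain ⟨p, rfl⟩ := toA_surjective Λ π a
    rw [lift_toA] at h0
    exact ha (by rw [hind p h0, map_zero]))
  have hF' : ∀ p : Λ[X][X], F (p.eval₂ S.ι S.x) = p.eval₂ f y := by
    intro p
    rw [← numC_toA, hF, lift_toA]
  refine ⟨F, fun r => ?_, ?_⟩
  · have := hF' (C r)
    rwa [eval₂_C, eval₂_C] at this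
  · have := hF' X
    rwa [eval₂_X, eval₂_X] at this

/-- Two division rings of fractions of the same skew polynomial ring are isomorphic. -/
theorem exists_equiv {E' : Type} [DivisionRing E'] (S' : Core Λ π E') :
    ∃ F : E ≃+* E', (∀ r, F (S.ι r) = S'.ι r) ∧ F S.x = S'.x := by
  obtain ⟨F, h1, h2⟩ := S.exists_lift S'.ι S'.x S'.x_mul S'.indep
  have hF' : ∀ p : Λ[X][X], F (p.eval₂ S.ι S.x) = p.eval₂ S'.ι S'.x := by
    intro p
    rw [hom_eval₂, h2]
    congr 1
    exact RingHom.ext h1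
  have hbij : Function.Bijective F := by
    refine ⟨F.injective, fun e => ?_⟩
    obtain ⟨p, q, hq, h⟩ := S'.frac e
    have hq' : q.eval₂ S'.ι S'.x ≠ 0 := fun h0 => hq (S'.indep q h0)
    refine ⟨(q.eval₂ S.ι S.x)⁻¹ * p.eval₂ S.ι S.x, ?_⟩
    rw [map_mul, map_inv₀, hF', hF', ← h, ← mul_assoc, inv_mul_cancel₀ hq', one_mul]
  exact ⟨RingEquiv.ofBijective F hbij, h1, h2⟩

end Core

end Pool.Agent.WeylSub
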