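import Mathlib
import Pool.Agent.WeylSub.Defs
import Pool.Agent.WeylSub.Ore

/-!
# The first Weyl algebra and its quotient division ring
-/

set_option linter.unusedSectionVars false

namespace Pool.Agent.WeylSub

open Polynomial SA

namespace WeylAlg

variable (k : Type) [Field k]

/-- generator -/
noncomputable def wx : WeylAlg k := RingQuot.mkAlgHom k (WeylRel k) (FreeAlgebra.ι k 0)

/-- generator -/
noncomputable def wy : WeylAlg k := RingQuot.mkAlgHom k (WeylRel k) (FreeAlgebra.ι k 1)

lemma wrel : wx k * wy k = wy k * wx k + 1 := by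
  have h := RingQuot.mkAlgHom_rel k (WeylRel.comm (k := k))
  rwa [map_mul, map_add, map_mul, map_one] at h

variable {k}

/-- Homomorphisms from the Weyl algebra. -/
theorem exists_wlift {T : Type} [Ring T] [Algebra k T] (X Y : T) (h : X * Y = Y * X + 1) :
    ∃ F : WeylAlg k →ₐ[k] T, F (wx k) = X ∧ F (wy k) = Y := by
  refine ⟨RingQuot.liftAlgHom k ⟨FreeAlgebra.lift k ![X, Y], ?_⟩, ?_, ?_⟩
  · rintro _ _ ⟨⟩
    simpa using h
  · rw [wx, RingQuot.liftAlgHom_mkAlgHom_apply, FreeAlgebra.lift_ι_apply]; rfl
  · rw [wy, RingQuot.liftAlgHom_mkAlgHom_apply, FreeAlgebra.lift_ι_apply]; rfl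

/-- induction principle -/
lemma winduction (C : WeylAlg k → Prop) (h0 : ∀ c : k, C (algebraMap k _ c)) (hx : C (wx k))
    (hy : C (wy k)) (hadd : ∀ a b, C a → C b → C (a + b)) (hmul : ∀ a b, C a → C b → C (a * b))
    (a : WeylAlg k) : C a := by
  obtain ⟨b, rfl⟩ := RingQuot.mkAlgHom_surjective k (WeylRel k) a
  induction b using FreeAlgebra.induction with
  | grade0 r => rw [AlgHom.commutes]; exact h0 r
  | grade1 i =>
    fin_cases i
    · exact hx
    · exact hy
  | mul a b ha hb => rw [map_mul]; exact hmul _ _ ha hb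
  | add a b ha hb => rw [map_add]; exact hadd _ _ ha hb

variable (k) in
/-- The representation on polynomials. -/
theorem exists_rep : ∃ F : WeylAlg k →ₐ[k] Module.End k k[X],
    F (wx k) = derivative ∧ F (wy k) = LinearMap.mulLeft k X := by
  refine exists_wlift _ _ ?_
  apply LinearMap.ext
  intro q
  simp only [Module.End.mul_apply, LinearMap.add_apply, LinearMap.mulLeft_apply,
    Module.End.one_apply, derivative_mul, derivative_X, one_mul]
  ring

/-- coefficientwise derivative -/
noncomputable def dd (p : k[X][X]) : k[X][X] :=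
  ∑ i ∈ Finset.range (p.natDegree + 1), monomial i (derivative (p.coeff i))

lemma coeff_dd (p : k[X][X]) (i : ℕ) : (dd p).coeff i = derivative (p.coeff i) := by
  rw [dd, finsetSum_coeff]
  simp only [coeff_monomial]
  rw [Finset.sum_ite_eq' (Finset.range (p.natDegree + 1)) i]
  split_ifs with h
  · rfl
  · rw [Finset.mem_range, not_lt] at h
    rw [coeff_eq_zero_of_natDegree_lt (by omega), map_zero]

lemma dd_add (p q : k[X][X]) : dd (p + q) = dd p + dd q := by
  ext i : 1
  rw [coeff_dd, coeff_add, coeff_add, coeff_dd, coeff_dd, map_add]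

lemma dd_monomial (n : ℕ) (a : k[X]) : dd (monomial n a) = monomial n (derivative a) := by
  ext i : 1
  rw [coeff_dd, coeff_monomial, coeff_monomial]
  split_ifs <;> simp

/-- the ring homomorphism `r ↦ r(y)` -/
noncomputable def ay : k[X] →+* WeylAlg k := (aeval (wy k) : k[X] →ₐ[k] WeylAlg k).toRingHom

lemma ay_apply (r : k[X]) : ay r = aeval (wy k) r := rfl

/-- normal forms `∑ cᵢⱼ yⁱ xʲ` -/
noncomputable def nf (p : k[X][X]) : WeylAlg k := p.eval₂ ay (wx k)

lemma nf_add (p q : k[X][X]) : nf (p + q) = nf p + nf q := eval₂_add _ _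

lemma nf_monomial (n : ℕ) (a : k[X]) : nf (monomial n a) = ay a * wx k ^ n := eval₂_monomial _ _

lemma wx_mul_ay (r : k[X]) : wx k * ay r = ay r * wx k + ay (derivative r) := by
  have hmul : ∀ r s : k[X], wx k * ay r = ay r * wx k + ay (derivative r) →
      wx k * ay s = ay s * wx k + ay (derivative s) →
      wx k * ay (r * s) = ay (r * s) * wx k + ay (derivative (r * s)) := by
    intro r s hr hs
    rw [map_mul, ← mul_assoc, hr, add_mul, mul_assoc, hs, derivative_mul, map_add, map_mul,
      map_mul, mul_add, mul_assoc]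
    abel
  have hX : wx k * ay X = ay X * wx k + ay (derivative X) := by
    rw [derivative_X, map_one, ay_apply, aeval_X]
    exact wrel k
  induction r using Polynomial.induction_on with
  | C a =>
    rw [derivative_C, map_zero, add_zero, ay_apply, aeval_C]
    exact (Algebra.commutes a (wx k)).symm
  | add p q hp hq =>
    rw [map_add, mul_add, hp, hq, add_mul, derivative_add, map_add]
    abel
  | monomial n a h =>
    rw [pow_succ, ← mul_assoc]
    exact hmul _ _ h hX

lemma wx_mul_nf (p : k[X][X]) : wx k * nf p = nf (X * p + dd p) := by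
  induction p using Polynomial.induction_on' with
  | add p q hp hq =>
    rw [nf_add, mul_add, hp, hq, ← nf_add, dd_add]
    congr 1
    ring
  | monomial n a =>
    rw [nf_monomial, ← mul_assoc, wx_mul_ay, add_mul, mul_assoc, ← pow_succ', dd_monomial,
      nf_add, X_mul_monomial, nf_monomial, nf_monomial]

lemma wy_mul_nf (p : k[X][X]) : wy k * nf p = nf (C X * p) := by
  induction p using Polynomial.induction_on' with
  | add p q hp hq => rw [nf_add, mul_add, hp, hq, ← nf_add, mul_add]
  | monomial n a =>
    rw [nf_monomial, C_mul_monomial, nf_monomial, map_mul, ← mul_assoc]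
    congr 2
    rw [ay_apply, aeval_X]

/-- every element has a normal form -/
lemma exists_nf (a : WeylAlg k) : ∃ p, a = nf p := by
  have key : ∀ a : WeylAlg k, ∀ p, ∃ q, a * nf p = nf q := by
    intro a
    induction a using winduction with
    | h0 c =>
      intro p
      refine ⟨C (C c) * p, ?_⟩
      induction p using Polynomial.induction_on' with
      | add p q hp hq => rw [nf_add, mul_add, hp, hq, ← nf_add, mul_add]
      | monomial n a =>
        rw [nf_monomial, C_mul_monomial, nf_monomial, map_mul, ← mul_assoc]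
        congr 2
        rw [ay_apply, aeval_C]
    | hx => exact fun p => ⟨_, wx_mul_nf p⟩
    | hy => exact fun p => ⟨_, wy_mul_nf p⟩
    | hadd a b ha hb =>
      intro p
      obtain ⟨q, hq⟩ := ha p
      obtain ⟨r, hr⟩ := hb p
      exact ⟨q + r, by rw [add_mul, hq, hr, nf_add]⟩
    | hmul a b ha hb =>
      intro p
      obtain ⟨q, hq⟩ := hb p
      obtain ⟨r, hr⟩ := ha q
      exact ⟨r, by rw [mul_assoc, hq, hr]⟩
  obtain ⟨q, hq⟩ := key a 1
  refine ⟨q, ?_⟩
  rw [← hq, nf, eval₂_one, mul_one]

variable [CharZero k]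

/-- normal forms are unique -/
lemma nf_injective (p : k[X][X]) (h : nf p = 0) : p = 0 := by
  obtain ⟨F, hFx, hFy⟩ := exists_rep k
  have hFay : ∀ r q : k[X], F (ay r) q = r * q := by
    intro r q
    induction r using Polynomial.induction_on' with
    | add r s hr hs => rw [map_add, map_add, LinearMap.add_apply, hr, hs, add_mul]
    | monomial n a =>
      rw [ay_apply, aeval_monomial, map_mul, map_pow, hFy, AlgHom.commutes,
        Module.End.mul_apply, Module.algebraMap_end_apply, ← C_mul_X_pow_eq_monomial,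
        LinearMap.pow_mulLeft, LinearMap.mulLeft_apply, smul_eq_C_mul, mul_assoc]
  have hFp : ∀ (p : k[X][X]) (q : k[X]), F (nf p) q =
      ∑ j ∈ Finset.range (p.natDegree + 1), p.coeff j * (derivative^[j] q) := by
    intro p q
    rw [nf, eval₂_eq_sum_range, map_sum, LinearMap.sum_apply]
    refine Finset.sum_congr rfl fun j _ => ?_
    rw [map_mul, Module.End.mul_apply, map_pow, hFx, hFay, Module.End.pow_apply]
  ext1 n
  rw [coeff_zero]
  induction n using Nat.strong_induction_on with
  | _ n ih =>
    by_cases hn : p.natDegree < n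
    · exact coeff_eq_zero_of_natDegree_lt hn
    · have h1 := hFp p (X ^ n)
      rw [h, map_zero, LinearMap.zero_apply] at h1
      rw [Finset.sum_eq_single n] at h1
      · rw [iterate_derivative_X_pow_eq_C_mul, Nat.sub_self, pow_zero, mul_one] at h1
        rcases mul_eq_zero.mp h1.symm with h2 | h2
        · exact h2
        · rw [C_eq_zero] at h2
          have h3 : (n.descFactorial n) ≠ 0 := by
            rw [Nat.descFactorial_self]; exact Nat.factorial_ne_zero n
          exact absurd (by exact_mod_cast h2) h3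
      · intro j _ hj
        rcases lt_or_gt_of_ne hj with hlt | hgt
        · rw [ih j hlt, zero_mul]
        · rw [iterate_derivative_eq_zero (by rw [natDegree_X_pow]; exact hgt), mul_zero]
      · intro h2
        rw [Finset.mem_range] at h2
        omega

lemma wx_mul_eq_zero (a : WeylAlg k) (h : wx k * a = 0) : a = 0 := by
  obtain ⟨p, rfl⟩ := exists_nf a
  rw [wx_mul_nf] at h
  have h1 := nf_injective _ h
  by_contra hne
  have hp : p ≠ 0 := by rintro rfl; exact hne (eval₂_zero _ _)
  have h2 := congrArg (fun q => coeff q (p.natDegree + 1)) h1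
  simp only [coeff_add, coeff_X_mul, coeff_dd, coeff_zero] at h2
  rw [coeff_eq_zero_of_natDegree_lt (Nat.lt_succ_self _), map_zero, add_zero] at h2
  exact hp (leadingCoeff_eq_zero.mp h2)

lemma wx_ne_zero : wx k ≠ 0 := by
  intro h
  have h1 := wx_mul_eq_zero (1 : WeylAlg k) (by rw [h, zero_mul])
  have h2 : nf (1 : k[X][X]) = 0 := by rw [nf, eval₂_one, h1]
  exact one_ne_zero (nf_injective _ h2)

lemma wx_pow_mul_eq_zero (n : ℕ) (a : WeylAlg k) (h : wx k ^ n * a = 0) : a = 0 := by
  induction n with
  | zero => simpa using h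
  | succ n ih =>
    rw [pow_succ', mul_assoc] at h
    exact ih (wx_mul_eq_zero _ h)

/-- `r ↦ r(yx)` -/
noncomputable def at' : k[X] →+* WeylAlg k :=
  (aeval (wy k * wx k) : k[X] →ₐ[k] WeylAlg k).toRingHom

omit [CharZero k] in
lemma at'_apply (r : k[X]) : at' r = aeval (wy k * wx k) r := rfl

omit [CharZero k] in
lemma wx_mul_at' (r : k[X]) : wx k * at' r = at' (taylor 1 r) * wx k := by
  have hmul : ∀ r s : k[X], wx k * at' r = at' (taylor 1 r) * wx k →
      wx k * at' s = at' (taylor 1 s) * wx k →
      wx k * at' (r * s) = at' (taylor 1 (r * s)) * wx k := by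
    intro r s hr hs
    rw [map_mul, ← mul_assoc, hr, mul_assoc, hs, taylor_mul, map_mul, mul_assoc]
  have hX : wx k * at' X = at' (taylor 1 X) * wx k := by
    rw [taylor_X, map_add, at'_apply, at'_apply, aeval_X, aeval_C, map_one, ← mul_assoc,
      wrel]
  induction r using Polynomial.induction_on with
  | C a =>
    rw [taylor_C, at'_apply, aeval_C]
    exact (Algebra.commutes a (wx k)).symm
  | add p q hp hq => rw [map_add, mul_add, hp, hq, map_add, map_add, add_mul]
  | monomial n a h =>
    rw [pow_succ, ← mul_assoc]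
    exact hmul _ _ h hX

/-- `∑ pⱼ(yx) xʲ` -/
noncomputable def pf (p : k[X][X]) : WeylAlg k := p.eval₂ at' (wx k)

omit [CharZero k] in
lemma pf_add (p q : k[X][X]) : pf (p + q) = pf p + pf q := eval₂_add _ _

omit [CharZero k] in
lemma pf_monomial (n : ℕ) (a : k[X]) : pf (monomial n a) = at' a * wx k ^ n := eval₂_monomial _ _

omit [CharZero k] in
lemma C_mul_pf (r : k[X]) (p : k[X][X]) : at' r * pf p = pf (C r * p) := by
  induction p using Polynomial.induction_on' with
  | add p q hp hq => rw [pf_add, mul_add, hp, hq, ← pf_add, mul_add]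
  | monomial n a => rw [pf_monomial, C_mul_monomial, pf_monomial, map_mul, mul_assoc]

omit [CharZero k] in
lemma wx_mul_pf (p : k[X][X]) : ∃ q, wx k * pf p = pf q := by
  induction p using Polynomial.induction_on' with
  | add p q hp hq =>
    obtain ⟨p', hp'⟩ := hp
    obtain ⟨q', hq'⟩ := hq
    exact ⟨p' + q', by rw [pf_add, mul_add, hp', hq', pf_add]⟩
  | monomial n a =>
    refine ⟨monomial (n + 1) (taylor 1 a), ?_⟩
    rw [pf_monomial, ← mul_assoc, wx_mul_at', mul_assoc, ← pow_succ', pf_monomial]

omit [CharZero k] in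
lemma wx_pow_mul_pf (m : ℕ) (p : k[X][X]) : ∃ q, wx k ^ m * pf p = pf q := by
  induction m generalizing p with
  | zero => exact ⟨p, by simp⟩
  | succ m ih =>
    obtain ⟨q, hq⟩ := wx_mul_pf p
    obtain ⟨r, hr⟩ := ih q
    exact ⟨r, by rw [pow_succ, mul_assoc, hq, hr]⟩

omit [CharZero k] in
lemma wx_pow_mul_wy (N : ℕ) : wx k ^ N * (wx k * wy k) = at' (X + C ((N : k) + 1)) * wx k ^ N := by
  induction N with
  | zero =>
    rw [pow_zero, one_mul, mul_one, wrel, map_add, at'_apply, at'_apply, aeval_X, aeval_C]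
    simp
  | succ N ih =>
    rw [pow_succ', mul_assoc, ih, ← mul_assoc, wx_mul_at', mul_assoc]
    congr 2
    rw [taylor_apply]
    simp
    ring

omit [CharZero k] in
/-- every element is a left fraction of polynomials in `yx` and `x` -/
lemma exists_pf (a : WeylAlg k) : ∃ (N : ℕ) (p : k[X][X]), wx k ^ N * a = pf p := by
  have key : ∀ a b : WeylAlg k, (∃ (N : ℕ) (p : k[X][X]), wx k ^ N * b = pf p) →
      ∃ (N : ℕ) (p : k[X][X]), wx k ^ N * (a * b) = pf p := by
    intro a
    induction a using winduction with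
    | h0 c =>
      rintro b ⟨N, p, h⟩
      refine ⟨N, C (C c) * p, ?_⟩
      rw [← C_mul_pf, ← h, at'_apply, aeval_C, ← mul_assoc, ← Algebra.commutes c (wx k ^ N),
        mul_assoc]
    | hx =>
      rintro b ⟨N, p, h⟩
      obtain ⟨q, hq⟩ := wx_mul_pf p
      refine ⟨N, q, ?_⟩
      rw [← mul_assoc, ← pow_succ, pow_succ', mul_assoc, h, hq]
    | hy =>
      rintro b ⟨N, p, h⟩
      refine ⟨N + 1, C (X + C ((N : k) + 1)) * p, ?_⟩
      rw [← C_mul_pf, ← h, ← mul_assoc, pow_succ, mul_assoc (wx k ^ N), wx_pow_mul_wy, mul_assoc]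
    | hadd a a' ha ha' =>
      intro b hb
      obtain ⟨N, p, h⟩ := ha b hb
      obtain ⟨M, q, h'⟩ := ha' b hb
      obtain ⟨p', hp'⟩ := wx_pow_mul_pf M p
      obtain ⟨q', hq'⟩ := wx_pow_mul_pf N q
      refine ⟨M + N, p' + q', ?_⟩
      rw [add_mul, mul_add, pf_add, ← hp', ← hq', ← h, ← h', ← mul_assoc, ← mul_assoc,
        ← mul_assoc, ← mul_assoc, ← mul_assoc, ← mul_assoc, ← pow_add, ← pow_add, add_comm N M]
    | hmul a a' ha ha' =>
      intro b hb
      obtain ⟨N, p, h⟩ := ha _ (ha' b hb)
      exact ⟨N, p, by rw [mul_assoc, h]⟩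
  obtain ⟨N, p, h⟩ := key a 1 ⟨0, 1, by rw [pf, eval₂_one]; simp⟩
  exact ⟨N, p, by rw [← h, mul_one]⟩

lemma pf_injective (p : k[X][X]) (h : pf p = 0) : p = 0 := by
  obtain ⟨F, hFx, hFy⟩ := exists_rep k
  have hFat : ∀ (r : k[X]) (n : ℕ), F (at' r) (X ^ n) = C (r.eval (n : k)) * X ^ n := by
    intro r n
    have hpow : ∀ i : ℕ, F ((wy k * wx k) ^ i) (X ^ n) = C ((n : k) ^ i) * X ^ n := by
      intro i
      induction i with
      | zero => simp
      | succ i ih =>
        rw [pow_succ', map_mul F, Module.End.mul_apply, ih, map_mul F, hFy, hFx,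
          Module.End.mul_apply, LinearMap.mulLeft_apply, derivative_C_mul_X_pow]
        cases n with
        | zero => simp
        | succ n =>
          rw [Nat.add_sub_cancel, pow_succ (n := i)]
          simp only [map_mul]
          ring
    induction r using Polynomial.induction_on' with
    | add r s hr hs =>
      rw [map_add, map_add, LinearMap.add_apply, hr, hs, eval_add, C_add, add_mul]
    | monomial i a =>
      rw [at'_apply, aeval_monomial, map_mul, AlgHom.commutes,
        Module.End.mul_apply, Module.algebraMap_end_apply, hpow, eval_monomial, smul_eq_C_mul,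
        C_mul, mul_assoc]
  have hFp : ∀ (p : k[X][X]) (n : ℕ), F (pf p) (X ^ n) =
      ∑ j ∈ Finset.range (p.natDegree + 1),
        C ((n.descFactorial j : k) * (p.coeff j).eval ((n - j : ℕ) : k)) * X ^ (n - j) := by
    intro p n
    rw [pf, eval₂_eq_sum_range, map_sum, LinearMap.sum_apply]
    refine Finset.sum_congr rfl fun j _ => ?_
    rw [map_mul F, Module.End.mul_apply, map_pow F, hFx, Module.End.pow_apply,
      iterate_derivative_X_pow_eq_C_mul, ← smul_eq_C_mul, map_smul, hFat, smul_eq_C_mul,
      ← mul_assoc, ← C_mul]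
  ext1 j
  rw [coeff_zero]
  by_cases hj : p.natDegree < j
  · exact coeff_eq_zero_of_natDegree_lt hj
  refine eq_zero_of_infinite_isRoot _ (Set.infinite_of_injective_forall_mem
    (f := fun m : ℕ => (m : k)) Nat.cast_injective fun m => ?_)
  have h1 := hFp p (m + j)
  rw [h, map_zero, LinearMap.zero_apply] at h1
  have h2 := congrArg (fun q => coeff q m) h1
  simp only [coeff_zero, finsetSum_coeff, coeff_C_mul, coeff_X_pow] at h2
  rw [Finset.sum_eq_single j] at h2
  · rw [Nat.add_sub_cancel, if_pos rfl, mul_one] at h2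
    rcases mul_eq_zero.mp h2.symm with h3 | h3
    · exfalso
      have h4 : (m + j).descFactorial j ≠ 0 := by
        rw [Ne, Nat.descFactorial_eq_zero_iff_lt]; omega
      exact h4 (by exact_mod_cast h3)
    · exact h3
  · intro i _ hij
    by_cases hi : i ≤ m + j
    · rw [if_neg (by omega), mul_zero]
    · have : (m + j).descFactorial i = 0 := by rw [Nat.descFactorial_eq_zero_iff_lt]; omega
      rw [this]; simp
  · intro h3
    rw [Finset.mem_range] at h3
    omega

end WeylAlg

end Pool.Agent.WeylSub
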