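import Mathlib
import Pool.Agent.WeylSub.WeylAlg
import Pool.Agent.WeylSub.Center
import Pool.Agent.WeylSub.Loc

/-!
# Quotient division rings of the Weyl algebra and division rings of fractions of skew polynomials
-/

set_option linter.unusedSectionVars false

namespace Pool.Agent.WeylSub

open Polynomial SA

section exist

variable (Λ : Type) [CommRing Λ] [IsDomain Λ] (π : Λ)

/-- The skew polynomial ring is a domain. -/
lemma noZeroDivisors' : NoZeroDivisors (SA Λ π) where
  eq_zero_or_eq_zero_of_mul_eq_zero := by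
    intro a b hab
    by_contra hcon
    push Not at hcon
    obtain ⟨ha, hb⟩ := hcon
    obtain ⟨p, rfl⟩ := toA_surjective Λ π a
    obtain ⟨q, rfl⟩ := toA_surjective Λ π b
    have hp : p ≠ 0 := by rintro rfl; exact ha (map_zero _)
    have hq : q ≠ 0 := by rintro rfl; exact hb (map_zero _)
    have h1 : toA Λ π p = ∑ i ∈ Finset.range (p.natDegree + 1), mono Λ π i (p.coeff i) := by
      conv_lhs => rw [p.as_sum_range]
      rw [map_sum]
      exact Finset.sum_congr rfl fun i _ => toA_monomial _ _ i _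
    have h2 := congrArg (cf Λ π (p.natDegree + q.natDegree)) hab
    rw [h1, Finset.sum_mul, map_sum, map_zero, Finset.sum_eq_single p.natDegree] at h2
    · have h3 : mono Λ π p.natDegree (p.coeff p.natDegree) =
          mono Λ π 0 (p.coeff p.natDegree) * mono Λ π p.natDegree 1 := by
        rw [mono_mul_mono]; simp
      have h4 : cf Λ π (p.natDegree + q.natDegree)
          (mono Λ π p.natDegree (p.coeff p.natDegree) * toA Λ π q) =
          p.coeff p.natDegree * taylor (p.natDegree • π) (q.coeff q.natDegree) := by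
        rw [cf_mono_mul, if_pos (by omega), Nat.add_sub_cancel_left]
      rw [h4] at h2
      rcases mul_eq_zero.mp h2 with h5 | h5
      · exact hp (leadingCoeff_eq_zero.mp h5)
      · have h6 : q.coeff q.natDegree = 0 := taylor_injective _ (by rw [h5, map_zero])
        exact hq (leadingCoeff_eq_zero.mp h6)
    · intro i hi hne
      rw [Finset.mem_range] at hi
      rw [cf_mono_mul, if_pos (by omega), coeff_eq_zero_of_natDegree_lt (p := q)
        (n := p.natDegree + q.natDegree - i) (by omega), map_zero, mul_zero]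
    · intro h
      exact absurd (Finset.mem_range.mpr (Nat.lt_succ_self _)) h

/-- Existence of the division ring of fractions of the skew polynomial ring. -/
theorem exists_core : ∃ (E : Type) (_ : DivisionRing E), Nonempty (Core Λ π E) := by
  have hnz := noZeroDivisors' Λ π
  have : Nontrivial (SA Λ π) := ⟨⟨1, 0, by
    intro h
    have h1 := congrArg (cf Λ π 0) h
    have h2 : (1 : SA Λ π) = mono Λ π 0 1 := rfl
    rw [h2, cf_mono, if_pos rfl, map_zero] at h1
    exact one_ne_zero h1⟩⟩
  have hore : Nonempty (OreLocalization.OreSet (nonZeroDivisors (SA Λ π))) := by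
    rw [OreLocalization.nonempty_oreSet_iff_of_noZeroDivisors]
    intro r s
    obtain ⟨c, d, hcd, h⟩ := exists_ore Λ π r s
    have hs0 : (s : SA Λ π) ≠ 0 := nonZeroDivisors.coe_ne_zero s
    have hc : c ≠ 0 := by
      rintro rfl
      rw [zero_mul] at h
      rcases hcd with h1 | h1
      · exact h1 rfl
      · exact mul_ne_zero h1 hs0 h.symm
    exact ⟨d, ⟨c, mem_nonZeroDivisors_of_ne_zero hc⟩, h⟩
  obtain ⟨hore⟩ := hore
  let _ := hore
  set E := OreLocalization (nonZeroDivisors (SA Λ π)) (SA Λ π) with hE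
  set num : SA Λ π →+* E := OreLocalization.numeratorRingHom with hnum
  have hinj : Function.Injective num := OreLocalization.numeratorHom_inj (fun x hx => hx.1)
  have hfrac : ∀ e : E, ∃ s a : SA Λ π, s ≠ 0 ∧ num s * e = num a := by
    intro e
    induction e using OreLocalization.ind with
    | _ r s =>
      exact ⟨s, r, nonZeroDivisors.coe_ne_zero s, OreLocalization.mul_cancel⟩
  set ι : Λ[X] →+* E := num.comp
    ((SkewMonoidAlgebra.singleOneRingHom (k := Coef Λ π) (G := Multiplicative ℕ)).comp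
    (toCoef Λ π).toRingHom) with hι
  have hιapp : ∀ r, ι r = num (mono Λ π 0 r) := fun r => rfl
  set x : E := num (mono Λ π 1 1) with hx
  have hpow : ∀ n : ℕ, (mono Λ π 1 1) ^ n = mono Λ π n 1 := by
    intro n
    induction n with
    | zero => rfl
    | succ n ih => rw [pow_succ, ih, mono_mul_mono]; simp
  have hnumev : ∀ p : Λ[X][X], num (toA Λ π p) = p.eval₂ ι x := by
    intro p
    induction p using Polynomial.induction_on' with
    | add p q hp hq => rw [map_add, map_add, eval₂_add, hp, hq]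
    | monomial m r =>
      rw [toA_monomial, eval₂_monomial, hιapp, hx, ← map_pow, hpow, ← map_mul, mono_mul_mono]
      simp
  refine ⟨E, inferInstance, ⟨
    { ι := ι
      x := x
      x_ne := ?_
      x_mul := ?_
      indep := ?_
      frac := ?_ }⟩⟩
  · intro h0
    have h1 : mono Λ π 1 1 = 0 := hinj (by rw [map_zero]; exact h0)
    have h2 := congrArg (cf Λ π 1) h1
    rw [cf_mono, if_pos rfl, map_zero] at h2
    exact one_ne_zero h2
  · intro r
    rw [hιapp, hιapp, hx, ← map_mul, ← map_mul, mono_mul_mono, mono_mul_mono]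
    simp
  · intro p hp
    rw [← hnumev] at hp
    exact toA_injective Λ π (by rw [map_zero]; exact hinj (by rw [hp, map_zero]))
  · intro e
    obtain ⟨s, a, hs, h⟩ := hfrac e
    obtain ⟨q, rfl⟩ := toA_surjective Λ π s
    obtain ⟨p, rfl⟩ := toA_surjective Λ π a
    refine ⟨p, q, ?_, by rw [← hnumev, ← hnumev, h]⟩
    rintro rfl
    exact hs (map_zero _)

end exist

namespace Core

variable {Λ : Type} [CommRing Λ] {π : Λ} {E : Type} [DivisionRing E]

lemma ι_C_comm (S : Core Λ π E) (l : Λ) (e : E) : S.ι (C l) * e = e * S.ι (C l) := by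
  obtain ⟨p, q, hq, h⟩ := S.frac e
  have h1 : ∀ p : Λ[X][X], S.ι (C l) * p.eval₂ S.ι S.x = p.eval₂ S.ι S.x * S.ι (C l) := by
    intro p
    have hx : S.ι (C l) * S.x = S.x * S.ι (C l) := by rw [S.x_mul, taylor_C]
    have hxn : ∀ n : ℕ, S.ι (C l) * S.x ^ n = S.x ^ n * S.ι (C l) := fun n =>
      (Commute.pow_right (show Commute (S.ι (C l)) S.x from hx) n)
    induction p using Polynomial.induction_on' with
    | add p q hp hq => rw [eval₂_add, mul_add, add_mul, hp, hq]
    | monomial n a =>
      rw [eval₂_monomial, ← mul_assoc, ← map_mul, mul_comm (C l), map_mul, mul_assoc, hxn,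
        mul_assoc]
  have hq' : q.eval₂ S.ι S.x ≠ 0 := fun h0 => hq (S.indep q h0)
  apply mul_left_cancel₀ hq'
  rw [← mul_assoc, ← h1, mul_assoc, h, h1, ← h, mul_assoc]

end Core

section weyl

variable {k : Type} [Field k] [CharZero k]

open WeylAlg

/-- A quotient division ring of the Weyl algebra, as a division ring of fractions of skew
polynomials. -/
noncomputable def coreOfQuot {Q : Type} [DivisionRing Q] [Algebra k Q] (f : WeylAlg k →ₐ[k] Q)
    (hf : IsQuotDiv (f : WeylAlg k →+* Q)) : Core k (1 : k) Q where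
  ι := (f : WeylAlg k →+* Q).comp at'
  x := f (wx k)
  x_ne := by
    intro h
    exact wx_ne_zero (hf.inj (by rw [map_zero]; exact h))
  x_mul r := by
    change f (wx k) * f (at' r) = f (at' (taylor 1 r)) * f (wx k)
    rw [← map_mul, wx_mul_at', map_mul]
  indep p hp := by
    apply pf_injective
    apply hf.inj
    rw [map_zero, ← hp, pf, hom_eval₂]
    rfl
  frac e := by
    obtain ⟨a, s, hs, he⟩ := hf.frac e
    obtain ⟨N, p, hp⟩ := exists_pf a
    obtain ⟨M, q, hq⟩ := exists_pf s
    obtain ⟨p', hp'⟩ := wx_pow_mul_pf M p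
    obtain ⟨q', hq'⟩ := wx_pow_mul_pf N q
    have hpf : ∀ p : k[X][X], p.eval₂ ((f : WeylAlg k →+* Q).comp at') (f (wx k)) = f (pf p) := by
      intro p
      rw [pf]
      exact (hom_eval₂ p at' (f : WeylAlg k →+* Q) (wx k)).symm
    have hfs : f s ≠ 0 := by
      intro h0
      exact hs (hf.inj (by rw [map_zero]; exact h0))
    have hse : f s * e = f a := by
      rw [he]
      change f s * ((f s)⁻¹ * f a) = _
      rw [← mul_assoc, mul_inv_cancel₀ hfs, one_mul]
    refine ⟨p', q', ?_, ?_⟩
    · rintro rfl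
      have h1 : wx k ^ (N + M) * s = 0 := by
        rw [pow_add, mul_assoc, hq, hq', pf, eval₂_zero]
      exact hs (wx_pow_mul_eq_zero _ _ h1)
    · rw [hpf, hpf, ← hq', ← hp', ← hp, ← hq, ← mul_assoc, ← mul_assoc, ← pow_add, ← pow_add,
        add_comm N M, map_mul, map_mul, mul_assoc, hse]

lemma coreOfQuot_C {Q : Type} [DivisionRing Q] [Algebra k Q] (f : WeylAlg k →ₐ[k] Q)
    (hf : IsQuotDiv (f : WeylAlg k →+* Q)) (c : k) :
    (coreOfQuot f hf).ι (C c) = algebraMap k Q c := by
  change f (at' (C c)) = _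
  rw [at'_apply, aeval_C, AlgHom.commutes]

/-- Every division ring of fractions of the skew polynomials over a field is a quotient division
ring of the Weyl algebra. -/
theorem exists_quot_of_core {E : Type} [DivisionRing E] (S : Core k (1 : k) E) :
    ∃ (_ : Algebra k E) (f : WeylAlg k →ₐ[k] E), IsQuotDiv (f : WeylAlg k →+* E) := by
  let : Algebra k E := (S.ι.comp C).toAlgebra' (fun c e => S.ι_C_comm c e)
  have halg : ∀ c : k, algebraMap k E c = S.ι (C c) := fun _ => rfl
  have hrel : S.x * (S.ι X * S.x⁻¹) = S.ι X * S.x⁻¹ * S.x + 1 := by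
    rw [← mul_assoc, S.x_mul, taylor_X, map_add, map_one, map_one, mul_assoc, mul_inv_cancel₀ S.x_ne,
      mul_one, mul_assoc, inv_mul_cancel₀ S.x_ne, mul_one]
  obtain ⟨f, hfx, hfy⟩ := exists_wlift (k := k) S.x (S.ι X * S.x⁻¹) hrel
  have hyx : f (wy k * wx k) = S.ι X := by
    rw [map_mul, hfx, hfy, mul_assoc, inv_mul_cancel₀ S.x_ne, mul_one]
  have hat : ∀ r : k[X], f (at' r) = S.ι r := by
    intro r
    rw [at'_apply]
    induction r using Polynomial.induction_on' with
    | add p q hp hq => rw [map_add, map_add, map_add, hp, hq]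
    | monomial n a =>
      rw [aeval_monomial, map_mul, map_pow, hyx, AlgHom.commutes, halg,
        ← C_mul_X_pow_eq_monomial, map_mul, map_pow]
  have hpf : ∀ p : k[X][X], f (pf p) = p.eval₂ S.ι S.x := by
    intro p
    have h1 := hom_eval₂ p at' (f : WeylAlg k →+* E) (wx k)
    have h2 : (f : WeylAlg k →+* E).comp at' = S.ι := RingHom.ext hat
    rw [h2] at h1
    have h3 : (f : WeylAlg k →+* E) (wx k) = S.x := hfx
    rw [h3] at h1
    exact h1
  have hinj : Function.Injective f := by
    rw [injective_iff_map_eq_zero]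
    intro a ha
    obtain ⟨N, p, hp⟩ := exists_pf a
    have h1 : p.eval₂ S.ι S.x = 0 := by rw [← hpf, ← hp, map_mul, ha, mul_zero]
    rw [S.indep p h1, pf, eval₂_zero] at hp
    exact wx_pow_mul_eq_zero _ _ hp
  refine ⟨inferInstance, f, hinj, fun e => ?_⟩
  obtain ⟨p, q, hq, h⟩ := S.frac e
  have hq0 : pf q ≠ 0 := fun h0 => hq (pf_injective q h0)
  refine ⟨pf p, pf q, hq0, ?_⟩
  change e = (f (pf q))⁻¹ * f (pf p)
  have h1 : f (pf q) ≠ 0 := by
    intro h0
    exact hq0 (hinj (by rw [h0, map_zero]))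
  rw [hpf p, ← h, ← hpf q, ← mul_assoc, inv_mul_cancel₀ h1, one_mul]

/-- Existence of the quotient division ring of the first Weyl algebra. -/
theorem exists_quot (k : Type) [Field k] [CharZero k] :
    ∃ (Q : Type) (_ : DivisionRing Q) (_ : Algebra k Q) (f : WeylAlg k →ₐ[k] Q),
      IsQuotDiv (f : WeylAlg k →+* Q) := by
  obtain ⟨E, hE, ⟨S⟩⟩ := exists_core k (1 : k)
  obtain ⟨h1, f, hf⟩ := exists_quot_of_core S
  exact ⟨E, hE, h1, f, hf⟩

end weyl

section scale

variable {k : Type} [Field k] {Λ : Type} [CommRing Λ] [IsDomain Λ] [Algebra Λ k]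
  [IsFractionRing Λ k] (π : Λ)

/-- `r(θ) ↦ r(πθ)` -/
noncomputable def scl : Λ[X] →+* k[X] :=
  (compRingHom (C (algebraMap Λ k π) * X)).comp (mapRingHom (algebraMap Λ k))

lemma scl_apply (r : Λ[X]) :
    scl (k := k) π r = (r.map (algebraMap Λ k)).comp (C (algebraMap Λ k π) * X) := rfl

variable {π} (hπ0 : π ≠ 0)

include hπ0

lemma scl_injective : Function.Injective (scl (k := k) π) := by
  have hπ' : algebraMap Λ k π ≠ 0 := by rwa [Ne, IsFractionRing.to_map_eq_zero_iff]
  rw [injective_iff_map_eq_zero]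
  intro r hr
  rw [scl_apply] at hr
  have h1 := congrArg (fun p => p.comp (C (algebraMap Λ k π)⁻¹ * X)) hr
  simp only [comp_assoc, zero_comp, mul_comp, C_comp, X_comp] at h1
  rw [← mul_assoc, ← C_mul, mul_inv_cancel₀ hπ', C_1, one_mul, comp_X,
    Polynomial.map_eq_zero_iff (IsFractionRing.injective Λ k)] at h1
  exact h1

lemma scl_clear (r : k[X]) : ∃ b : Λ, b ≠ 0 ∧ ∃ r' : Λ[X],
    scl (k := k) π r' = C (algebraMap Λ k b) * r := by
  have hπ' : algebraMap Λ k π ≠ 0 := by rwa [Ne, IsFractionRing.to_map_eq_zero_iff]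
  obtain ⟨b, hb, h⟩ := IsLocalization.integerNormalization_spec (nonZeroDivisors Λ)
    (r.comp (C (algebraMap Λ k π)⁻¹ * X))
  refine ⟨b, nonZeroDivisors.ne_zero hb, IsLocalization.integerNormalization (nonZeroDivisors Λ)
    (r.comp (C (algebraMap Λ k π)⁻¹ * X)), ?_⟩
  rw [scl_apply, h, smul_comp, comp_assoc]
  simp only [mul_comp, C_comp, X_comp]
  rw [← mul_assoc, ← C_mul, inv_mul_cancel₀ hπ', C_1, one_mul, comp_X]
  ext n
  rw [coeff_smul, coeff_C_mul, Algebra.smul_def]

lemma scl_clear' (p : k[X][X]) : ∃ b : Λ, b ≠ 0 ∧ ∃ p' : Λ[X][X],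
    p'.map (scl (k := k) π) = C (C (algebraMap Λ k b)) * p := by
  induction p using Polynomial.induction_on' with
  | add p q hp hq =>
    obtain ⟨b, hb, p', hp'⟩ := hp
    obtain ⟨c, hc, q', hq'⟩ := hq
    refine ⟨b * c, mul_ne_zero hb hc, C (C c) * p' + C (C b) * q', ?_⟩
    have hs : ∀ b : Λ, scl (k := k) π (C b) = C (algebraMap Λ k b) := by
      intro b; rw [scl_apply, Polynomial.map_C, C_comp]
    rw [Polynomial.map_add, Polynomial.map_mul, Polynomial.map_mul, hp', hq', Polynomial.map_C,
      Polynomial.map_C, hs, hs, map_mul, C_mul, C_mul]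
    ring
  | monomial n r =>
    obtain ⟨b, hb, r', hr'⟩ := scl_clear hπ0 r
    exact ⟨b, hb, monomial n r', by rw [Polynomial.map_monomial, hr', C_mul_monomial]⟩

omit hπ0 in
lemma scl_taylor (r : Λ[X]) : scl (k := k) π (taylor π r) = taylor 1 (scl π r) := by
  rw [scl_apply, scl_apply, taylor_apply, taylor_apply, Polynomial.map_comp, comp_assoc,
    comp_assoc]
  congr 1
  simp
  ring

/-- Change of the coefficient ring. -/
noncomputable def Core.scale {Q : Type} [DivisionRing Q] (S : Core k (1 : k) Q) :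
    Core Λ π Q where
  ι := S.ι.comp (scl π)
  x := S.x
  x_ne := S.x_ne
  x_mul r := by
    rw [RingHom.comp_apply, RingHom.comp_apply, S.x_mul, scl_taylor]
  indep p hp := by
    rw [← eval₂_map] at hp
    have h1 := S.indep _ hp
    rwa [Polynomial.map_eq_zero_iff (scl_injective hπ0)] at h1
  frac e := by
    obtain ⟨p, q, hq, h⟩ := S.frac e
    obtain ⟨b, hb, p', hp'⟩ := scl_clear' (k := k) hπ0 p
    obtain ⟨c, hc, q', hq'⟩ := scl_clear' (k := k) hπ0 q
    have hs : ∀ b : Λ, scl (k := k) π (C b) = C (algebraMap Λ k b) := by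
      intro b; rw [scl_apply, Polynomial.map_C, C_comp]
    have hCm : ∀ (a : k[X]) (p : k[X][X]), (C a * p).eval₂ S.ι S.x =
        S.ι a * p.eval₂ S.ι S.x := by
      intro a p
      induction p using Polynomial.induction_on' with
      | add p q hp hq => rw [mul_add, eval₂_add, eval₂_add, hp, hq, mul_add]
      | monomial n b => rw [C_mul_monomial, eval₂_monomial, eval₂_monomial, map_mul, mul_assoc]
    refine ⟨C (C c) * p', C (C b) * q', ?_, ?_⟩
    · intro h0
      have h1 : (C (C b) * q').map (scl (k := k) π) = 0 := by rw [h0, Polynomial.map_zero]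
      rw [Polynomial.map_mul, hq', Polynomial.map_C, hs] at h1
      have hb' : algebraMap Λ k b ≠ 0 := by rwa [Ne, IsFractionRing.to_map_eq_zero_iff]
      have hc' : algebraMap Λ k c ≠ 0 := by rwa [Ne, IsFractionRing.to_map_eq_zero_iff]
      refine mul_ne_zero ?_ (mul_ne_zero ?_ hq) h1
      · rwa [Ne, C_eq_zero, C_eq_zero]
      · rwa [Ne, C_eq_zero, C_eq_zero]
    · rw [← eval₂_map, ← eval₂_map, Polynomial.map_mul, Polynomial.map_mul, hp', hq',
        Polynomial.map_C, Polynomial.map_C, hs, hs, hCm, hCm, hCm, hCm, mul_assoc, mul_assoc, h,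
        ← mul_assoc, ← mul_assoc, ← map_mul S.ι, ← map_mul S.ι,
        mul_comm (C (algebraMap Λ k b))]

omit hπ0 in
lemma Core.scale_C (hπ0 : π ≠ 0) {Q : Type} [DivisionRing Q] (S : Core k (1 : k) Q) (b : Λ) :
    (Core.scale hπ0 S).ι (C b) = S.ι (C (algebraMap Λ k b)) := by
  change S.ι (scl π (C b)) = _
  rw [scl_apply, Polynomial.map_C, C_comp]

end scale

end Pool.Agent.WeylSub
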