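import Mathlib
import Pool.Agent.WeylSub.Quot
import Pool.Agent.WeylSub.NonPI
import Pool.Agent.WeylSub.NonRat

/-!
# Sub-division rings of the quotient division ring of the Weyl algebra
-/

set_option linter.unusedSectionVars false

namespace Pool.Agent.WeylSub

open Polynomial SA Pool.Agent.WeylSub.Core

section general

variable {k : Type} [Field k] [CharZero k]
variable {Λ : Type} [CommRing Λ] [IsDomain Λ] [IsNoetherianRing Λ] [Algebra Λ k]
  [IsFractionRing Λ k] {π : Λ} {κ₀ : Type} [Field κ₀] {ev : Λ →+* κ₀}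

/-- **Counterexamples containing the centre.** -/
theorem exists_sub (hsurj : Function.Surjective ev) (hev : ∀ l, ev l = 0 ↔ π ∣ l) (hπ0 : π ≠ 0)
    (h2 : (2 : κ₀) ≠ 0) {c : Fin 4 → κ₀} (hc : ∀ i, ¬ IsSquare (c i))
    (hinj : Function.Injective c) (h01 : IsSquare (c 0 * c 1))
    (Q : Type) [DivisionRing Q] [Algebra k Q] (f : WeylAlg k →ₐ[k] Q)
    (hf : IsQuotDiv (f : WeylAlg k →+* Q)) :
    ∃ D : Subfield Q, (∃ φ : Q ≃ₐ[k] Q, (∀ q, φ (φ q) = q) ∧ ∀ q, q ∈ D ↔ φ q = q) ∧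
      ¬ IsPI D ∧ IsEmpty (D ≃+* Q) := by
  classical
  have hchar : CharZero Λ := by
    refine ⟨fun m n hmn => ?_⟩
    have h1 := congrArg (algebraMap Λ k) hmn
    rw [map_natCast, map_natCast] at h1
    exact_mod_cast h1
  choose c' hc' using fun i => hsurj (c i)
  set g : Λ[X] := ((X ^ 2 - C (c' 0)) * (X ^ 2 - C (c' 1))) *
    ((X ^ 2 - C (c' 2)) * (X ^ 2 - C (c' 3))) with hg
  have hgmap : g.map ev = gAll c := by
    simp [hg, gAll, gOne, gTwo, hc']
  have hgeven : g.comp (-X) = g := by simp [hg]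
  have hgne : g.map ev ≠ 0 := by rw [hgmap]; exact gAll_ne_zero c
  have hgeven' : (g.map ev).comp (-X) = g.map ev := by rw [hgmap]; exact gAll_even c
  obtain ⟨E, hE, ⟨S⟩⟩ := exists_sys (K := FractionRing κ₀[X][X]) hgne hev hπ0 hsurj hgeven
  set T : Core Λ π Q := Core.scale hπ0 (coreOfQuot f hf) with hT
  have hTC : ∀ b : Λ, T.ι (C b) = algebraMap k Q (algebraMap Λ k b) := by
    intro b
    rw [hT, Core.scale_C, coreOfQuot_C]
  obtain ⟨F, hF1, hF2⟩ := S.toCore.exists_equiv T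
  -- the involution on `Q`
  set φ₀ : Q →+* Q := (F : E →+* Q).comp (S.φ.comp (F.symm : Q →+* E)) with hφ₀
  have hφ₀app : ∀ q, φ₀ q = F (S.φ (F.symm q)) := fun _ => rfl
  have hφ₀φ₀ : ∀ q, φ₀ (φ₀ q) = q := by
    intro q
    rw [hφ₀app, hφ₀app, RingEquiv.symm_apply_apply, S.φ_φ, RingEquiv.apply_symm_apply]
  have hFC : ∀ b : Λ, F.symm (T.ι (C b)) = S.ι (C b) := by
    intro b
    rw [← hF1, RingEquiv.symm_apply_apply]
  have hφ₀C : ∀ b : Λ, φ₀ (T.ι (C b)) = T.ι (C b) := by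
    intro b
    rw [hφ₀app, hFC, S.φ_ι, C_comp, hF1]
  have hφ₀alg : ∀ a : k, φ₀ (algebraMap k Q a) = algebraMap k Q a := by
    intro a
    obtain ⟨r, s, hs, rfl⟩ := IsFractionRing.div_surjective (A := Λ) a
    rw [map_div₀, map_div₀, ← hTC, ← hTC, hφ₀C, hφ₀C]
  let φ : Q ≃ₐ[k] Q :=
    { toFun := φ₀
      invFun := φ₀
      left_inv := hφ₀φ₀
      right_inv := hφ₀φ₀
      map_mul' := map_mul φ₀
      map_add' := map_add φ₀
      commutes' := hφ₀alg }
  let D : Subfield Q := φ₀.eqLocusField (RingHom.id Q)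
  have hmemD : ∀ q, q ∈ D ↔ φ₀ q = q := fun q => Iff.rfl
  have hmemD' : ∀ q, q ∈ D ↔ F.symm q ∈ S.D := by
    intro q
    rw [hmemD, hφ₀app, S.mem_D]
    constructor
    · intro h
      have := congrArg F.symm h
      rwa [RingEquiv.symm_apply_apply] at this
    · intro h
      rw [h, RingEquiv.apply_symm_apply]
  refine ⟨D, ⟨φ, hφ₀φ₀, hmemD⟩, ?_, ⟨fun ψ => ?_⟩⟩
  · -- not PI
    have hq₀ : T.ι (q₀ Λ π) ∈ D := by
      rw [hmemD', ← hF1, RingEquiv.symm_apply_apply]
      exact S.ι_q₀_mem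
    have hxg : T.x + T.ι g * T.x⁻¹ ∈ D := by
      rw [hmemD', ← hF1, ← hF2, ← map_inv₀, ← map_mul, ← map_add, RingEquiv.symm_apply_apply]
      exact S.xg_mem
    refine T.not_isPI hπ0 g D D.subtype ?_ ?_
    · intro n
      refine ⟨⟨T.γ (algebraMap _ _ (q₀ Λ π)) ^ n * (T.x + T.ι g * T.x⁻¹), ?_⟩, rfl⟩
      rw [T.γ_algebraMap]
      exact D.mul_mem (D.pow_mem hq₀ n) hxg
    · intro z hz
      rw [Subring.mem_center_iff] at hz
      have h1 := congrArg Subtype.val (hz ⟨_, hq₀⟩)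
      have h3 := congrArg Subtype.val (hz ⟨_, hxg⟩)
      obtain ⟨a, b, hb, h⟩ := T.const_of_comm hπ0 g (z : Q) h1.symm h3.symm
      refine ⟨algebraMap Λ[X] _ (C a) / algebraMap Λ[X] _ (C b), ?_⟩
      have hbne : T.ι (C b) ≠ 0 := T.ι_ne (by rwa [Ne, C_eq_zero])
      change _ = (z : Q)
      apply mul_left_cancel₀ hbne
      rw [h, ← T.γ_algebraMap, ← T.γ_algebraMap, ← map_mul, mul_div_cancel₀]
      rw [Ne, IsFractionRing.to_map_eq_zero_iff, C_eq_zero]
      exact hb
  · -- not isomorphic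
    let θ : S.D ≃+* D :=
      { toFun := fun d => ⟨F d, by rw [hmemD', RingEquiv.symm_apply_apply]; exact d.2⟩
        invFun := fun d => ⟨F.symm d, (hmemD' _).mp d.2⟩
        left_inv := fun d => Subtype.ext (F.symm_apply_apply _)
        right_inv := fun d => Subtype.ext (F.apply_symm_apply _)
        map_mul' := fun a b => Subtype.ext (map_mul F _ _)
        map_add' := fun a b => Subtype.ext (map_add F _ _) }
    obtain ⟨j, hj1, hj2, hj3⟩ := S.rational_of_iso hev hπ0 hsurj h2 hgeven'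
      ((θ.trans ψ).trans F.symm)
    have key : ∀ (h : κ₀[X]) (hh : h ≠ 0), h = gAll c →
        ∀ j : κ₀[X][X] →+* Kfix (FractionRing κ₀[X][X]) hh, Function.Injective j →
        (∀ a, j (C (C a)) = kconst (FractionRing κ₀[X][X]) hh a) →
        (∀ a, ∃ p q, q ≠ 0 ∧ a * j q = j p) → False := by
      rintro h hh rfl j hj1 hj2 hj3
      exact not_rational hc hinj h01 h2 (FractionRing κ₀[X][X]) hh j hj1 hj2 hj3
    exact key _ hgne hgmap j hj1 hj2 hj3

end general

section literal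

lemma fact_eleven : Fact (Nat.Prime 11) := ⟨by norm_num⟩

attribute [local instance] fact_eleven

/-- **The counterexample inside `Q(A₁(ℚ))`.** -/
theorem exists_sub_of_rat {k : Type} [Field k] [CharZero k]
    (hQ : Function.Surjective (algebraMap ℚ k))
    (Q : Type) [DivisionRing Q] [Algebra k Q] (f : WeylAlg k →ₐ[k] Q)
    (hf : IsQuotDiv (f : WeylAlg k →+* Q)) :
    ∃ D : Subfield Q, ¬ IsPI D ∧ IsEmpty (D ≃+* Q) := by
  have hfr : IsFractionRing ℤ k := by
    refine isFractionRing_of (RingHom.injective_int _) fun a => ?_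
    obtain ⟨q, rfl⟩ := hQ a
    refine ⟨q.num, q.den, by exact_mod_cast q.den_ne_zero, ?_⟩
    simp only [eq_intCast, eq_ratCast]
    have h1 := Rat.mul_den_eq_num q
    exact_mod_cast h1
  obtain ⟨D, -, h1, h2⟩ := exists_sub (k := k) (Λ := ℤ) (π := 11) (κ₀ := ZMod 11)
    (ev := Int.castRingHom (ZMod 11)) (ZMod.intCast_surjective) (fun l => by
      rw [eq_intCast]
      exact_mod_cast ZMod.intCast_zmod_eq_zero_iff_dvd l 11) (by norm_num) (by decide)
    (c := ![2, 6, 7, 8]) (by decide) (by decide) (by decide) Q f hf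
  exact ⟨D, h1, h2⟩

/-- The prime counterexample for fields other than `ℚ`. -/
theorem exists_sub_of_ne {k : Type} [Field k] [CharZero k]
    (hQ : ¬ Function.Surjective (algebraMap ℚ k))
    (Q : Type) [DivisionRing Q] [Algebra k Q] (f : WeylAlg k →ₐ[k] Q)
    (hf : IsQuotDiv (f : WeylAlg k →+* Q)) :
    ∃ D : Subfield Q, ¬ IsPI D ∧ IsEmpty (D ≃+* Q) := by
  obtain ⟨E, hE, ⟨S⟩⟩ := exists_core ℚ (1 : ℚ)
  set T := coreOfQuot f hf with hT
  set m : ℚ[X] →+* k[X] := mapRingHom (algebraMap ℚ k) with hm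
  have hminj : Function.Injective m := Polynomial.map_injective _ (algebraMap ℚ k).injective
  obtain ⟨F, hF1, hF2⟩ := S.exists_lift (T.ι.comp m) T.x (by
    intro r
    rw [RingHom.comp_apply, RingHom.comp_apply, T.x_mul]
    congr 2
    rw [hm, coe_mapRingHom, taylor_apply, taylor_apply, Polynomial.map_comp]
    simp) (by
    intro p hp
    rw [← eval₂_map] at hp
    have h1 := T.indep _ hp
    rwa [Polynomial.map_eq_zero_iff hminj] at h1)
  let D : Subfield Q := F.fieldRange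
  let e : E ≃+* D := RingEquiv.ofBijective F.rangeRestrictField F.rangeRestrictField_bijective
  have hcenter : ∀ z : E, (∀ w, z * w = w * z) → ∃ a b : ℚ, b ≠ 0 ∧
      S.ι (C b) * z = S.ι (C a) := fun z hz =>
    S.const_of_comm one_ne_zero 0 z (hz _) (hz _)
  refine ⟨D, ?_, ⟨fun ψ => hQ ?_⟩⟩
  · refine S.not_isPI one_ne_zero 0 D (e.symm : D →+* E) (fun n => ?_) fun z hz => ?_
    · exact ⟨e (S.γ (algebraMap _ _ (q₀ ℚ 1)) ^ n * (S.x + S.ι 0 * S.x⁻¹)),
        e.symm_apply_apply _⟩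
    · rw [Subring.mem_center_iff] at hz
      obtain ⟨a, b, hb, h⟩ := hcenter (e.symm z) (fun w => by
        have h1 := congrArg e.symm (hz (e w))
        rw [map_mul, map_mul, RingEquiv.symm_apply_apply] at h1
        exact h1.symm)
      refine ⟨algebraMap ℚ[X] _ (C a) / algebraMap ℚ[X] _ (C b), ?_⟩
      have hbne : S.ι (C b) ≠ 0 := S.ι_ne (by rwa [Ne, C_eq_zero])
      change _ = e.symm z
      apply mul_left_cancel₀ hbne
      rw [h, ← S.γ_algebraMap, ← S.γ_algebraMap, ← map_mul, mul_div_cancel₀]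
      rw [Ne, IsFractionRing.to_map_eq_zero_iff, C_eq_zero]
      exact hb
  · intro c
    let Ψ : E ≃+* Q := e.trans ψ
    obtain ⟨a, b, hb, h⟩ := hcenter (Ψ.symm (algebraMap k Q c)) (fun w => by
      have h1 := Algebra.commutes c (Ψ w)
      have h2 := congrArg Ψ.symm h1
      rwa [map_mul, map_mul, RingEquiv.symm_apply_apply] at h2)
    have hrat : ∀ a : ℚ, S.ι (C a) = (a : E) := fun a => eq_ratCast (S.ι.comp C) a
    rw [hrat, hrat] at h
    have h1 := congrArg Ψ h
    rw [map_mul, RingEquiv.apply_symm_apply, map_ratCast, map_ratCast] at h1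
    have hb' : (b : Q) ≠ 0 := by
      rw [← eq_ratCast ((algebraMap k Q).comp (algebraMap ℚ k)) b]
      rwa [Ne, map_eq_zero]
    refine ⟨a / b, (algebraMap k Q).injective ?_⟩
    have h3 : (algebraMap k Q) ((algebraMap ℚ k) (a / b)) = ((a / b : ℚ) : Q) :=
      eq_ratCast ((algebraMap k Q).comp (algebraMap ℚ k)) (a / b)
    rw [h3]
    apply mul_left_cancel₀ hb'
    have h4 : ∀ x : ℚ, (x : Q) = ((algebraMap k Q).comp (algebraMap ℚ k)) x := fun x =>
      (eq_ratCast ((algebraMap k Q).comp (algebraMap ℚ k)) x).symm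
    rw [h1, h4, h4, h4, ← map_mul, mul_div_cancel₀ _ hb]

end literal

section dvr

/-- Four distinct nonsquares. -/
lemma exists_four {κ₀ : Type} [Field κ₀] (a : κ₀) (ha : ¬ IsSquare a)
    (hcard : 9 ≤ ENat.card κ₀) : ∃ c : Fin 4 → κ₀, (∀ i, ¬ IsSquare (c i)) ∧
      Function.Injective c ∧ IsSquare (c 0 * c 1) := by
  classical
  have ha0 : a ≠ 0 := by rintro rfl; exact ha (IsSquare.zero)
  -- a set of nine elements
  obtain ⟨s, hs⟩ : ∃ s : Finset κ₀, s.card = 9 := by
    by_cases hfin : Finite κ₀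
    · have := Fintype.ofFinite κ₀
      have h1 : 9 ≤ Fintype.card κ₀ := by
        rw [ENat.card_eq_coe_fintype_card] at hcard
        exact_mod_cast hcard
      obtain ⟨t, -, ht⟩ := Finset.exists_subset_card_eq (s := (Finset.univ : Finset κ₀)) h1
      exact ⟨t, ht⟩
    · have : Infinite κ₀ := not_finite_iff_infinite.mp hfin
      exact Infinite.exists_subset_card_eq κ₀ 9
  set s' := s.erase 0 with hs'
  have hs'c : 8 ≤ s'.card := by
    have := Finset.pred_card_le_card_erase (s := s) (a := (0 : κ₀))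
    rw [← hs'] at this
    omega
  have himg : 4 ≤ (s'.image fun d => d ^ 2).card := by
    have h1 : s'.card ≤ 2 * (s'.image fun d => d ^ 2).card := by
      refine Finset.card_le_mul_card_image _ 2 fun b hb => ?_
      obtain ⟨d, hd, rfl⟩ := Finset.mem_image.mp hb
      have h2 : s'.filter (fun x => x ^ 2 = d ^ 2) ⊆ {d, -d} := by
        intro x hx
        rw [Finset.mem_filter, sq_eq_sq_iff_eq_or_eq_neg] at hx
        rw [Finset.mem_insert, Finset.mem_singleton]
        exact hx.2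
      exact (Finset.card_le_card h2).trans Finset.card_le_two
    omega
  obtain ⟨t, ht, htc⟩ := Finset.exists_subset_card_eq himg
  set o := t.equivFin.symm with ho
  have hcast : Fin 4 ≃ Fin t.card := finCongr htc.symm
  have hmem : ∀ i : Fin 4, ∃ d : κ₀, d ≠ 0 ∧ ((o (hcast i) : t) : κ₀) = d ^ 2 := by
    intro i
    obtain ⟨d, hd, h⟩ := Finset.mem_image.mp (ht (o (hcast i)).2)
    exact ⟨d, (Finset.mem_erase.mp hd).1, h.symm⟩
  choose d hd0 hd using hmem
  refine ⟨fun i => a * d i ^ 2, ?_, ?_, ?_⟩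
  · rintro i ⟨r, hr⟩
    apply ha
    refine ⟨r / d i, ?_⟩
    have := hd0 i
    field_simp
    rw [sq r]
    exact hr
  · intro i j hij
    have h1 : d i ^ 2 = d j ^ 2 := mul_left_cancel₀ ha0 hij
    rw [← hd, ← hd] at h1
    exact hcast.injective (o.injective (Subtype.ext h1))
  · exact ⟨a * (d 0 * d 1), by ring⟩

/-- **Counterexamples for fields with a discrete valuation.** -/
theorem exists_sub_dvr {k : Type} [Field k] [CharZero k] (Q : Type) [DivisionRing Q]
    [Algebra k Q] (f : WeylAlg k →ₐ[k] Q) (hf : IsQuotDiv (f : WeylAlg k →+* Q))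
    (O : Type) [CommRing O] [IsDomain O] [IsDiscreteValuationRing O] [Algebra O k]
    [IsFractionRing O k] (h2 : (2 : IsLocalRing.ResidueField O) ≠ 0)
    (hns : ∃ a : IsLocalRing.ResidueField O, ¬ IsSquare a)
    (hcard : 9 ≤ ENat.card (IsLocalRing.ResidueField O)) :
    ∃ D : Subfield Q, (∃ φ : Q ≃ₐ[k] Q, (∀ q, φ (φ q) = q) ∧ ∀ q, q ∈ D ↔ φ q = q) ∧
      ¬ IsPI D ∧ IsEmpty (D ≃+* Q) := by
  obtain ⟨a, ha⟩ := hns
  obtain ⟨c, hc, hinj, h01⟩ := exists_four a ha hcard
  obtain ⟨π, hπ⟩ := IsDiscreteValuationRing.exists_irreducible O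
  refine exists_sub (Λ := O) (π := π) (ev := IsLocalRing.residue O)
    IsLocalRing.residue_surjective (fun l => ?_) hπ.ne_zero h2 hc hinj h01 Q f hf
  rw [IsLocalRing.residue_eq_zero_iff, hπ.maximalIdeal_eq, Ideal.mem_span_singleton]

end dvr

end Pool.Agent.WeylSub
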